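import Mathlib

set_option autoImplicit false

namespace Pool.Agent.H652.DL

open Metric

/-- finite-rank operators close to the identity which almost preserve the set `B` -/
def GG {L : Type} [NormedAddCommGroup L] [NormedSpace ℝ L] (B : Set L) (lam t : ℝ) : Prop :=
  ∀ (G : Finset (StrongDual ℝ L)) (K : Finset L) (ε : ℝ), 0 < ε →
    ∃ v : L →L[ℝ] L, FiniteDimensional ℝ (LinearMap.range (v : L →ₗ[ℝ] L)) ∧ ‖v‖ ≤ lam ∧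
      (∀ g ∈ G, ‖g.comp v - g‖ ≤ ε) ∧ (∀ k ∈ K, ‖v k - k‖ ≤ ε) ∧
      ∀ y ∈ B, ∃ b ∈ B, ‖v y - b‖ ≤ t

/-- the data on `c_0` -/
structure VS (V : Type) [NormedAddCommGroup V] [NormedSpace ℝ V] where
  s : ℕ → V
  P : ℕ → V →L[ℝ] V
  tau : ℕ → StrongDual ℝ V
  f0 : StrongDual ℝ V
  s_norm : ∀ n, ‖s n‖ ≤ 1
  f0_norm : ‖f0‖ ≤ 1
  f0_s : ∀ n, f0 (s n) = 1
  P_fin : ∀ N, FiniteDimensional ℝ (LinearMap.range (P N : V →ₗ[ℝ] V))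
  S_norm : ∀ N N', N ≤ N' → ∀ x, ‖P N x + tau N x • s N'‖ ≤ ‖x‖
  P_s_le : ∀ N n, n ≤ N → P N (s n) = s n
  tau_s_le : ∀ N n, n ≤ N → tau N (s n) = 0
  P_s_gt : ∀ N n, N < n → P N (s n) = 0
  tau_s_gt : ∀ N n, N < n → tau N (s n) = 1
  P_norm : ∀ N x, ‖P N x‖ ≤ 2 * ‖x‖
  tau_norm : ∀ N, ‖tau N‖ ≤ 1
  dual_tend : ∀ (a : StrongDual ℝ V) (ε : ℝ), 0 < ε → ∃ N₀, ∀ N N', N₀ ≤ N → N ≤ N' →
    ∀ x, |a (P N x + tau N x • s N') - a x| ≤ ε * ‖x‖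
  tend : ∀ (x : V) (ε : ℝ), 0 < ε → ∃ N₀, ∀ N, N₀ ≤ N → ‖P N x - x‖ ≤ ε ∧ |tau N x| ≤ ε

/-- the space `E`: a renorming of `V × L` whose unit ball is generated by the balls of `V`, `L`
and the points `s n ± sig • y i`, `i ≤ n` -/
structure ES {V L : Type} [NormedAddCommGroup V] [NormedSpace ℝ V] [NormedAddCommGroup L]
    [NormedSpace ℝ L] (D : VS V) (y : ℕ → L) (sig : ℝ) (E : Type) [NormedAddCommGroup E]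
    [NormedSpace ℝ E] where
  iV : V →L[ℝ] E
  iL : L →L[ℝ] E
  pV : E →L[ℝ] V
  pL : E →L[ℝ] L
  sum_eq : ∀ z, iV (pV z) + iL (pL z) = z
  pV_iV : ∀ x, pV (iV x) = x
  pL_iL : ∀ t, pL (iL t) = t
  pV_iL : ∀ t, pV (iL t) = 0
  pL_iV : ∀ x, pL (iV x) = 0
  iV_norm : ∀ x, ‖iV x‖ ≤ ‖x‖
  iL_norm : ∀ t, ‖iL t‖ ≤ ‖t‖
  pV_norm : ∀ z, ‖pV z‖ ≤ ‖z‖
  pL_norm : ∀ z, ‖pL z‖ ≤ ‖z‖
  gen_norm : ∀ i n, i ≤ n → ‖iV (D.s n) + sig • iL (y i)‖ ≤ 1 ∧ ‖iV (D.s n) - sig • iL (y i)‖ ≤ 1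
  dual_norm : ∀ (f : StrongDual ℝ E) (C : ℝ), 0 ≤ C → (∀ x, |f (iV x)| ≤ C * ‖x‖) →
    (∀ t, |f (iL t)| ≤ C * ‖t‖) → (∀ i n, i ≤ n → |f (iV (D.s n))| + sig * |f (iL (y i))| ≤ C) →
    ‖f‖ ≤ C

/-- the `lam`-approximation property of `X` -/
def HasAP (X : Type) [NormedAddCommGroup X] [NormedSpace ℝ X] (lam : ℝ) : Prop :=
  ∀ K : Set X, IsCompact K → ∀ ε : ℝ, 0 < ε →
    ∃ u : X →L[ℝ] X, FiniteDimensional ℝ (LinearMap.range (u : X →ₗ[ℝ] X)) ∧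
      ‖u‖ ≤ lam ∧ ∀ x ∈ K, ‖u x - x‖ < ε

/-- the `lam`-approximation property of `X` with respect to the norm `N` -/
def HasAPFor {X : Type} [NormedAddCommGroup X] [NormedSpace ℝ X] (N : Seminorm ℝ X) (lam : ℝ) :
    Prop :=
  ∀ K : Set X, IsCompact K → ∀ ε : ℝ, 0 < ε →
    ∃ u : X →L[ℝ] X, FiniteDimensional ℝ (LinearMap.range (u : X →ₗ[ℝ] X)) ∧
      (∀ x, N (u x) ≤ lam * N x) ∧ ∀ x ∈ K, N (u x - x) < ε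

/-- `N` is an equivalent norm on `X` whose dual norm on `X*` is `f ↦ ‖f‖ + 4 β dist(f, Γ)` -/
def IsNormOf {X : Type} [NormedAddCommGroup X] [NormedSpace ℝ X]
    (N : Seminorm ℝ X) (Γ : Submodule ℝ (StrongDual ℝ X)) (β : ℝ) : Prop :=
  (∃ a b : ℝ, 0 < a ∧ ∀ x, a * ‖x‖ ≤ N x ∧ N x ≤ b * ‖x‖) ∧
    ∀ f : StrongDual ℝ X,
      IsLUB {r : ℝ | ∃ x : X, N x ≤ 1 ∧ r = |f x|} (‖f‖ + 4 * β * infDist f (Γ : Set (StrongDual ℝ X)))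

/-- the operators -/
noncomputable def U {V L E : Type} [NormedAddCommGroup V] [NormedSpace ℝ V] [NormedAddCommGroup L]
    [NormedSpace ℝ L] [NormedAddCommGroup E] [NormedSpace ℝ E] {D : VS V} {y : ℕ → L} {sig : ℝ}
    (A : ES D y sig E) (v : L →L[ℝ] L) (N N' : ℕ) (z : E) (th : ℝ) : E →L[ℝ] E :=
  A.iV.comp ((D.P N).comp A.pV) + A.iL.comp (v.comp A.pL) +
    ((D.tau N).comp A.pV).smulRight ((1 - th) • A.iV (D.s N') + th • z)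

/-- the requirements on `v`, `N`, `N'` -/
structure Good {V L E : Type} [NormedAddCommGroup V] [NormedSpace ℝ V] [NormedAddCommGroup L]
    [NormedSpace ℝ L] [NormedAddCommGroup E] [NormedSpace ℝ E] {D : VS V} {y : ℕ → L} {sig : ℝ}
    (A : ES D y sig E) (Γ : Submodule ℝ (StrongDual ℝ E)) (kap T om : ℝ) (v : L →L[ℝ] L)
    (N N' : ℕ) : Prop where
  fin : FiniteDimensional ℝ (LinearMap.range (v : L →ₗ[ℝ] L))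
  le : N ≤ N'
  h1 : ‖v‖ ≤ 1 + kap * sig
  h2 : ∀ i, i ≤ N → ‖v (y i) - y i‖ ≤ om
  h3 : ∀ i, ∃ j, j ≤ N' ∧ ‖v (y i) - y j‖ ≤ T + om
  h4 : ∀ γ ∈ Γ, ‖γ.comp (U A v N N' 0 0) - γ‖ ≤ om * ‖γ‖
  h5 : ∀ i, ∃ j, j ≤ N' ∧ ∀ γ ∈ Γ, |γ (A.iL (y i)) - γ (A.iL (y j))| ≤ om * ‖γ‖

end Pool.Agent.H652.DL
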