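import Mathlib
import Pool.Agent.H652.DL.Defs

set_option autoImplicit false

namespace Pool.Agent.H652.DL

open Metric


theorem ap_of_le {E : Type} [NormedAddCommGroup E] [NormedSpace ℝ E]
    (Γ : Submodule ℝ (StrongDual ℝ E)) (β : ℝ) (hβ : 0 < β)
    (N : Seminorm ℝ E) (hN : IsNormOf N Γ β) (f : StrongDual ℝ E) (x : E) :
    |f x| ≤ (‖f‖ + 4 * β * infDist f (Γ : Set (StrongDual ℝ E))) * N x := by
  obtain ⟨⟨a, b, ha, hab⟩, hlub⟩ := hN
  by_cases h0 : N x = 0
  · have h1 := (hab x).1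
    rw [h0] at h1
    have h2 : ‖x‖ ≤ 0 := by
      by_contra h
      push Not at h
      nlinarith [mul_pos ha h]
    have h3 : x = 0 := norm_le_zero_iff.mp h2
    rw [h3, map_zero, map_zero, abs_zero, mul_zero]
  · have hpos : 0 < N x := lt_of_le_of_ne (apply_nonneg N x) (Ne.symm h0)
    have h1 : N ((N x)⁻¹ • x) = 1 := by
      rw [map_smul_eq_mul, Real.norm_of_nonneg (inv_nonneg.mpr hpos.le), inv_mul_cancel₀ h0]
    have h2 : |f ((N x)⁻¹ • x)| ≤ ‖f‖ + 4 * β * infDist f (Γ : Set (StrongDual ℝ E)) :=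
      (hlub f).1 ⟨(N x)⁻¹ • x, h1.le, rfl⟩
    rw [map_smul, smul_eq_mul, abs_mul, abs_of_pos (inv_pos.mpr hpos)] at h2
    have h3 : |f x| = ((N x)⁻¹ * |f x|) * N x := by
      field_simp
    rw [h3]
    exact mul_le_mul_of_nonneg_right h2 hpos.le

theorem ap_of_contract {E : Type} [NormedAddCommGroup E] [NormedSpace ℝ E]
    (Γ : Submodule ℝ (StrongDual ℝ E)) (β : ℝ) (hβ : 0 < β) (lam : ℝ) (hlam : 0 ≤ lam)
    (N : Seminorm ℝ E) (hN : IsNormOf N Γ β) (u : E →L[ℝ] E)
    (hu : ∀ f : StrongDual ℝ E,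
          ‖f.comp u‖ + 4 * β * infDist (f.comp u) (Γ : Set (StrongDual ℝ E)) ≤
          lam * (‖f‖ + 4 * β * infDist f (Γ : Set (StrongDual ℝ E)))) (x : E) :
    N (u x) ≤ lam * N x := by
  have hle := ap_of_le Γ β hβ N hN
  obtain ⟨⟨a, b, ha, hab⟩, hlub⟩ := hN
  have hNx : 0 ≤ N x := apply_nonneg N x
  by_cases h0 : u x = 0
  · rw [h0, map_zero]
    positivity
  · obtain ⟨g, hg1, hg2⟩ := exists_extension_of_le_sublinear
      (LinearPMap.mkSpanSingleton (u x) (N (u x)) h0) (fun z => N z)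
      (by
        intro c hc z
        change N (c • z) = c * N z
        rw [map_smul_eq_mul, Real.norm_of_nonneg hc.le])
      (fun z w => map_add_le_add N z w)
      (by
        rintro ⟨z, hz⟩
        obtain ⟨c, rfl⟩ := Submodule.mem_span_singleton.mp hz
        rw [LinearPMap.mkSpanSingleton'_apply]
        change c • N (u x) ≤ N (c • u x)
        rw [map_smul_eq_mul, smul_eq_mul, Real.norm_eq_abs]
        exact mul_le_mul_of_nonneg_right (le_abs_self c) (apply_nonneg N _))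
    have hgabs : ∀ z, |g z| ≤ N z := by
      intro z
      rw [abs_le]
      constructor
      · have h1 := hg2 (-z)
        have h2 : N (-z) = N z := map_neg_eq_map N z
        simp only [map_neg, h2] at h1
        linarith
      · exact hg2 z
    have hgx : g (u x) = N (u x) := by
      have hmem : u x ∈ Submodule.span ℝ {u x} :=
        Submodule.mem_span_singleton_self (R := ℝ) (u x)
      have h1 := hg1 ⟨u x, hmem⟩
      rw [LinearPMap.mkSpanSingleton'_apply_self] at h1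
      exact h1
    set G : StrongDual ℝ E := g.mkContinuous b (by
      intro z
      rw [Real.norm_eq_abs]
      exact (hgabs z).trans (hab z).2) with hG
    have hGapp : ∀ z, G z = g z := fun z => rfl
    have hF1 : ‖G‖ + 4 * β * infDist G (Γ : Set (StrongDual ℝ E)) ≤ 1 := by
      refine (hlub G).2 ?_
      rintro r ⟨z, hz, rfl⟩
      rw [hGapp]
      exact (hgabs z).trans hz
    have h1 := hle (G.comp u) x
    have h2 : |(G.comp u) x| = N (u x) := by
      rw [ContinuousLinearMap.comp_apply, hGapp, hgx]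
      exact abs_of_nonneg (apply_nonneg N _)
    rw [h2] at h1
    calc N (u x) ≤ (‖G.comp u‖ + 4 * β * infDist (G.comp u) (Γ : Set (StrongDual ℝ E))) * N x := h1
      _ ≤ (lam * (‖G‖ + 4 * β * infDist G (Γ : Set (StrongDual ℝ E)))) * N x :=
          mul_le_mul_of_nonneg_right (hu G) hNx
      _ ≤ (lam * 1) * N x :=
          mul_le_mul_of_nonneg_right (mul_le_mul_of_nonneg_left hF1 hlam) hNx
      _ = lam * N x := by ring


theorem ap_of {E : Type} [NormedAddCommGroup E] [NormedSpace ℝ E]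
    (Γ : Submodule ℝ (StrongDual ℝ E)) (β : ℝ) (hβ : 0 < β) (lam : ℝ) (hlam : 0 ≤ lam)
    (H : ∀ (K : Finset E) (δ : ℝ), 0 < δ →
      ∃ u : E →L[ℝ] E, FiniteDimensional ℝ (LinearMap.range (u : E →ₗ[ℝ] E)) ∧
        (∀ f : StrongDual ℝ E,
          ‖f.comp u‖ + 4 * β * infDist (f.comp u) (Γ : Set (StrongDual ℝ E)) ≤
          lam * (‖f‖ + 4 * β * infDist f (Γ : Set (StrongDual ℝ E)))) ∧
        ∀ k ∈ K, ‖u k - k‖ ≤ δ)
    (N : Seminorm ℝ E) (hN : IsNormOf N Γ β) : HasAPFor N lam := by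
  classical
  intro K hK ε hε
  obtain ⟨b, hb0, hb⟩ : ∃ b : ℝ, 0 < b ∧ ∀ x, N x ≤ b * ‖x‖ := by
    obtain ⟨⟨a, b, ha, hab⟩, _⟩ := hN
    refine ⟨max b 0 + 1, by positivity, fun x => (hab x).2.trans ?_⟩
    have h1 : b ≤ max b 0 + 1 := by
      have := le_max_left b 0
      linarith
    exact mul_le_mul_of_nonneg_right h1 (norm_nonneg x)
  set ρ : ℝ := ε / (4 * b * (lam + 1)) with hρ
  have hl1 : 0 < lam + 1 := by linarith
  have hρ0 : 0 < ρ := by positivity
  obtain ⟨t, htK, htf, htc⟩ := hK.finite_cover_balls hρ0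
  obtain ⟨u, hu1, hu2, hu3⟩ := H htf.toFinset (ε / (4 * b)) (by positivity)
  have hcon := ap_of_contract Γ β hβ lam hlam N hN u hu2
  refine ⟨u, hu1, hcon, ?_⟩
  intro x hx
  have hx' := htc hx
  rw [Set.mem_iUnion₂] at hx'
  obtain ⟨k, hk, hxk⟩ := hx'
  rw [mem_ball, dist_eq_norm] at hxk
  have hk' := hu3 k (htf.mem_toFinset.mpr hk)
  have e1 : u x - x = u (x - k) + ((u k - k) + (k - x)) := by
    rw [map_sub]; abel
  have h1 : N (u x - x) ≤ N (u (x - k)) + (N (u k - k) + N (k - x)) := by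
    rw [e1]
    refine (map_add_le_add N _ _).trans ?_
    exact add_le_add le_rfl (map_add_le_add N _ _)
  have h2 : N (u (x - k)) ≤ lam * (b * ρ) := by
    refine (hcon (x - k)).trans (mul_le_mul_of_nonneg_left ?_ hlam)
    exact (hb _).trans (mul_le_mul_of_nonneg_left hxk.le hb0.le)
  have h3 : N (u k - k) ≤ b * (ε / (4 * b)) :=
    (hb _).trans (mul_le_mul_of_nonneg_left hk' hb0.le)
  have h4 : N (k - x) ≤ b * ρ := by
    refine (hb _).trans (mul_le_mul_of_nonneg_left ?_ hb0.le)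
    rw [norm_sub_rev]
    exact hxk.le
  have e2 : lam * (b * ρ) + b * ρ = ε / 4 := by
    rw [hρ]
    field_simp
  have e3 : b * (ε / (4 * b)) = ε / 4 := by
    field_simp
  linarith

end Pool.Agent.H652.DL
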