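import Mathlib
import Pool.Agent.H652.DL.Defs

set_option autoImplicit false

namespace Pool.Agent.H652.DL

open Metric



theorem att {Z : Type} [NormedAddCommGroup Z] [NormedSpace ℝ Z] (Γ : Submodule ℝ Z)
    [FiniteDimensional ℝ Γ] (f : Z) :
    ∃ γ ∈ Γ, ‖f - γ‖ = infDist f (Γ : Set Z) ∧ ‖f - γ‖ ≤ ‖f‖ := by
  haveI : ProperSpace Γ := FiniteDimensional.proper ℝ Γ
  have hc : Continuous fun γ : Γ => ‖f - γ‖ := by fun_prop
  have ht : Filter.Tendsto (fun γ : Γ => ‖f - γ‖) (Filter.cocompact Γ) Filter.atTop := by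
    have h1 : Filter.Tendsto (fun γ : Γ => ‖γ‖ + (-‖f‖)) (Filter.cocompact Γ) Filter.atTop :=
      Filter.tendsto_atTop_add_const_right _ _ tendsto_norm_cocompact_atTop
    refine Filter.tendsto_atTop_mono (fun γ => ?_) h1
    have h2 : ‖(γ : Z)‖ ≤ ‖f - γ‖ + ‖f‖ := by
      have h3 := norm_sub_le f (f - γ)
      rw [sub_sub_cancel] at h3
      linarith
    have h3 : ‖(γ : Γ)‖ = ‖(γ : Z)‖ := rfl
    linarith
  obtain ⟨γ0, h0⟩ := hc.exists_forall_le ht
  refine ⟨γ0, γ0.2, ?_, ?_⟩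
  · apply le_antisymm
    · rw [Metric.le_infDist ⟨0, Γ.zero_mem⟩]
      intro y hy
      rw [dist_eq_norm]
      exact h0 ⟨y, hy⟩
    · rw [← dist_eq_norm]
      exact Metric.infDist_le_dist_of_mem γ0.2
  · have := h0 0
    simpa using this

end Pool.Agent.H652.DL
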