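import Mathlib
import Pool.Agent.H652.DL.Defs

set_option autoImplicit false

namespace Pool.Agent.H652.DL

open Metric



theorem num_B (sig T om β Q d a e : ℝ) (hs : 0 < sig) (hs1 : sig ≤ T / 64) (hT : 0 < T)
    (hT1 : T ≤ 1) (hom : 0 < om) (hom1 : om * (1 + β) ≤ sig * T ^ 2 / 10 ^ 5) (hβ : 1 / 16 ≤ β)
    (hd : 0 ≤ d) (hdQ : d ≤ Q) (h1 : a ≤ (1 + sig * (T + om)) * Q)
    (h2 : ∀ M, T / 16 * Q ≤ M → (2 + T / 16 * sig) * d + 4 * om * Q ≤ M → om * Q ≤ M →
      a ≤ Q + sig * M)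
    (h3 : e ≤ 2 * om * Q + d * (1 + 3 / 4 * sig * T + 2 * sig * om + sig ^ 2 / 2)) :
    a + 4 * β * e ≤ (1 + sig * (T - T ^ 2 / 256)) * (Q + 4 * β * d) := by
  have hβ0 : 0 < β := by linarith
  have hQ : 0 ≤ Q := hd.trans hdQ
  have hTT : T ^ 2 ≤ T := by nlinarith
  have hsT : 0 < sig * T := mul_pos hs hT
  have hsTT : 0 < sig * T ^ 2 := by positivity
  have hsT2 : sig * T ^ 2 ≤ sig * T := mul_le_mul_of_nonneg_left hTT hs.le
  have hβom : 0 < β * om := mul_pos hβ0 hom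
  have e1 : om ≤ sig * T ^ 2 / 10 ^ 5 := by nlinarith
  have e2 : β * om ≤ sig * T ^ 2 / 10 ^ 5 := by nlinarith
  have hsle : sig ≤ 1 / 64 := by linarith
  have e3 : om ≤ T / 10 ^ 6 := by
    have : sig * T ^ 2 ≤ 1 / 64 * T := by
      calc sig * T ^ 2 ≤ sig * T := hsT2
        _ ≤ 1 / 64 * T := mul_le_mul_of_nonneg_right hsle hT.le
    have h5 : (10 : ℝ) ^ 5 = 100000 := by norm_num
    have h6 : (10 : ℝ) ^ 6 = 1000000 := by norm_num
    rw [h5] at e1
    rw [h6]
    nlinarith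
  have hbr : T / 5 ≤ T / 4 - T ^ 2 / 256 - 2 * om - sig / 2 := by
    have h6 : (10 : ℝ) ^ 6 = 1000000 := by norm_num
    rw [h6] at e3
    nlinarith
  have h4 : 4 * β * e ≤ 8 * (β * om) * Q +
      4 * β * d * (1 + 3 / 4 * sig * T + 2 * sig * om + sig ^ 2 / 2) := by
    have := mul_le_mul_of_nonneg_left h3 (by positivity : (0:ℝ) ≤ 4 * β)
    nlinarith
  have hkey : 4 * β * d * (1 + 3 / 4 * sig * T + 2 * sig * om + sig ^ 2 / 2)
      + 4 * β * d * sig * (T / 5) ≤ 4 * β * d * (1 + sig * (T - T ^ 2 / 256)) := by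
    have h7 : (0:ℝ) ≤ 4 * β * d * sig := by positivity
    have h8 := mul_le_mul_of_nonneg_left hbr h7
    nlinarith
  have hred : a + 8 * (β * om) * Q ≤ (1 + sig * (T - T ^ 2 / 256)) * Q +
      4 * β * d * sig * (T / 5) → a + 4 * β * e ≤ (1 + sig * (T - T ^ 2 / 256)) * (Q + 4 * β * d) := by
    intro h
    nlinarith
  apply hred
  rcases le_or_gt d (T / 4 * Q) with hcase | hcase
  · have ha := h2 (51 / 100 * T * Q) (by nlinarith [mul_nonneg hT.le hQ]) ?_ ?_
    · have h9 : 0 ≤ 4 * β * d * sig * (T / 5) := by positivity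
      have h10 : 8 * (β * om) * Q ≤ 8 * (sig * T ^ 2 / 10 ^ 5) * Q := by
        apply mul_le_mul_of_nonneg_right _ hQ
        linarith
      have h11 : 8 * (sig * T ^ 2 / 10 ^ 5) * Q ≤ 8 * (sig * T / 10 ^ 5) * Q := by
        apply mul_le_mul_of_nonneg_right _ hQ
        have : sig * T ^ 2 / 10 ^ 5 ≤ sig * T / 10 ^ 5 := by
          apply div_le_div_of_nonneg_right hsT2 (by norm_num)
        linarith
      have h12 : sig * T ^ 2 * Q ≤ sig * T * Q := mul_le_mul_of_nonneg_right hsT2 hQ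
      have h13 : 0 ≤ sig * T * Q := by positivity
      have h14 : 8 * (sig * T / 10 ^ 5) * Q = 8 / 10 ^ 5 * (sig * T * Q) := by ring
      rw [h14] at h11
      have h5 : (8 / 10 ^ 5 : ℝ) = 8 / 100000 := by norm_num
      rw [h5] at h11
      nlinarith
    · have h15 : (2 + T / 16 * sig) * d ≤ (2 + T / 16 * sig) * (T / 4 * Q) := by
        apply mul_le_mul_of_nonneg_left hcase
        positivity
      have h16 : T * sig ≤ 1 / 64 := by nlinarith
      have h17 : 0 ≤ T * Q := by positivity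
      have h18 : T * sig * (T * Q) ≤ 1 / 64 * (T * Q) := mul_le_mul_of_nonneg_right h16 h17
      have h19 : om * Q ≤ T / 10 ^ 6 * Q := mul_le_mul_of_nonneg_right e3 hQ
      have h20 : T / 10 ^ 6 * Q = 1 / 1000000 * (T * Q) := by ring
      rw [h20] at h19
      nlinarith
    · have h17 : 0 ≤ T * Q := by positivity
      have h19 : om * Q ≤ T / 10 ^ 6 * Q := mul_le_mul_of_nonneg_right e3 hQ
      have h20 : T / 10 ^ 6 * Q = 1 / 1000000 * (T * Q) := by ring
      rw [h20] at h19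
      nlinarith
  · have h21 : 4 * (1 / 16) * (T / 4 * Q) ≤ 4 * β * d := by
      apply mul_le_mul _ hcase.le (by positivity) (by positivity)
      linarith
    have h22 : 4 * (1 / 16) * (T / 4 * Q) * (sig * (T / 5)) ≤ 4 * β * d * (sig * (T / 5)) :=
      mul_le_mul_of_nonneg_right h21 (by positivity)
    have h23 : 4 * (1 / 16) * (T / 4 * Q) * (sig * (T / 5)) = 1 / 80 * (sig * T ^ 2 * Q) := by ring
    rw [h23] at h22
    have h24 : 8 * (β * om) * Q ≤ 8 * (sig * T ^ 2 / 10 ^ 5) * Q := by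
      apply mul_le_mul_of_nonneg_right _ hQ
      linarith
    have h25 : 8 * (sig * T ^ 2 / 10 ^ 5) * Q = 8 / 100000 * (sig * T ^ 2 * Q) := by ring
    rw [h25] at h24
    have h26 : sig * om * Q ≤ sig * (sig * T ^ 2 / 10 ^ 5) * Q := by
      apply mul_le_mul_of_nonneg_right _ hQ
      exact mul_le_mul_of_nonneg_left e1 hs.le
    have h27 : sig * (sig * T ^ 2 / 10 ^ 5) * Q = sig * (1 / 100000 * (sig * T ^ 2 * Q)) := by ring
    rw [h27] at h26
    have h28 : 0 ≤ 1 / 100000 * (sig * T ^ 2 * Q) := by positivity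
    have h29 : sig * (1 / 100000 * (sig * T ^ 2 * Q)) ≤ 1 * (1 / 100000 * (sig * T ^ 2 * Q)) :=
      mul_le_mul_of_nonneg_right (by linarith) h28
    nlinarith

end Pool.Agent.H652.DL
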