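import Mathlib
import Pool.Agent.H652.DL.Defs

set_option autoImplicit false

namespace Pool.Agent.H652.DL

open Metric



theorem SB_bound {V L E : Type} [NormedAddCommGroup V] [NormedSpace ℝ V] [NormedAddCommGroup L]
    [NormedSpace ℝ L] [NormedAddCommGroup E] [NormedSpace ℝ E] {D : VS V} {y : ℕ → L} {sig : ℝ}
    {A : ES D y sig E} {Γ : Submodule ℝ (StrongDual ℝ E)} {kap T om : ℝ} {v : L →L[ℝ] L}
    {N N' : ℕ} (hG : Good A Γ kap T om v N N') (hs : 0 < sig) (hy : ∀ i, ‖y i‖ ≤ 1)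
    (f γ : StrongDual ℝ E) (hγ : γ ∈ Γ) (hfγ : ‖f - γ‖ ≤ ‖f‖) (M : ℝ)
    (hM1 : kap * ‖f‖ ≤ M) (hM2 : (2 + kap * sig) * ‖f - γ‖ + 4 * om * ‖f‖ ≤ M)
    (hM3 : om * ‖f‖ ≤ M) :
    ‖f.comp (U A v N N' 0 0)‖ ≤ ‖f‖ + sig * M := by
  have hom : 0 ≤ om := (norm_nonneg _).trans (hG.h2 0 (Nat.zero_le _))
  have hf0 : 0 ≤ ‖f‖ := norm_nonneg _
  have hM0 : 0 ≤ M := (mul_nonneg hom hf0).trans hM3
  have hsM : 0 ≤ sig * M := mul_nonneg hs.le hM0
  have hγn : ‖γ‖ ≤ 2 * ‖f‖ := by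
    have h1 : γ = f - (f - γ) := by abel
    have h2 : ‖γ‖ ≤ ‖f‖ + ‖f - γ‖ := by
      conv_lhs => rw [h1]
      exact norm_sub_le _ _
    linarith
  have hSV : ∀ x, U A v N N' 0 0 (A.iV x) = A.iV (D.P N x + D.tau N x • D.s N') := by
    intro x
    simp [U, A.pV_iV, A.pL_iV]
  have hSL : ∀ t, U A v N N' 0 0 (A.iL t) = A.iL (v t) := by
    intro t
    simp [U, A.pV_iL, A.pL_iL]
  have hvn : ∀ t, ‖v t‖ ≤ (1 + kap * sig) * ‖t‖ := fun t =>
    (v.le_opNorm t).trans (mul_le_mul_of_nonneg_right hG.h1 (norm_nonneg _))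
  have hk0 : 0 ≤ 1 + kap * sig := (norm_nonneg v).trans hG.h1
  have hgen : ∀ a b, a ≤ b → |f (A.iV (D.s b))| + sig * |f (A.iL (y a))| ≤ ‖f‖ := by
    intro a b hab
    obtain ⟨h1, h2⟩ := A.gen_norm a b hab
    have h3 : |f (A.iV (D.s b) + sig • A.iL (y a))| ≤ ‖f‖ := by
      rw [← Real.norm_eq_abs]
      exact (f.le_opNorm _).trans (mul_le_of_le_one_right hf0 h1)
    have h4 : |f (A.iV (D.s b) - sig • A.iL (y a))| ≤ ‖f‖ := by
      rw [← Real.norm_eq_abs]
      exact (f.le_opNorm _).trans (mul_le_of_le_one_right hf0 h2)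
    rw [map_add, map_smul, smul_eq_mul] at h3
    rw [map_sub, map_smul, smul_eq_mul] at h4
    rw [abs_le] at h3 h4
    have h5 : sig * |f (A.iL (y a))| = |sig * f (A.iL (y a))| := by
      rw [abs_mul, abs_of_pos hs]
    rw [h5]
    rcases abs_cases (f (A.iV (D.s b))) with ⟨e1, _⟩ | ⟨e1, _⟩ <;>
      rcases abs_cases (sig * f (A.iL (y a))) with ⟨e2, _⟩ | ⟨e2, _⟩ <;>
      rw [e1, e2] <;> linarith [h3.1, h3.2, h4.1, h4.2]
  refine A.dual_norm _ _ (by linarith) ?_ ?_ ?_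
  · intro x
    have h1 : |f (A.iV (D.P N x + D.tau N x • D.s N'))| ≤ ‖f‖ * ‖x‖ := by
      rw [← Real.norm_eq_abs]
      refine (f.le_opNorm _).trans (mul_le_mul_of_nonneg_left ?_ hf0)
      exact (A.iV_norm _).trans (D.S_norm N N' hG.le x)
    show |f (U A v N N' 0 0 (A.iV x))| ≤ _
    rw [hSV]
    have h2 : 0 ≤ sig * M * ‖x‖ := mul_nonneg hsM (norm_nonneg _)
    linarith
  · intro t
    show |f (U A v N N' 0 0 (A.iL t))| ≤ _
    rw [hSL]
    have h1 : |f (A.iL (v t))| ≤ ‖f‖ * ((1 + kap * sig) * ‖t‖) := by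
      rw [← Real.norm_eq_abs]
      exact (f.le_opNorm _).trans (mul_le_mul_of_nonneg_left ((A.iL_norm _).trans (hvn t)) hf0)
    have h2 : ‖f‖ * (1 + kap * sig) ≤ ‖f‖ + sig * M := by
      have h3 : sig * (kap * ‖f‖) ≤ sig * M := mul_le_mul_of_nonneg_left hM1 hs.le
      nlinarith
    calc |f (A.iL (v t))| ≤ (‖f‖ * (1 + kap * sig)) * ‖t‖ := by rw [mul_assoc]; exact h1
      _ ≤ (‖f‖ + sig * M) * ‖t‖ := mul_le_mul_of_nonneg_right h2 (norm_nonneg _)
  · intro i n hin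
    show |f (U A v N N' 0 0 (A.iV (D.s n)))| + sig * |f (U A v N N' 0 0 (A.iL (y i)))| ≤ _
    rw [hSV, hSL]
    by_cases hnN : n ≤ N
    · rw [D.P_s_le N n hnN, D.tau_s_le N n hnN, zero_smul, add_zero]
      have h1 : |f (A.iL (v (y i)))| ≤ |f (A.iL (y i))| + om * ‖f‖ := by
        have e : f (A.iL (v (y i))) = f (A.iL (y i)) + f (A.iL (v (y i) - y i)) := by
          rw [← map_add, ← map_add]
          congr 2
          abel
        rw [e]
        refine (abs_add_le _ _).trans ?_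
        have h2 : |f (A.iL (v (y i) - y i))| ≤ ‖f‖ * om := by
          rw [← Real.norm_eq_abs]
          exact (f.le_opNorm _).trans (mul_le_mul_of_nonneg_left
            ((A.iL_norm _).trans (hG.h2 i (hin.trans hnN))) hf0)
        linarith
      have h3 := hgen i n hin
      have h4 : sig * |f (A.iL (v (y i)))| ≤ sig * (|f (A.iL (y i))| + M) :=
        mul_le_mul_of_nonneg_left (by linarith) hs.le
      rw [mul_add] at h4
      linarith
    · push Not at hnN
      rw [D.P_s_gt N n hnN, D.tau_s_gt N n hnN, one_smul, zero_add]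
      obtain ⟨j, hj, hjγ⟩ := hG.h5 i
      have hiLy : ∀ k, ‖A.iL (y k)‖ ≤ 1 := fun k => (A.iL_norm _).trans (hy k)
      have h1 : |γ (A.iL (v (y i))) - γ (A.iL (y i))| ≤ om * ‖γ‖ := by
        have h2 := (γ.comp (U A v N N' 0 0) - γ).le_opNorm (A.iL (y i))
        have h3 : (γ.comp (U A v N N' 0 0) - γ) (A.iL (y i)) =
            γ (A.iL (v (y i))) - γ (A.iL (y i)) := by
          show γ (U A v N N' 0 0 (A.iL (y i))) - γ (A.iL (y i)) = _
          rw [hSL]
        rw [h3, Real.norm_eq_abs] at h2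
        refine h2.trans ?_
        refine (mul_le_mul (hG.h4 γ hγ) (hiLy i) (norm_nonneg _)
          (mul_nonneg hom (norm_nonneg _))).trans ?_
        rw [mul_one]
      have h2 := hjγ γ hγ
      have h3 : |(f - γ) (A.iL (y j))| ≤ ‖f - γ‖ := by
        rw [← Real.norm_eq_abs]
        exact ((f - γ).le_opNorm _).trans (mul_le_of_le_one_right (norm_nonneg _) (hiLy j))
      have h4 : |(f - γ) (A.iL (v (y i)))| ≤ ‖f - γ‖ * (1 + kap * sig) := by
        rw [← Real.norm_eq_abs]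
        refine ((f - γ).le_opNorm _).trans (mul_le_mul_of_nonneg_left ?_ (norm_nonneg _))
        refine (A.iL_norm _).trans ((hvn _).trans ?_)
        exact mul_le_of_le_one_right hk0 (hy i)
      have e3 : (f - γ) (A.iL (y j)) = f (A.iL (y j)) - γ (A.iL (y j)) := rfl
      have e4 : (f - γ) (A.iL (v (y i))) = f (A.iL (v (y i))) - γ (A.iL (v (y i))) := rfl
      rw [e3] at h3
      rw [e4] at h4
      have h5 : om * ‖γ‖ ≤ om * (2 * ‖f‖) := mul_le_mul_of_nonneg_left hγn hom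
      have h6 : |f (A.iL (v (y i)))| ≤ |f (A.iL (y j))| + M := by
        have e5 : f (A.iL (v (y i))) = f (A.iL (y j)) +
            ((f (A.iL (v (y i))) - γ (A.iL (v (y i)))) +
              (γ (A.iL (v (y i))) - γ (A.iL (y i))) + (γ (A.iL (y i)) - γ (A.iL (y j))) -
              (f (A.iL (y j)) - γ (A.iL (y j)))) := by ring
        rw [abs_le] at h1 h2 h3 h4
        have h7 := neg_abs_le (f (A.iL (y j)))
        have h8 := le_abs_self (f (A.iL (y j)))
        rw [e5, abs_le]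
        constructor <;> nlinarith [h1.1, h1.2, h2.1, h2.2, h3.1, h3.2, h4.1, h4.2]
      have h7 := hgen j N' hj
      have h8 : sig * |f (A.iL (v (y i)))| ≤ sig * (|f (A.iL (y j))| + M) :=
        mul_le_mul_of_nonneg_left h6 hs.le
      rw [mul_add] at h8
      linarith

end Pool.Agent.H652.DL
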