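import Mathlib
import Pool.Agent.H652.DL.Defs

set_option autoImplicit false

namespace Pool.Agent.H652.DL

open Metric


set_option maxHeartbeats 4000000 in

theorem SB_dist {V L E : Type} [NormedAddCommGroup V] [NormedSpace ℝ V] [NormedAddCommGroup L]
    [NormedSpace ℝ L] [NormedAddCommGroup E] [NormedSpace ℝ E] {D : VS V} {y : ℕ → L} {sig : ℝ}
    {A : ES D y sig E} {Γ : Submodule ℝ (StrongDual ℝ E)} {kap T om : ℝ} {v : L →L[ℝ] L}
    {N N' : ℕ} (hG : Good A Γ kap T om v N N') (hs : 0 < sig) (hs1 : sig ≤ T / 64)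
    (hT : 0 < T) (hT1 : T ≤ 1) (hkap : kap = T / 16) (hom : 0 < om) (hom1 : om ≤ T / 64)
    (hy : ∀ i, ‖y i‖ ≤ 1) (γ : StrongDual ℝ E) (hγ : γ ∈ Γ) (hγ1 : ‖γ‖ ≤ 1)
    (hγ2 : 1 / 2 ≤ γ (A.iV (D.s N'))) (h : StrongDual ℝ E) :
    infDist (h.comp (U A v N N' 0 0)) (Γ : Set (StrongDual ℝ E)) ≤
      ‖h‖ * (1 + 3 / 4 * sig * T + 2 * sig * om + sig ^ 2 / 2) := by
  have habs : ∀ (φ : StrongDual ℝ E) (z : E), |φ z| ≤ ‖φ‖ * ‖z‖ := fun φ z => by
    rw [← Real.norm_eq_abs]; exact φ.le_opNorm z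
  have hSV : ∀ x, U A v N N' 0 0 (A.iV x) = A.iV (D.P N x + D.tau N x • D.s N') := by
    intro x
    simp [U, A.pV_iV, A.pL_iV]
  have hSL : ∀ t, U A v N N' 0 0 (A.iL t) = A.iL (v t) := by
    intro t
    simp [U, A.pV_iL, A.pL_iL]
  have hpair : ∀ (φ : StrongDual ℝ E) (i n : ℕ), i ≤ n →
      |φ (A.iV (D.s n))| + sig * |φ (A.iL (y i))| ≤ ‖φ‖ := by
    intro φ i n hin
    obtain ⟨hp, hm⟩ := A.gen_norm i n hin
    have h1 := (habs φ (A.iV (D.s n) + sig • A.iL (y i))).trans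
      (mul_le_of_le_one_right (norm_nonneg φ) hp)
    have h2 := (habs φ (A.iV (D.s n) - sig • A.iL (y i))).trans
      (mul_le_of_le_one_right (norm_nonneg φ) hm)
    rw [map_add, map_smul, smul_eq_mul] at h1
    rw [map_sub, map_smul, smul_eq_mul] at h2
    have h3 : sig * |φ (A.iL (y i))| = |sig * φ (A.iL (y i))| := by
      rw [abs_mul, abs_of_pos hs]
    rw [h3]
    rw [abs_le] at h1 h2
    rcases abs_cases (φ (A.iV (D.s n))) with ⟨e1, _⟩ | ⟨e1, _⟩ <;>
    rcases abs_cases (sig * φ (A.iL (y i))) with ⟨e2, _⟩ | ⟨e2, _⟩ <;>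
    rw [e1, e2] <;> linarith [h1.1, h1.2, h2.1, h2.2]
  obtain ⟨H, hH⟩ : ∃ H : ℝ, H = ‖h‖ := ⟨_, rfl⟩
  have hH0 : 0 ≤ H := by rw [hH]; exact norm_nonneg h
  obtain ⟨a, ha⟩ : ∃ a : ℝ, a = h (A.iV (D.s N')) := ⟨_, rfl⟩
  obtain ⟨z0, hz0⟩ : ∃ z0 : ℝ, z0 = sig * T * H / 2 := ⟨_, rfl⟩
  have hz0n : 0 ≤ z0 := by rw [hz0]; positivity
  obtain ⟨ζ, hζ, hζa⟩ : ∃ ζ : ℝ, |ζ| = z0 ∧ ∀ c : ℝ, |a - ζ * c| = |(|a| - z0 * c)| := by
    rcases le_or_gt 0 a with h0 | h0
    · exact ⟨z0, abs_of_nonneg hz0n, fun c => by rw [abs_of_nonneg h0]⟩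
    · refine ⟨-z0, by rw [abs_neg, abs_of_nonneg hz0n], fun c => ?_⟩
      rw [abs_of_neg h0, ← abs_neg]
      congr 1
      ring
  have hT64 : sig ≤ 1 / 64 := by linarith
  -- distance
  have hdist : infDist (h.comp (U A v N N' 0 0)) (Γ : Set (StrongDual ℝ E)) ≤
      ‖h.comp (U A v N N' 0 0) - ζ • γ‖ := by
    rw [← dist_eq_norm]
    exact infDist_le_dist_of_mem (Γ.smul_mem ζ hγ)
  refine hdist.trans ?_
  rw [← hH]
  have hiV1 : ∀ x, ‖A.iV x‖ ≤ ‖x‖ := A.iV_norm
  have hiL1 : ∀ x, ‖A.iL x‖ ≤ ‖x‖ := A.iL_norm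
  have hγV : ∀ x, |γ (A.iV x)| ≤ ‖x‖ := fun x =>
    (habs γ _).trans ((mul_le_mul hγ1 (hiV1 x) (norm_nonneg _) zero_le_one).trans
      (by rw [one_mul]))
  have hγL : ∀ x, |γ (A.iL x)| ≤ ‖x‖ := fun x =>
    (habs γ _).trans ((mul_le_mul hγ1 (hiL1 x) (norm_nonneg _) zero_le_one).trans
      (by rw [one_mul]))
  have hhV : ∀ x, |h (A.iV x)| ≤ H * ‖x‖ := fun x =>
    (habs h _).trans (by rw [hH]; exact mul_le_mul_of_nonneg_left (hiV1 x) (norm_nonneg _))
  have hhL : ∀ x, |h (A.iL x)| ≤ H * ‖x‖ := fun x =>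
    (habs h _).trans (by rw [hH]; exact mul_le_mul_of_nonneg_left (hiL1 x) (norm_nonneg _))
  have hv : ∀ t, ‖v t‖ ≤ (1 + kap * sig) * ‖t‖ := fun t =>
    (v.le_opNorm t).trans (mul_le_mul_of_nonneg_right hG.h1 (norm_nonneg _))
  apply A.dual_norm
  · positivity
  · intro x
    show |h (U A v N N' 0 0 (A.iV x)) - ζ * γ (A.iV x)| ≤ _
    rw [hSV]
    have h1 : |h (A.iV (D.P N x + D.tau N x • D.s N'))| ≤ H * ‖x‖ :=
      (hhV _).trans (mul_le_mul_of_nonneg_left (D.S_norm N N' hG.le x) hH0)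
    have h2 : |ζ * γ (A.iV x)| ≤ z0 * ‖x‖ := by
      rw [abs_mul, hζ]
      exact mul_le_mul_of_nonneg_left (hγV x) hz0n
    refine (abs_sub _ _).trans ?_
    have h3 : 0 ≤ H * (sig * T / 4 + 2 * sig * om + sig ^ 2 / 2) * ‖x‖ := by positivity
    calc _ ≤ H * ‖x‖ + z0 * ‖x‖ := add_le_add h1 h2
      _ ≤ _ := by rw [hz0]; nlinarith
  · intro t
    show |h (U A v N N' 0 0 (A.iL t)) - ζ * γ (A.iL t)| ≤ _
    rw [hSL]
    have h1 : |h (A.iL (v t))| ≤ H * ((1 + kap * sig) * ‖t‖) :=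
      (hhL _).trans (mul_le_mul_of_nonneg_left (hv t) hH0)
    have h2 : |ζ * γ (A.iL t)| ≤ z0 * ‖t‖ := by
      rw [abs_mul, hζ]
      exact mul_le_mul_of_nonneg_left (hγL t) hz0n
    refine (abs_sub _ _).trans ?_
    have h3 : 0 ≤ H * (3 * sig * T / 16 + 2 * sig * om + sig ^ 2 / 2) * ‖t‖ := by positivity
    calc _ ≤ H * ((1 + kap * sig) * ‖t‖) + z0 * ‖t‖ := add_le_add h1 h2
      _ ≤ _ := by rw [hz0, hkap]; nlinarith
  · intro i n hin
    show |h (U A v N N' 0 0 (A.iV (D.s n))) - ζ * γ (A.iV (D.s n))| +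
      sig * |h (U A v N N' 0 0 (A.iL (y i))) - ζ * γ (A.iL (y i))| ≤ _
    rw [hSV, hSL]
    rcases le_or_gt n N with hnN | hnN
    · rw [D.P_s_le N n hnN, D.tau_s_le N n hnN, zero_smul, add_zero]
      have h1 : |h (A.iV (D.s n)) - ζ * γ (A.iV (D.s n))| ≤
          |h (A.iV (D.s n))| + z0 * |γ (A.iV (D.s n))| := by
        refine (abs_sub _ _).trans ?_
        rw [abs_mul, hζ]
      have h2 : |h (A.iL (v (y i)))| ≤ |h (A.iL (y i))| + H * om := by
        have e1 : h (A.iL (v (y i))) = h (A.iL (y i)) + h (A.iL (v (y i) - y i)) := by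
          rw [map_sub, map_sub]; ring
        rw [e1]
        refine (abs_add_le _ _).trans (add_le_add le_rfl ?_)
        exact (hhL _).trans (mul_le_mul_of_nonneg_left (hG.h2 i (hin.trans hnN)) hH0)
      have h3 : |h (A.iL (v (y i))) - ζ * γ (A.iL (y i))| ≤
          |h (A.iL (y i))| + H * om + z0 * |γ (A.iL (y i))| := by
        refine (abs_sub _ _).trans ?_
        rw [abs_mul, hζ]
        linarith
      have h4 := hpair h i n hin
      have h5 := (hpair γ i n hin).trans hγ1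
      rw [← hH] at h4
      have h6 := mul_le_mul_of_nonneg_left h3 hs.le
      have h7 := mul_le_mul_of_nonneg_left h5 hz0n
      have h8 : 0 ≤ H * (sig * T / 4 + sig * om + sig ^ 2 / 2) := by positivity
      have h9 : |h (A.iV (D.s n)) - ζ * γ (A.iV (D.s n))| +
          sig * |h (A.iL (v (y i))) - ζ * γ (A.iL (y i))| ≤ H + sig * (H * om) + z0 := by
        nlinarith
      rw [hz0] at h9
      nlinarith
    · rw [D.P_s_gt N n hnN, D.tau_s_gt N n hnN, one_smul, zero_add, ← ha]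
      obtain ⟨c, hc⟩ : ∃ c : ℝ, c = γ (A.iV (D.s n)) := ⟨_, rfl⟩
      have hc1 : c ≤ 1 := by
        have := (le_abs_self _).trans ((hγV (D.s n)).trans (D.s_norm n))
        rwa [← hc] at this
      have hc2 : 1 / 2 - om ≤ c := by
        have h1 := habs (γ.comp (U A v N N' 0 0) - γ) (A.iV (D.s n))
        have h2 : (γ.comp (U A v N N' 0 0) - γ) (A.iV (D.s n)) =
            γ (A.iV (D.s N')) - c := by
          show γ (U A v N N' 0 0 (A.iV (D.s n))) - γ (A.iV (D.s n)) = _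
          rw [hSV, D.P_s_gt N n hnN, D.tau_s_gt N n hnN, one_smul, zero_add, ← hc]
        rw [h2] at h1
        have h3 : ‖γ.comp (U A v N N' 0 0) - γ‖ * ‖A.iV (D.s n)‖ ≤ om * 1 := by
          apply mul_le_mul _ ((hiV1 _).trans (D.s_norm n)) (norm_nonneg _) hom.le
          refine (hG.h4 γ hγ).trans ?_
          exact mul_le_of_le_one_right hom.le hγ1
        have h4 := (le_abs_self _).trans (h1.trans h3)
        linarith
      rw [← hc, hζa c]
      -- bound on the second term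
      have hz : z0 * |γ (A.iL (y i))| ≤ z0 :=
        mul_le_of_le_one_right hz0n ((hγL _).trans (hy i))
      have hB : |h (A.iL (v (y i))) - ζ * γ (A.iL (y i))| ≤ |h (A.iL (v (y i)))| + z0 := by
        refine (abs_sub _ _).trans ?_
        rw [abs_mul, hζ]
        linarith
      have hB' := mul_le_mul_of_nonneg_left hB hs.le
      rcases le_or_gt 0 (|a| - z0 * c) with hcase | hcase
      · rw [abs_of_nonneg hcase]
        obtain ⟨j, hj, hj2⟩ := hG.h3 i
        have h1 : |h (A.iL (v (y i)))| ≤ |h (A.iL (y j))| + H * (T + om) := by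
          have e1 : h (A.iL (v (y i))) = h (A.iL (y j)) + h (A.iL (v (y i) - y j)) := by
            rw [map_sub, map_sub]; ring
          rw [e1]
          refine (abs_add_le _ _).trans (add_le_add le_rfl ?_)
          exact (hhL _).trans (mul_le_mul_of_nonneg_left hj2 hH0)
        have h2 := hpair h j N' hj
        rw [← hH, ← ha] at h2
        have h3 := mul_le_mul_of_nonneg_left h1 hs.le
        have h4 := mul_le_mul_of_nonneg_left hc2 hz0n
        have h5 : |a| - z0 * c + sig * |h (A.iL (v (y i))) - ζ * γ (A.iL (y i))| ≤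
            H - z0 * (1 / 2 - om) + sig * (H * (T + om)) + sig * z0 := by
          rw [mul_add] at hB' h3
          linarith
        refine h5.trans ?_
        rw [hz0]
        have h6 : 0 ≤ H * (sig * om * (1 - T / 2) + sig ^ 2 / 2 * (1 - T)) := by
          apply mul_nonneg hH0
          apply add_nonneg
          · exact mul_nonneg (mul_nonneg hs.le hom.le) (by linarith)
          · exact mul_nonneg (by positivity) (by linarith)
        nlinarith
      · rw [abs_of_neg hcase]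
        have h1 : |h (A.iL (v (y i)))| ≤ H * (1 + kap * sig) := by
          refine (hhL _).trans (mul_le_mul_of_nonneg_left ?_ hH0)
          refine (hv _).trans ?_
          have hk : 0 ≤ 1 + kap * sig := by rw [hkap]; positivity
          exact mul_le_of_le_one_right hk (hy i)
        have h3 := mul_le_mul_of_nonneg_left h1 hs.le
        have h4 : z0 * c ≤ z0 * 1 := mul_le_mul_of_nonneg_left hc1 hz0n
        have h5 : -(|a| - z0 * c) + sig * |h (A.iL (v (y i))) - ζ * γ (A.iL (y i))| ≤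
            z0 + sig * (H * (1 + kap * sig)) + sig * z0 := by
          have := abs_nonneg a
          rw [mul_add] at hB'
          linarith
        refine h5.trans ?_
        have h6 : z0 + sig * (H * (1 + kap * sig)) + sig * z0 =
            H * (sig * T / 2 + sig * (1 + T / 16 * sig) + sig * (sig * T / 2)) := by
          rw [hz0, hkap]; ring
        rw [h6]
        apply mul_le_mul_of_nonneg_left _ hH0
        have h7 : sig * T ≤ 1 / 64 * 1 := mul_le_mul hT64 hT1 hT.le (by norm_num)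
        have h8 : T / 16 * sig ≤ 1 := by nlinarith
        have h9 : sig * (1 + T / 16 * sig) ≤ 1 / 64 * 2 :=
          mul_le_mul hT64 (by linarith) (by positivity) (by norm_num)
        have h10 : sig * (sig * T / 2) ≤ 1 / 64 * 1 :=
          mul_le_mul hT64 (by linarith) (by positivity) (by norm_num)
        have h11 : 0 ≤ 3 / 4 * sig * T + 2 * sig * om + sig ^ 2 / 2 := by positivity
        linarith

end Pool.Agent.H652.DL
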