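import Mathlib
import Pool.Agent.H652.DL.Defs

set_option autoImplicit false

namespace Pool.Agent.H652.DL

open Metric



theorem op_le {V L E : Type} [NormedAddCommGroup V] [NormedSpace ℝ V] [NormedAddCommGroup L]
    [NormedSpace ℝ L] [NormedAddCommGroup E] [NormedSpace ℝ E] {D : VS V} {y : ℕ → L} {sig : ℝ}
    (A : ES D y sig E) (hs : 0 < sig) (u : E →L[ℝ] E) (C : ℝ) (hC : 0 ≤ C)
    (h1 : ∀ x, ‖u (A.iV x)‖ ≤ C * ‖x‖) (h2 : ∀ t, ‖u (A.iL t)‖ ≤ C * ‖t‖)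
    (h3 : ∀ i n, i ≤ n → ‖u (A.iV (D.s n)) + sig • u (A.iL (y i))‖ ≤ C ∧
      ‖u (A.iV (D.s n)) - sig • u (A.iL (y i))‖ ≤ C) : ‖u‖ ≤ C := by
  refine ContinuousLinearMap.opNorm_le_bound _ hC fun x => ?_
  obtain ⟨g, hg, hgx⟩ := exists_dual_vector'' ℝ (u x)
  have hb : ∀ (w : E) (r : ℝ), ‖w‖ ≤ r → |g w| ≤ r := by
    intro w r hw
    have h := g.le_opNorm w
    rw [Real.norm_eq_abs] at h
    have h' : ‖g‖ * ‖w‖ ≤ 1 * ‖w‖ := mul_le_mul_of_nonneg_right hg (norm_nonneg _)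
    linarith
  have hf : ‖(g.comp u : StrongDual ℝ E)‖ ≤ C := by
    refine A.dual_norm _ C hC (fun x => hb _ _ (h1 x)) (fun t => hb _ _ (h2 t)) ?_
    intro i n hin
    obtain ⟨k1, k2⟩ := h3 i n hin
    have e1 := hb _ _ k1
    have e2 := hb _ _ k2
    rw [map_add, map_smul, smul_eq_mul] at e1
    rw [map_sub, map_smul, smul_eq_mul] at e2
    show |g (u (A.iV (D.s n)))| + sig * |g (u (A.iL (y i)))| ≤ C
    have e3 : sig * |g (u (A.iL (y i)))| = |sig * g (u (A.iL (y i)))| := by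
      rw [abs_mul, abs_of_pos hs]
    rw [e3]
    rw [abs_le] at e1 e2
    rcases abs_cases (g (u (A.iV (D.s n)))) with ⟨q1, _⟩ | ⟨q1, _⟩ <;>
      rcases abs_cases (sig * g (u (A.iL (y i)))) with ⟨q2, _⟩ | ⟨q2, _⟩ <;>
      rw [q1, q2] <;> linarith [e1.1, e1.2, e2.1, e2.2]
  have h4 := (g.comp u : StrongDual ℝ E).le_opNorm x
  have h5 : (g.comp u : StrongDual ℝ E) x = ‖u x‖ := hgx
  rw [h5, Real.norm_eq_abs, abs_of_nonneg (norm_nonneg _)] at h4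
  exact h4.trans (mul_le_mul_of_nonneg_right hf (norm_nonneg _))

end Pool.Agent.H652.DL
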