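import Mathlib
import Pool.Agent.H652.DL.Defs
import Pool.Agent.H652.DL.Jople

set_option autoImplicit false

namespace Pool.Agent.H652.DL

open Metric




theorem U_norm {V L E : Type} [NormedAddCommGroup V] [NormedSpace ℝ V] [NormedAddCommGroup L]
    [NormedSpace ℝ L] [NormedAddCommGroup E] [NormedSpace ℝ E] {D : VS V} {y : ℕ → L} {sig : ℝ}
    {A : ES D y sig E} {Γ : Submodule ℝ (StrongDual ℝ E)} {kap T om : ℝ} {v : L →L[ℝ] L}
    {N N' : ℕ} (hG : Good A Γ kap T om v N N') (hs : 0 < sig) (hy : ∀ i, ‖y i‖ ≤ 1) (z : E)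
    (th rho C : ℝ) (h0 : 0 ≤ th) (h1 : th ≤ 1) (hz : ‖z‖ ≤ rho)
    (c1 : 1 + th * (1 + rho) ≤ C) (c2 : 1 + kap * sig ≤ C) (c3 : 1 + sig * om ≤ C)
    (c4 : (1 - th) + th * (rho + sig) + sig * (T + om) ≤ C) :
    ‖U A v N N' z th‖ ≤ C := by
  have hrho : 0 ≤ rho := le_trans (norm_nonneg _) hz
  have hC1 : 1 ≤ C := by nlinarith
  have hC0 : 0 ≤ C := by linarith
  have hth' : 0 ≤ 1 - th := by linarith
  have hUV : ∀ x : V, U A v N N' z th (A.iV x) =
      A.iV (D.P N x) + D.tau N x • ((1 - th) • A.iV (D.s N') + th • z) := by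
    intro x
    simp [U, A.pV_iV, A.pL_iV]
  have hUL : ∀ t : L, U A v N N' z th (A.iL t) = A.iL (v t) := by
    intro t
    simp [U, A.pV_iL, A.pL_iL]
  have hiVs : ‖A.iV (D.s N')‖ ≤ 1 := (A.iV_norm _).trans (D.s_norm _)
  refine op_le A hs _ C hC0 ?_ ?_ ?_
  · intro x
    rw [hUV]
    have e : A.iV (D.P N x) + D.tau N x • ((1 - th) • A.iV (D.s N') + th • z) =
        (1 - th) • A.iV (D.P N x + D.tau N x • D.s N') +
          th • (A.iV (D.P N x) + D.tau N x • z) := by
      rw [map_add, map_smul]
      module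
    rw [e]
    have a1 : ‖A.iV (D.P N x + D.tau N x • D.s N')‖ ≤ ‖x‖ :=
      (A.iV_norm _).trans (D.S_norm N N' hG.le x)
    have a2 : ‖A.iV (D.P N x)‖ ≤ 2 * ‖x‖ := (A.iV_norm _).trans (D.P_norm N x)
    have a3 : ‖D.tau N x‖ ≤ ‖x‖ := by
      have := (D.tau N).le_opNorm x
      have h := D.tau_norm N
      nlinarith [norm_nonneg x]
    have a4 : ‖D.tau N x • z‖ ≤ ‖x‖ * rho := by
      rw [norm_smul]
      exact mul_le_mul a3 hz (norm_nonneg _) (norm_nonneg _)
    calc ‖(1 - th) • A.iV (D.P N x + D.tau N x • D.s N') +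
          th • (A.iV (D.P N x) + D.tau N x • z)‖
        ≤ ‖(1 - th) • A.iV (D.P N x + D.tau N x • D.s N')‖ +
          ‖th • (A.iV (D.P N x) + D.tau N x • z)‖ := norm_add_le _ _
      _ = (1 - th) * ‖A.iV (D.P N x + D.tau N x • D.s N')‖ +
          th * ‖A.iV (D.P N x) + D.tau N x • z‖ := by
          rw [norm_smul, norm_smul, Real.norm_of_nonneg hth', Real.norm_of_nonneg h0]
      _ ≤ (1 - th) * ‖x‖ + th * (2 * ‖x‖ + ‖x‖ * rho) := by
          gcongr
          exact (norm_add_le _ _).trans (by linarith)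
      _ = (1 + th * (1 + rho)) * ‖x‖ := by ring
      _ ≤ C * ‖x‖ := mul_le_mul_of_nonneg_right c1 (norm_nonneg _)
  · intro t
    rw [hUL]
    calc ‖A.iL (v t)‖ ≤ ‖v t‖ := A.iL_norm _
      _ ≤ ‖v‖ * ‖t‖ := v.le_opNorm t
      _ ≤ C * ‖t‖ := mul_le_mul_of_nonneg_right (hG.h1.trans c2) (norm_nonneg _)
  · intro i n hin
    rw [hUV, hUL]
    by_cases hn : n ≤ N
    · rw [D.P_s_le N n hn, D.tau_s_le N n hn, zero_smul, add_zero]
      have b1 : ‖sig • A.iL (v (y i) - y i)‖ ≤ sig * om := by
        rw [norm_smul, Real.norm_of_nonneg hs.le]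
        exact mul_le_mul_of_nonneg_left ((A.iL_norm _).trans (hG.h2 i (hin.trans hn))) hs.le
      have b2 := A.gen_norm i n hin
      constructor
      · have e : A.iV (D.s n) + sig • A.iL (v (y i)) =
            (A.iV (D.s n) + sig • A.iL (y i)) + sig • A.iL (v (y i) - y i) := by
          rw [map_sub]; module
        rw [e]
        exact (norm_add_le _ _).trans (by linarith [b2.1])
      · have e : A.iV (D.s n) - sig • A.iL (v (y i)) =
            (A.iV (D.s n) - sig • A.iL (y i)) - sig • A.iL (v (y i) - y i) := by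
          rw [map_sub]; module
        rw [e]
        exact (norm_sub_le _ _).trans (by linarith [b2.2])
    · have hn' : N < n := not_le.1 hn
      rw [D.P_s_gt N n hn', D.tau_s_gt N n hn', one_smul, map_zero, zero_add]
      obtain ⟨j, hj, hj2⟩ := hG.h3 i
      have b2 := A.gen_norm j N' hj
      have b1 : ‖sig • A.iL (v (y i) - y j)‖ ≤ sig * (T + om) := by
        rw [norm_smul, Real.norm_of_nonneg hs.le]
        exact mul_le_mul_of_nonneg_left ((A.iL_norm _).trans hj2) hs.le
      have b3 : ‖sig • A.iL (y j)‖ ≤ sig := by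
        rw [norm_smul, Real.norm_of_nonneg hs.le]
        have := (A.iL_norm (y j)).trans (hy j)
        nlinarith
      constructor
      · have e : (1 - th) • A.iV (D.s N') + th • z + sig • A.iL (v (y i)) =
            ((1 - th) • (A.iV (D.s N') + sig • A.iL (y j)) + th • (z + sig • A.iL (y j))) +
              sig • A.iL (v (y i) - y j) := by
          rw [map_sub]; module
        rw [e]
        calc _ ≤ ‖(1 - th) • (A.iV (D.s N') + sig • A.iL (y j))‖ +
              ‖th • (z + sig • A.iL (y j))‖ + ‖sig • A.iL (v (y i) - y j)‖ :=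
              norm_add₃_le
          _ ≤ (1 - th) * 1 + th * (rho + sig) + sig * (T + om) := by
              rw [norm_smul (1 - th), norm_smul th, Real.norm_of_nonneg hth',
                Real.norm_of_nonneg h0]
              gcongr
              · exact b2.1
              · exact (norm_add_le _ _).trans (by linarith)
          _ ≤ C := by linarith
      · have e : (1 - th) • A.iV (D.s N') + th • z - sig • A.iL (v (y i)) =
            ((1 - th) • (A.iV (D.s N') - sig • A.iL (y j)) + th • (z - sig • A.iL (y j))) -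
              sig • A.iL (v (y i) - y j) := by
          rw [map_sub]; module
        rw [e]
        calc _ ≤ ‖(1 - th) • (A.iV (D.s N') - sig • A.iL (y j)) +
              th • (z - sig • A.iL (y j))‖ + ‖sig • A.iL (v (y i) - y j)‖ :=
              norm_sub_le _ _
          _ ≤ (‖(1 - th) • (A.iV (D.s N') - sig • A.iL (y j))‖ +
              ‖th • (z - sig • A.iL (y j))‖) + ‖sig • A.iL (v (y i) - y j)‖ := by
              gcongr
              exact norm_add_le _ _
          _ ≤ ((1 - th) * 1 + th * (rho + sig)) + sig * (T + om) := by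
              rw [norm_smul (1 - th), norm_smul th, Real.norm_of_nonneg hth',
                Real.norm_of_nonneg h0]
              gcongr
              · exact b2.2
              · exact (norm_sub_le _ _).trans (by linarith)
          _ ≤ C := by linarith

end Pool.Agent.H652.DL
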