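import Mathlib
import Pool.Agent.H652.DL.Defs
import Pool.Agent.H652.DL.Jatt
import Pool.Agent.H652.DL.JnumB
import Pool.Agent.H652.DL.Jsbbound
import Pool.Agent.H652.DL.Jsbdist
import Pool.Agent.H652.DL.Junorm

set_option autoImplicit false

namespace Pool.Agent.H652.DL

open Metric








theorem case_big {V L E : Type} [NormedAddCommGroup V] [NormedSpace ℝ V]
    [NormedAddCommGroup L] [NormedSpace ℝ L] [NormedAddCommGroup E] [NormedSpace ℝ E] {D : VS V}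
    {y : ℕ → L} {sig : ℝ} {A : ES D y sig E} {Γ : Submodule ℝ (StrongDual ℝ E)}
    [FiniteDimensional ℝ Γ] {kap T om : ℝ} {v : L →L[ℝ] L}
    {N N' : ℕ} (hG : Good A Γ kap T om v N N') (hs : 0 < sig) (hs1 : sig ≤ T / 64)
    (hT : 0 < T) (hT1 : T ≤ 1) (hkap : kap = T / 16) (hom : 0 < om)
    (hy : ∀ i, ‖y i‖ ≤ 1) (β : ℝ) (hβ1 : 1 / 16 ≤ β)
    (hom1 : om * (1 + β) ≤ sig * T ^ 2 / 10 ^ 5) (γ : StrongDual ℝ E) (hγ : γ ∈ Γ)
    (hγ1 : ‖γ‖ ≤ 1) (hγ2 : 1 / 2 ≤ γ (A.iV (D.s N'))) (f : StrongDual ℝ E) :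
    ‖f.comp (U A v N N' 0 0)‖ +
        4 * β * infDist (f.comp (U A v N N' 0 0)) (Γ : Set (StrongDual ℝ E)) ≤
      (1 + sig * (T - T ^ 2 / 256)) *
        (‖f‖ + 4 * β * infDist f (Γ : Set (StrongDual ℝ E))) := by
  obtain ⟨γ0, hγ0, hd1, hd2⟩ := att Γ f
  have hγ0n : ‖γ0‖ ≤ 2 * ‖f‖ := by
    have : γ0 = f - (f - γ0) := by abel
    calc ‖γ0‖ = ‖f - (f - γ0)‖ := by rw [← this]
      _ ≤ ‖f‖ + ‖f - γ0‖ := norm_sub_le _ _
      _ ≤ 2 * ‖f‖ := by linarith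
  have hom2 : om ≤ T / 64 := by
    have h1 : om ≤ om * (1 + β) := by nlinarith
    have h2 : sig * T ^ 2 / 10 ^ 5 ≤ T / 64 := by
      have : T ^ 2 ≤ 1 := by nlinarith
      have h3 : sig * T ^ 2 ≤ T / 64 := by nlinarith
      have h4 : 0 ≤ sig * T ^ 2 := by positivity
      linarith
    linarith
  refine num_B sig T om β ‖f‖ (infDist f (Γ : Set (StrongDual ℝ E))) _ _ hs hs1 hT hT1 hom hom1
    hβ1 infDist_nonneg (by rw [← hd1]; exact hd2) ?_ ?_ ?_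
  · have hU : ‖U A v N N' 0 0‖ ≤ 1 + sig * (T + om) := by
      refine U_norm hG hs hy 0 0 0 _ le_rfl zero_le_one (by simp) ?_ ?_ ?_ ?_
      · have : 0 < sig * (T + om) := by positivity
        linarith
      · rw [hkap]; nlinarith [mul_pos hs hT, mul_pos hs hom]
      · nlinarith [mul_pos hs hT]
      · linarith
    calc ‖f.comp (U A v N N' 0 0)‖ ≤ ‖f‖ * ‖U A v N N' 0 0‖ := f.opNorm_comp_le _
      _ ≤ ‖f‖ * (1 + sig * (T + om)) := by gcongr
      _ = (1 + sig * (T + om)) * ‖f‖ := by ring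
  · intro M hM1 hM2 hM3
    refine SB_bound hG hs hy f γ0 hγ0 hd2 M ?_ ?_ hM3
    · rw [hkap]; exact hM1
    · rw [hkap, hd1]; exact hM2
  · have h1 := SB_dist hG hs hs1 hT hT1 hkap hom hom2 hy γ hγ hγ1 hγ2 (f - γ0)
    have h2 : infDist (γ0 + (f - γ0).comp (U A v N N' 0 0)) (Γ : Set (StrongDual ℝ E)) ≤
        infDist ((f - γ0).comp (U A v N N' 0 0)) (Γ : Set (StrongDual ℝ E)) := by
      rw [le_infDist ⟨0, Γ.zero_mem⟩]
      intro g hg
      have := infDist_le_dist_of_mem (x := γ0 + (f - γ0).comp (U A v N N' 0 0))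
        (s := (Γ : Set (StrongDual ℝ E))) (Γ.add_mem hγ0 hg)
      rwa [dist_add_left] at this
    have h3 := infDist_le_infDist_add_dist (s := (Γ : Set (StrongDual ℝ E)))
      (x := f.comp (U A v N N' 0 0)) (y := γ0 + (f - γ0).comp (U A v N N' 0 0))
    have h4 : dist (f.comp (U A v N N' 0 0)) (γ0 + (f - γ0).comp (U A v N N' 0 0)) ≤
        2 * om * ‖f‖ := by
      have e : f.comp (U A v N N' 0 0) - (γ0 + (f - γ0).comp (U A v N N' 0 0)) =
          γ0.comp (U A v N N' 0 0) - γ0 := by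
        rw [ContinuousLinearMap.sub_comp]; abel
      rw [dist_eq_norm, e]
      calc ‖γ0.comp (U A v N N' 0 0) - γ0‖ ≤ om * ‖γ0‖ := hG.h4 γ0 hγ0
        _ ≤ om * (2 * ‖f‖) := by gcongr
        _ = 2 * om * ‖f‖ := by ring
    rw [hd1] at h1
    linarith

end Pool.Agent.H652.DL
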