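import Mathlib
import Pool.Agent.H652.DL.Defs
import Pool.Agent.H652.DL.Jatt
import Pool.Agent.H652.DL.Junorm

set_option autoImplicit false

namespace Pool.Agent.H652.DL

open Metric





theorem case_helly {V L E : Type} [NormedAddCommGroup V] [NormedSpace ℝ V]
    [NormedAddCommGroup L] [NormedSpace ℝ L] [NormedAddCommGroup E] [NormedSpace ℝ E] {D : VS V}
    {y : ℕ → L} {sig : ℝ} {A : ES D y sig E} {Γ : Submodule ℝ (StrongDual ℝ E)}
    [FiniteDimensional ℝ Γ] {kap T om : ℝ} {v : L →L[ℝ] L}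
    {N N' : ℕ} (hG : Good A Γ kap T om v N N') (hs : 0 < sig) (hs1 : sig ≤ T / 64)
    (hT : 0 < T) (hT1 : T ≤ 1) (hkap : kap = T / 16) (hom : 0 < om)
    (hy : ∀ i, ‖y i‖ ≤ 1) (β : ℝ) (hβ : 0 < β)
    (hom1 : om * (1 + β) ≤ sig * T ^ 2 / 10 ^ 5) (z : E) (hz : ‖z‖ ≤ 3 / 4)
    (hzΓ : ∀ γ ∈ Γ, γ z = γ (A.iV (D.s N'))) (f : StrongDual ℝ E) :
    ‖f.comp (U A v N N' z (sig * T / 2))‖ +
        4 * β * infDist (f.comp (U A v N N' z (sig * T / 2))) (Γ : Set (StrongDual ℝ E)) ≤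
      (1 + sig * (T - T ^ 2 / 256)) *
        (‖f‖ + 4 * β * infDist f (Γ : Set (StrongDual ℝ E))) := by
  obtain ⟨γ0, hγ, hd, hdQ⟩ := att Γ f
  have hsle : sig ≤ 1 / 64 := by linarith
  have hom2 : om ≤ sig * T ^ 2 / 10 ^ 5 := by nlinarith
  have hT2 : T ^ 2 ≤ T := by nlinarith
  have hT20 : 0 < T ^ 2 := by positivity
  have hsT : 0 < sig * T := by positivity
  have hsT2 : sig * T ≤ 1 / 64 := by nlinarith
  obtain ⟨C, hCdef⟩ : ∃ C, C = 1 + 7 / 8 * (sig * T) + sig ^ 2 * T / 2 + sig * om := ⟨_, rfl⟩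
  have hp1 : 0 ≤ sig ^ 2 * T / 2 := by positivity
  have hp2 : 0 ≤ sig * om := by positivity
  have hC0 : 0 ≤ C := by rw [hCdef]; positivity
  have hU : ‖U A v N N' z (sig * T / 2)‖ ≤ C := by
    refine U_norm hG hs hy z (sig * T / 2) (3 / 4) C (by positivity) (by linarith) hz ?_ ?_ ?_ ?_
    · rw [hCdef]; linarith
    · rw [hCdef, hkap]; linarith
    · rw [hCdef]; linarith
    · rw [hCdef]
      have : (1 - sig * T / 2) + sig * T / 2 * (3 / 4 + sig) + sig * (T + om) =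
          1 + 7 / 8 * (sig * T) + sig ^ 2 * T / 2 + sig * om := by ring
      rw [this]
  have h1 : ‖f.comp (U A v N N' z (sig * T / 2))‖ ≤ C * ‖f‖ := by
    calc ‖f.comp (U A v N N' z (sig * T / 2))‖ ≤ ‖f‖ * ‖U A v N N' z (sig * T / 2)‖ :=
          ContinuousLinearMap.opNorm_comp_le _ _
      _ ≤ ‖f‖ * C := mul_le_mul_of_nonneg_left hU (norm_nonneg _)
      _ = C * ‖f‖ := mul_comm _ _
  have hγ0 : ‖γ0‖ ≤ 2 * ‖f‖ := by
    have : γ0 = f - (f - γ0) := by abel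
    calc ‖γ0‖ = ‖f - (f - γ0)‖ := by rw [← this]
      _ ≤ ‖f‖ + ‖f - γ0‖ := norm_sub_le _ _
      _ ≤ 2 * ‖f‖ := by linarith
  have hcomp : γ0.comp (U A v N N' z (sig * T / 2)) = γ0.comp (U A v N N' 0 0) := by
    ext x
    have hz' := hzΓ γ0 hγ
    have e1 : γ0.comp (U A v N N' z (sig * T / 2)) x =
        γ0 (A.iV (D.P N (A.pV x)) + A.iL (v (A.pL x)) +
          (D.tau N (A.pV x)) • ((1 - sig * T / 2) • A.iV (D.s N') + (sig * T / 2) • z)) := rfl
    have e2 : γ0.comp (U A v N N' 0 0) x =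
        γ0 (A.iV (D.P N (A.pV x)) + A.iL (v (A.pL x)) +
          (D.tau N (A.pV x)) • ((1 - (0:ℝ)) • A.iV (D.s N') + (0:ℝ) • (0 : E))) := rfl
    rw [e1, e2]
    simp only [map_add, map_smul, hz', smul_eq_mul, map_zero]
    ring
  have h2 : infDist (f.comp (U A v N N' z (sig * T / 2))) (Γ : Set (StrongDual ℝ E)) ≤
      C * infDist f (Γ : Set (StrongDual ℝ E)) + 2 * om * ‖f‖ := by
    calc infDist (f.comp (U A v N N' z (sig * T / 2))) (Γ : Set (StrongDual ℝ E))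
        ≤ dist (f.comp (U A v N N' z (sig * T / 2))) γ0 := infDist_le_dist_of_mem hγ
      _ = ‖f.comp (U A v N N' z (sig * T / 2)) - γ0‖ := dist_eq_norm _ _
      _ = ‖(f - γ0).comp (U A v N N' z (sig * T / 2)) + (γ0.comp (U A v N N' 0 0) - γ0)‖ := by
          rw [← hcomp]
          congr 1
          rw [ContinuousLinearMap.sub_comp]
          abel
      _ ≤ ‖(f - γ0).comp (U A v N N' z (sig * T / 2))‖ + ‖γ0.comp (U A v N N' 0 0) - γ0‖ :=
          norm_add_le _ _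
      _ ≤ ‖f - γ0‖ * C + om * (2 * ‖f‖) := by
          refine add_le_add ?_ ?_
          · exact (ContinuousLinearMap.opNorm_comp_le _ _).trans
              (mul_le_mul_of_nonneg_left hU (norm_nonneg _))
          · exact (hG.h4 γ0 hγ).trans (mul_le_mul_of_nonneg_left hγ0 hom.le)
      _ = C * infDist f (Γ : Set (StrongDual ℝ E)) + 2 * om * ‖f‖ := by rw [hd]; ring
  have hQ0 : 0 ≤ ‖f‖ := norm_nonneg _
  have hd0 : 0 ≤ infDist f (Γ : Set (StrongDual ℝ E)) := infDist_nonneg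
  have hCle : C + 8 * β * om ≤ 1 + sig * (T - T ^ 2 / 256) := by
    have a1 : sig ^ 2 * T / 2 ≤ sig * T ^ 2 / 128 := by nlinarith
    have a2 : sig * om ≤ sig * T ^ 2 / 10 ^ 5 := by nlinarith
    have a3 : β * om ≤ sig * T ^ 2 / 10 ^ 5 := by nlinarith
    have a4 : sig * T ^ 2 ≤ sig * T := mul_le_mul_of_nonneg_left hT2 hs.le
    rw [hCdef]
    nlinarith
  have h3 : 0 ≤ ‖f‖ + 4 * β * infDist f (Γ : Set (StrongDual ℝ E)) := by positivity
  calc ‖f.comp (U A v N N' z (sig * T / 2))‖ +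
        4 * β * infDist (f.comp (U A v N N' z (sig * T / 2))) (Γ : Set (StrongDual ℝ E))
      ≤ C * ‖f‖ + 4 * β * (C * infDist f (Γ : Set (StrongDual ℝ E)) + 2 * om * ‖f‖) :=
        add_le_add h1 (mul_le_mul_of_nonneg_left h2 (by positivity))
    _ = C * (‖f‖ + 4 * β * infDist f (Γ : Set (StrongDual ℝ E))) + 8 * β * om * ‖f‖ := by ring
    _ ≤ C * (‖f‖ + 4 * β * infDist f (Γ : Set (StrongDual ℝ E))) +
        8 * β * om * (‖f‖ + 4 * β * infDist f (Γ : Set (StrongDual ℝ E))) := by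
        have : ‖f‖ ≤ ‖f‖ + 4 * β * infDist f (Γ : Set (StrongDual ℝ E)) := by
          have : 0 ≤ 4 * β * infDist f (Γ : Set (StrongDual ℝ E)) := by positivity
          linarith
        have := mul_le_mul_of_nonneg_left this (by positivity : (0:ℝ) ≤ 8 * β * om)
        linarith
    _ = (C + 8 * β * om) * (‖f‖ + 4 * β * infDist f (Γ : Set (StrongDual ℝ E))) := by ring
    _ ≤ _ := mul_le_mul_of_nonneg_right hCle h3

end Pool.Agent.H652.DL
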