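import Mathlib
import Pool.Agent.H652.DL.Defs
import Pool.Agent.H652.DL.Jatt
import Pool.Agent.H652.DL.Junorm

set_option autoImplicit false

namespace Pool.Agent.H652.DL

open Metric




theorem cs_diff {V L E : Type} [NormedAddCommGroup V] [NormedSpace ℝ V]
    [NormedAddCommGroup L] [NormedSpace ℝ L] [NormedAddCommGroup E] [NormedSpace ℝ E] {D : VS V}
    {y : ℕ → L} {sig : ℝ} (A : ES D y sig E) (v : L →L[ℝ] L) (N N' : ℕ) (th : ℝ) (h0 : 0 ≤ th) :
    ‖U A v N N' 0 th - U A v N N' 0 0‖ ≤ th := by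
  refine ContinuousLinearMap.opNorm_le_bound _ h0 fun x => ?_
  have e : (U A v N N' 0 th - U A v N N' 0 0) x = (-(th * D.tau N (A.pV x))) • A.iV (D.s N') := by
    simp only [U, ContinuousLinearMap.sub_apply, ContinuousLinearMap.add_apply,
      ContinuousLinearMap.smulRight_apply, ContinuousLinearMap.comp_apply, smul_zero, add_zero,
      sub_zero, one_smul, zero_smul]
    module
  rw [e, norm_smul, norm_neg, norm_mul, Real.norm_of_nonneg h0]
  have h1 : ‖D.tau N (A.pV x)‖ ≤ ‖x‖ := by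
    refine ((D.tau N).le_opNorm _).trans ?_
    calc ‖D.tau N‖ * ‖A.pV x‖ ≤ 1 * ‖x‖ :=
          mul_le_mul (D.tau_norm N) (A.pV_norm x) (norm_nonneg _) zero_le_one
      _ = ‖x‖ := one_mul _
  have h2 : ‖A.iV (D.s N')‖ ≤ 1 := (A.iV_norm _).trans (D.s_norm N')
  calc th * ‖D.tau N (A.pV x)‖ * ‖A.iV (D.s N')‖ ≤ th * ‖x‖ * 1 :=
        mul_le_mul (mul_le_mul_of_nonneg_left h1 h0) h2 (norm_nonneg _) (by positivity)
    _ = th * ‖x‖ := mul_one _



theorem case_small {V L E : Type} [NormedAddCommGroup V] [NormedSpace ℝ V]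
    [NormedAddCommGroup L] [NormedSpace ℝ L] [NormedAddCommGroup E] [NormedSpace ℝ E] {D : VS V}
    {y : ℕ → L} {sig : ℝ} {A : ES D y sig E} {Γ : Submodule ℝ (StrongDual ℝ E)}
    [FiniteDimensional ℝ Γ] {kap T om : ℝ} {v : L →L[ℝ] L}
    {N N' : ℕ} (hG : Good A Γ kap T om v N N') (hs : 0 < sig) (hs1 : sig ≤ T / 64)
    (hT : 0 < T) (hT1 : T ≤ 1) (hkap : kap = T / 16) (hom : 0 < om)
    (hy : ∀ i, ‖y i‖ ≤ 1) (β : ℝ) (hβ : 0 < β) (hβ1 : β ≤ 1 / 16)
    (hom1 : om * (1 + β) ≤ sig * T ^ 2 / 10 ^ 5) (f : StrongDual ℝ E) :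
    ‖f.comp (U A v N N' 0 (sig * T / 2))‖ +
        4 * β * infDist (f.comp (U A v N N' 0 (sig * T / 2))) (Γ : Set (StrongDual ℝ E)) ≤
      (1 + sig * (T - T ^ 2 / 256)) *
        (‖f‖ + 4 * β * infDist f (Γ : Set (StrongDual ℝ E))) := by
  obtain ⟨γ, hγ, hd, hdQ⟩ := att Γ f
  have hT2 : T ^ 2 ≤ T := by nlinarith
  have hsT : 0 < sig * T := mul_pos hs hT
  have hsig1 : sig ≤ 1 / 64 := by linarith
  have hth0 : 0 ≤ sig * T / 2 := by positivity
  have hom2 : om ≤ sig * T ^ 2 / 10 ^ 5 := by nlinarith [mul_pos hom hβ]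
  have hsT2 : sig * T ^ 2 ≤ sig * T := mul_le_mul_of_nonneg_left hT2 hs.le
  have hom3 : om ≤ sig * T / 10 ^ 5 := by linarith
  have hssT : sig ^ 2 * T ≤ sig * T / 64 := by
    have : sig * (sig * T) ≤ (1 / 64) * (sig * T) := mul_le_mul_of_nonneg_right hsig1 hsT.le
    nlinarith
  have hso : sig * om ≤ om / 64 := by nlinarith
  have hso0 : 0 ≤ sig * om := by positivity
  have hss0 : 0 ≤ sig ^ 2 * T := by positivity
  have hth1 : sig * T / 2 ≤ 1 := by nlinarith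
  obtain ⟨C, hC⟩ : ∃ C : ℝ, C = 1 + sig * T / 2 + sig ^ 2 * T / 2 + sig * om := ⟨_, rfl⟩
  have hU : ‖U A v N N' 0 (sig * T / 2)‖ ≤ C := by
    refine U_norm hG hs hy 0 (sig * T / 2) 0 C hth0 hth1 (by simp) ?_ ?_ ?_ ?_
    · rw [hC]; nlinarith
    · rw [hC, hkap]; nlinarith
    · rw [hC]; nlinarith
    · rw [hC]
      apply le_of_eq
      ring
  have hC0 : 0 ≤ C := (norm_nonneg _).trans hU
  have hγQ : ‖γ‖ ≤ 2 * ‖f‖ := by
    have h1 : ‖γ‖ ≤ ‖f‖ + ‖f - γ‖ := by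
      calc ‖γ‖ = ‖f - (f - γ)‖ := by rw [sub_sub_cancel]
        _ ≤ ‖f‖ + ‖f - γ‖ := norm_sub_le _ _
    linarith
  have hfU : ‖f.comp (U A v N N' 0 (sig * T / 2))‖ ≤ C * ‖f‖ := by
    refine (ContinuousLinearMap.opNorm_comp_le _ _).trans ?_
    rw [mul_comm]
    exact mul_le_mul_of_nonneg_right hU (norm_nonneg _)
  have hdist : infDist (f.comp (U A v N N' 0 (sig * T / 2))) (Γ : Set (StrongDual ℝ E)) ≤
      C * infDist f (Γ : Set (StrongDual ℝ E)) + om * (2 * ‖f‖) + (2 * ‖f‖) * (sig * T / 2) := by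
    refine (infDist_le_dist_of_mem hγ).trans ?_
    rw [dist_eq_norm]
    have e : f.comp (U A v N N' 0 (sig * T / 2)) - γ =
        (f - γ).comp (U A v N N' 0 (sig * T / 2)) + (γ.comp (U A v N N' 0 0) - γ) +
          γ.comp (U A v N N' 0 (sig * T / 2) - U A v N N' 0 0) := by
      ext x
      simp only [ContinuousLinearMap.sub_apply, ContinuousLinearMap.add_apply,
        ContinuousLinearMap.comp_apply, map_sub]
      ring
    rw [e]
    refine (norm_add_le _ _).trans (add_le_add ((norm_add_le _ _).trans (add_le_add ?_ ?_)) ?_)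
    · refine (ContinuousLinearMap.opNorm_comp_le _ _).trans ?_
      rw [hd, mul_comm]
      exact mul_le_mul_of_nonneg_right hU infDist_nonneg
    · exact (hG.h4 γ hγ).trans (mul_le_mul_of_nonneg_left hγQ hom.le)
    · refine (ContinuousLinearMap.opNorm_comp_le _ _).trans ?_
      exact mul_le_mul hγQ (cs_diff A v N N' _ hth0) (norm_nonneg _) (by positivity)
  have hd0 : 0 ≤ infDist f (Γ : Set (StrongDual ℝ E)) := infDist_nonneg
  have hQ0 : 0 ≤ ‖f‖ := norm_nonneg _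
  generalize infDist f (Γ : Set (StrongDual ℝ E)) = d at hdist hd0 ⊢
  generalize ‖f‖ = Q at hfU hdist hQ0 ⊢
  have hW : C + 8 * β * (om + sig * T / 2) ≤ 1 + sig * (T - T ^ 2 / 256) := by
    have h1 : 8 * β * (om + sig * T / 2) ≤ (1 / 2) * (om + sig * T / 2) :=
      mul_le_mul_of_nonneg_right (by linarith) (by positivity)
    rw [hC]
    nlinarith
  have hX : 0 ≤ Q + 4 * β * d := by positivity
  have h5 : 4 * β * infDist (f.comp (U A v N N' 0 (sig * T / 2))) (Γ : Set (StrongDual ℝ E)) ≤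
      4 * β * (C * d + om * (2 * Q) + (2 * Q) * (sig * T / 2)) :=
    mul_le_mul_of_nonneg_left hdist (by positivity)
  have h6 : (C + 8 * β * (om + sig * T / 2)) * (Q + 4 * β * d) ≤
      (1 + sig * (T - T ^ 2 / 256)) * (Q + 4 * β * d) := mul_le_mul_of_nonneg_right hW hX
  have h7 : 0 ≤ 8 * β * (om + sig * T / 2) * (4 * β * d) := by positivity
  have h8 : C * Q + 4 * β * (C * d + om * (2 * Q) + (2 * Q) * (sig * T / 2)) =
      (C + 8 * β * (om + sig * T / 2)) * (Q + 4 * β * d) -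
        8 * β * (om + sig * T / 2) * (4 * β * d) := by ring
  linarith

end Pool.Agent.H652.DL
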