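import Mathlib
import Pool.Agent.H652.DL.Defs

set_option autoImplicit false

namespace Pool.Agent.H652.DL

open Metric



theorem dense_seq (B : Set (lp (fun _ : ℕ => ℝ) 1)) (h0 : 0 ∈ B) :
    ∃ y : ℕ → lp (fun _ : ℕ => ℝ) 1, (∀ i, y i ∈ B) ∧
      ∀ b ∈ B, ∀ δ : ℝ, 0 < δ → ∃ i, ‖b - y i‖ ≤ δ := by
  have hsep : TopologicalSpace.IsSeparable (Set.univ : Set (lp (fun _ : ℕ => ℝ) 1)) := by
    have h1 : TopologicalSpace.IsSeparable
        (Set.range (fun n : ℕ => (lp.single 1 n (1:ℝ) : lp (fun _ : ℕ => ℝ) 1))) :=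
      (Set.countable_range _).isSeparable
    have h2 : TopologicalSpace.IsSeparable
        (closure ((Submodule.span ℝ (Set.range
          (fun n : ℕ => (lp.single 1 n (1:ℝ) : lp (fun _ : ℕ => ℝ) 1))) :
            Submodule ℝ (lp (fun _ : ℕ => ℝ) 1)) : Set (lp (fun _ : ℕ => ℝ) 1))) :=
      (h1.span (R := ℝ)).closure
    refine h2.mono ?_
    intro x _
    have hs := lp.hasSum_single (p := 1) (by simp) x
    refine mem_closure_of_tendsto hs (Filter.Eventually.of_forall ?_)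
    intro s
    refine Submodule.sum_mem _ ?_
    intro i _
    have : (lp.single 1 i (x i) : lp (fun _ : ℕ => ℝ) 1) = (x i) • lp.single 1 i (1:ℝ) := by
      rw [← lp.single_smul]; simp
    rw [this]
    exact Submodule.smul_mem _ _ (Submodule.subset_span ⟨i, rfl⟩)
  have hB : TopologicalSpace.IsSeparable B := hsep.mono (Set.subset_univ _)
  haveI : TopologicalSpace.SeparableSpace B := hB.separableSpace
  haveI : Nonempty B := ⟨⟨0, h0⟩⟩
  refine ⟨fun i => (TopologicalSpace.denseSeq B i : lp (fun _ : ℕ => ℝ) 1), fun i => (TopologicalSpace.denseSeq B i).2, ?_⟩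
  intro b hb δ hδ
  obtain ⟨i, hi⟩ := (TopologicalSpace.denseRange_denseSeq B).exists_dist_lt ⟨b, hb⟩ hδ
  refine ⟨i, ?_⟩
  have := hi.le
  rwa [Subtype.dist_eq, dist_eq_norm] at this

end Pool.Agent.H652.DL
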