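import Mathlib
import Pool.Agent.H652.DL.Defs

set_option autoImplicit false

namespace Pool.Agent.H652.DL

open Metric


/-- the polar set -/
def Pol {V L : Type} [NormedAddCommGroup V] [NormedSpace ℝ V]
    [NormedAddCommGroup L] [NormedSpace ℝ L] (D : VS V) (y : ℕ → L) (sig : ℝ) :
    Set (StrongDual ℝ (V × L)) :=
  {f | (∀ x, |f (x, 0)| ≤ ‖x‖) ∧ (∀ t, |f (0, t)| ≤ ‖t‖) ∧
    ∀ i n, i ≤ n → |f (D.s n, 0)| + sig * |f (0, y i)| ≤ 1}

lemma Pol_split {V L : Type} [NormedAddCommGroup V] [NormedSpace ℝ V]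
    [NormedAddCommGroup L] [NormedSpace ℝ L] (f : StrongDual ℝ (V × L)) (z : V × L) :
    f z = f (z.1, 0) + f (0, z.2) := by
  rw [← map_add]; congr 1; ext <;> simp

lemma Pol_bdd {V L : Type} [NormedAddCommGroup V] [NormedSpace ℝ V]
    [NormedAddCommGroup L] [NormedSpace ℝ L] (D : VS V) (y : ℕ → L) (sig : ℝ) (z : V × L) :
    BddAbove (Set.range (fun f : Pol D y sig => |f.1 z|)) := by
  refine ⟨‖z.1‖ + ‖z.2‖, ?_⟩
  rintro _ ⟨f, rfl⟩
  simp only
  rw [Pol_split f.1 z]
  exact (abs_add_le _ _).trans (add_le_add (f.2.1 _) (f.2.2.1 _))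

instance {V L : Type} [NormedAddCommGroup V] [NormedSpace ℝ V]
    [NormedAddCommGroup L] [NormedSpace ℝ L] (D : VS V) (y : ℕ → L) (sig : ℝ) :
    Nonempty (Pol D y sig) := ⟨⟨0, by simp [Pol]⟩⟩


theorem exists_seminorm {V L : Type} [NormedAddCommGroup V] [NormedSpace ℝ V]
    [NormedAddCommGroup L] [NormedSpace ℝ L] (D : VS V) (y : ℕ → L) (hy : ∀ i, ‖y i‖ ≤ 1)
    (sig : ℝ) (hs : 0 < sig) (hs1 : sig ≤ 1) :
    ∃ N : Seminorm ℝ (V × L), (∀ z, ‖z.1‖ ≤ N z ∧ ‖z.2‖ ≤ N z) ∧
      (∀ x, N (x, 0) ≤ ‖x‖) ∧ (∀ t, N (0, t) ≤ ‖t‖) ∧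
      (∀ i n, i ≤ n → N (D.s n, sig • y i) ≤ 1 ∧ N (D.s n, -(sig • y i)) ≤ 1) ∧
      ∀ (f : StrongDual ℝ (V × L)) (C : ℝ), 0 ≤ C → (∀ x, |f (x, 0)| ≤ C * ‖x‖) →
        (∀ t, |f (0, t)| ≤ C * ‖t‖) →
        (∀ i n, i ≤ n → |f (D.s n, 0)| + sig * |f (0, y i)| ≤ C) → ∀ z, |f z| ≤ C * N z := by
  let N : Seminorm ℝ (V × L) := Seminorm.of (fun z => ⨆ f : Pol D y sig, |f.1 z|)
    (by
      intro a b
      refine ciSup_le fun f => ?_
      rw [map_add]
      refine (abs_add_le _ _).trans (add_le_add ?_ ?_)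
      · exact le_ciSup (Pol_bdd D y sig a) f
      · exact le_ciSup (Pol_bdd D y sig b) f)
    (by
      intro a b
      rw [Real.mul_iSup_of_nonneg (norm_nonneg a)]
      congr 1; ext f
      rw [map_smul, smul_eq_mul, abs_mul]; rfl)
  have hN : ∀ z, N z = ⨆ f : Pol D y sig, |f.1 z| := fun z => rfl
  have hle : ∀ (f : Pol D y sig) z, |f.1 z| ≤ N z := fun f z => le_ciSup (Pol_bdd D y sig z) f
  have hge : ∀ z r, (∀ f : Pol D y sig, |f.1 z| ≤ r) → N z ≤ r := fun z r h => ciSup_le h
  refine ⟨N, ?_, ?_, ?_, ?_, ?_⟩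
  · intro z
    constructor
    · obtain ⟨g, hg1, hg2⟩ := exists_dual_vector'' ℝ z.1
      have hg : ∀ x, |g x| ≤ ‖x‖ := fun x => by
        have := g.le_of_opNorm_le hg1 x
        simpa using this
      have hmem : g.comp (ContinuousLinearMap.fst ℝ V L) ∈ Pol D y sig := by
        refine ⟨fun x => by simpa using hg x, fun t => by simp, fun i n hin => ?_⟩
        simp only [ContinuousLinearMap.comp_apply, ContinuousLinearMap.coe_fst', map_zero,
          abs_zero, mul_zero, add_zero]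
        exact (hg _).trans (D.s_norm n)
      have := hle ⟨_, hmem⟩ z
      simp only [ContinuousLinearMap.comp_apply, ContinuousLinearMap.coe_fst'] at this
      rw [hg2] at this
      simpa using this
    · obtain ⟨g, hg1, hg2⟩ := exists_dual_vector'' ℝ z.2
      have hg : ∀ x, |g x| ≤ ‖x‖ := fun x => by
        have := g.le_of_opNorm_le hg1 x
        simpa using this
      have hmem : g.comp (ContinuousLinearMap.snd ℝ V L) ∈ Pol D y sig := by
        refine ⟨fun x => by simp, fun t => by simpa using hg t, fun i n hin => ?_⟩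
        simp only [ContinuousLinearMap.comp_apply, ContinuousLinearMap.coe_snd', map_zero,
          abs_zero, zero_add]
        calc sig * |g (y i)| ≤ 1 * 1 :=
              mul_le_mul hs1 ((hg _).trans (hy i)) (abs_nonneg _) zero_le_one
          _ = 1 := by norm_num
      have := hle ⟨_, hmem⟩ z
      simp only [ContinuousLinearMap.comp_apply, ContinuousLinearMap.coe_snd'] at this
      rw [hg2] at this
      simpa using this
  · intro x
    exact hge _ _ fun f => f.2.1 x
  · intro t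
    exact hge _ _ fun f => f.2.2.1 t
  · intro i n hin
    constructor
    · refine hge _ _ fun f => ?_
      rw [Pol_split f.1]
      have h1 : ((0 : V), sig • y i) = sig • ((0 : V), y i) := by ext <;> simp
      simp only [h1, map_smul, smul_eq_mul]
      refine (abs_add_le _ _).trans ?_
      rw [abs_mul, abs_of_pos hs]
      exact f.2.2.2 i n hin
    · refine hge _ _ fun f => ?_
      rw [Pol_split f.1]
      have h1 : ((0 : V), -(sig • y i)) = (-sig) • ((0 : V), y i) := by ext <;> simp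
      simp only [h1, map_smul, smul_eq_mul]
      refine (abs_add_le _ _).trans ?_
      rw [abs_mul, abs_neg, abs_of_pos hs]
      exact f.2.2.2 i n hin
  · intro f C hC h1 h2 h3 z
    rcases hC.eq_or_lt with hC0 | hCpos
    · subst hC0
      rw [Pol_split f z]
      have ha : f (z.1, 0) = 0 := by
        have := h1 z.1
        simpa using this
      have hb : f (0, z.2) = 0 := by
        have := h2 z.2
        simpa using this
      rw [ha, hb]; simp
    · have hmem : C⁻¹ • f ∈ Pol D y sig := by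
        have hab : ∀ w, |(C⁻¹ • f) w| = C⁻¹ * |f w| := fun w => by
          simp [abs_mul, abs_of_pos hCpos]
        refine ⟨fun x => ?_, fun t => ?_, fun i n hin => ?_⟩
        · rw [hab, inv_mul_le_iff₀ hCpos]; exact h1 x
        · rw [hab, inv_mul_le_iff₀ hCpos]; exact h2 t
        · rw [hab, hab]
          have := h3 i n hin
          have h4 : C⁻¹ * |f (D.s n, 0)| + sig * (C⁻¹ * |f (0, y i)|) =
            C⁻¹ * (|f (D.s n, 0)| + sig * |f (0, y i)|) := by ring
          rw [h4, inv_mul_le_iff₀ hCpos]; linarith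
      have := hle ⟨_, hmem⟩ z
      have h5 : |(C⁻¹ • f) z| = C⁻¹ * |f z| := by
        simp [abs_mul, abs_of_pos hCpos]
      simp only [h5] at this
      rwa [inv_mul_le_iff₀ hCpos] at this

end Pool.Agent.H652.DL
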