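import Mathlib
import Pool.Agent.H652.DL.Defs

set_option autoImplicit false

namespace Pool.Agent.H652.DL

open Metric


/-- type synonym carrying the new norm -/
def RN (X : Type) : Type := X

instance (X : Type) [h : AddCommGroup X] : AddCommGroup (RN X) := h

instance (X : Type) [AddCommGroup X] [h : Module ℝ X] : Module ℝ (RN X) := h


theorem renorm_exists (X : Type) [NormedAddCommGroup X] [NormedSpace ℝ X] [CompleteSpace X]
    (N : Seminorm ℝ X) (a b : ℝ) (ha : 0 < a) (hN : ∀ x, a * ‖x‖ ≤ N x ∧ N x ≤ b * ‖x‖) :
    ∃ (E : Type) (_ : NormedAddCommGroup E) (_ : NormedSpace ℝ E), CompleteSpace E ∧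
      ∃ e : X ≃L[ℝ] E, ∀ x, ‖e x‖ = N x := by
  let gn : AddGroupNorm (RN X) :=
    { toFun := fun x => N (show X from x)
      map_zero' := map_zero N
      add_le' := fun x y => map_add_le_add N x y
      neg' := fun x => map_neg_eq_map N x
      eq_zero_of_map_eq_zero' := fun x hx => by
        have h1 := (hN (show X from x)).1
        have h2 : N (show X from x) = 0 := hx
        rw [h2] at h1
        have h3 : ‖(show X from x)‖ = 0 := by
          have := norm_nonneg (show X from x)
          nlinarith
        exact norm_eq_zero.mp h3 }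
  letI i1 : NormedAddCommGroup (RN X) := gn.toNormedAddCommGroup
  letI i2 : NormedSpace ℝ (RN X) :=
    { norm_smul_le := fun c x => (map_smul_eq_mul N c x).le }
  have hnorm : ∀ x : RN X, ‖x‖ = N (show X from x) := fun x => rfl
  let l : X ≃ₗ[ℝ] RN X :=
    { toFun := fun x => x
      map_add' := fun _ _ => rfl
      map_smul' := fun _ _ => rfl
      invFun := fun x => x
      left_inv := fun _ => rfl
      right_inv := fun _ => rfl }
  let e : X ≃L[ℝ] RN X := l.toContinuousLinearEquivOfBounds b a⁻¹
    (fun x => (hN x).2) (fun x => by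
      have h1 := (hN (show X from x)).1
      have h2 : ‖l.symm x‖ = ‖(show X from x)‖ := rfl
      rw [h2, hnorm, inv_mul_eq_div, le_div_iff₀ ha, mul_comm]
      exact h1)
  refine ⟨RN X, i1, i2, ?_, e, fun x => rfl⟩
  exact (completeSpace_congr (e := e.toEquiv) e.isUniformEmbedding).mp inferInstance

end Pool.Agent.H652.DL
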