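import Mathlib
import Pool.Agent.H652.DL.Defs
import Pool.Agent.H652.DL.Jexsemi
import Pool.Agent.H652.DL.Jrenorm

set_option autoImplicit false

namespace Pool.Agent.H652.DL

open Metric





theorem exists_ES {V L : Type} [NormedAddCommGroup V] [NormedSpace ℝ V] [CompleteSpace V]
    [NormedAddCommGroup L] [NormedSpace ℝ L] [CompleteSpace L] (D : VS V) (y : ℕ → L)
    (hy : ∀ i, ‖y i‖ ≤ 1) (sig : ℝ) (hs : 0 < sig) (hs1 : sig ≤ 1) :
    ∃ (E : Type) (_ : NormedAddCommGroup E) (_ : NormedSpace ℝ E), CompleteSpace E ∧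
      Nonempty (ES D y sig E) := by
  obtain ⟨N, hN1, hN2, hN3, hN4, hN5⟩ := exists_seminorm D y hy sig hs hs1
  have hlow : ∀ z : V × L, 1 * ‖z‖ ≤ N z ∧ N z ≤ 2 * ‖z‖ := by
    intro z
    constructor
    · rw [one_mul, Prod.norm_def]
      exact max_le (hN1 z).1 (hN1 z).2
    · have h1 : N z ≤ N (z.1, 0) + N (0, z.2) := by
        have h := map_add_le_add N ((z.1, 0) : V × L) (0, z.2)
        have h2 : ((z.1, 0) : V × L) + (0, z.2) = z := by
          ext <;> simp
        rwa [h2] at h
      have h2 := hN2 z.1
      have h3 := hN3 z.2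
      have h4 : ‖z.1‖ ≤ ‖z‖ := norm_fst_le z
      have h5 : ‖z.2‖ ≤ ‖z‖ := norm_snd_le z
      linarith
  obtain ⟨E, i1, i2, hc, e, he⟩ := renorm_exists (V × L) N 1 2 one_pos hlow
  refine ⟨E, i1, i2, hc, ⟨?_⟩⟩
  refine
    { iV := (e : (V × L) →L[ℝ] E).comp (ContinuousLinearMap.inl ℝ V L)
      iL := (e : (V × L) →L[ℝ] E).comp (ContinuousLinearMap.inr ℝ V L)
      pV := (ContinuousLinearMap.fst ℝ V L).comp (e.symm : E →L[ℝ] (V × L))
      pL := (ContinuousLinearMap.snd ℝ V L).comp (e.symm : E →L[ℝ] (V × L))
      sum_eq := ?_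
      pV_iV := ?_
      pL_iL := ?_
      pV_iL := ?_
      pL_iV := ?_
      iV_norm := ?_
      iL_norm := ?_
      pV_norm := ?_
      pL_norm := ?_
      gen_norm := ?_
      dual_norm := ?_ }
  · intro z
    simp only [ContinuousLinearMap.comp_apply, ContinuousLinearMap.inl_apply,
      ContinuousLinearMap.inr_apply, ContinuousLinearMap.coe_fst', ContinuousLinearMap.coe_snd',
      ContinuousLinearEquiv.coe_coe]
    rw [← map_add]
    have : ((e.symm z).1, (0 : L)) + ((0 : V), (e.symm z).2) = e.symm z := by
      ext <;> simp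
    rw [this, e.apply_symm_apply]
  · intro x
    simp
  · intro t
    simp
  · intro t
    simp
  · intro x
    simp
  · intro x
    have h := he (x, 0)
    have h2 := hN2 x
    simp only [ContinuousLinearMap.comp_apply, ContinuousLinearMap.inl_apply,
      ContinuousLinearEquiv.coe_coe]
    rw [h]
    exact h2
  · intro t
    have h := he (0, t)
    have h2 := hN3 t
    simp only [ContinuousLinearMap.comp_apply, ContinuousLinearMap.inr_apply,
      ContinuousLinearEquiv.coe_coe]
    rw [h]
    exact h2
  · intro z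
    have h := he (e.symm z)
    rw [e.apply_symm_apply] at h
    simp only [ContinuousLinearMap.comp_apply, ContinuousLinearMap.coe_fst',
      ContinuousLinearEquiv.coe_coe]
    rw [h]
    exact (hN1 _).1
  · intro z
    have h := he (e.symm z)
    rw [e.apply_symm_apply] at h
    simp only [ContinuousLinearMap.comp_apply, ContinuousLinearMap.coe_snd',
      ContinuousLinearEquiv.coe_coe]
    rw [h]
    exact (hN1 _).2
  · intro i n hin
    obtain ⟨h1, h2⟩ := hN4 i n hin
    simp only [ContinuousLinearMap.comp_apply, ContinuousLinearMap.inl_apply,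
      ContinuousLinearMap.inr_apply, ContinuousLinearEquiv.coe_coe]
    constructor
    · rw [← map_smul, ← map_add, he]
      have : ((D.s n, 0) : V × L) + sig • (0, y i) = (D.s n, sig • y i) := by
        ext <;> simp
      rw [this]
      exact h1
    · rw [← map_smul, ← map_sub, he]
      have : ((D.s n, 0) : V × L) - sig • (0, y i) = (D.s n, -(sig • y i)) := by
        ext <;> simp
      rw [this]
      exact h2
  · intro f C hC h1 h2 h3
    refine ContinuousLinearMap.opNorm_le_bound f hC ?_
    intro z
    have h := hN5 (f.comp (e : (V × L) →L[ℝ] E)) C hC ?_ ?_ ?_ (e.symm z)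
    · have h4 := he (e.symm z)
      rw [e.apply_symm_apply] at h4
      rw [← h4] at h
      simpa [Real.norm_eq_abs] using h
    · intro x
      simpa using h1 x
    · intro t
      simpa using h2 t
    · intro i n hin
      simpa using h3 i n hin

end Pool.Agent.H652.DL
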