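import Mathlib
import Pool.Agent.H652.DL.Defs

set_option autoImplicit false

namespace Pool.Agent.H652.DL

open Metric



theorem fd_unif {Z : Type} [NormedAddCommGroup Z] [NormedSpace ℝ Z] (Γ : Submodule ℝ Z)
    [FiniteDimensional ℝ Γ] (ω : ℝ) (hω : 0 < ω) :
    ∃ (G : Finset Z) (ε : ℝ), 0 < ε ∧ (∀ g ∈ G, g ∈ Γ) ∧
      ∀ (Z' : Type) [NormedAddCommGroup Z'] [NormedSpace ℝ Z'] (Φ : Z →ₗ[ℝ] Z'),
        (∀ g ∈ G, ‖Φ g‖ ≤ ε) → ∀ γ ∈ Γ, ‖Φ γ‖ ≤ ω * ‖γ‖ := by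
  classical
  let b := Module.finBasis ℝ Γ
  let T : Γ →L[ℝ] (Fin (Module.finrank ℝ Γ) → ℝ) :=
    LinearMap.toContinuousLinearMap (b.equivFun : Γ →ₗ[ℝ] (Fin (Module.finrank ℝ Γ) → ℝ))
  obtain ⟨C, hC0, hcoord⟩ : ∃ C : ℝ, 0 ≤ C ∧ ∀ (γ : Γ) (i : Fin (Module.finrank ℝ Γ)),
      ‖b.equivFun γ i‖ ≤ C * ‖γ‖ := by
    refine ⟨‖T‖, norm_nonneg T, fun γ i => ?_⟩
    calc ‖b.equivFun γ i‖ = ‖T γ i‖ := rfl
      _ ≤ ‖T γ‖ := norm_le_pi_norm _ i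
      _ ≤ ‖T‖ * ‖γ‖ := T.le_opNorm γ
  obtain ⟨n, hn⟩ : ∃ n : ℝ, n = (Module.finrank ℝ Γ : ℝ) := ⟨_, rfl⟩
  have hn0 : 0 ≤ n := by rw [hn]; exact Nat.cast_nonneg _
  have hd : (0:ℝ) < (n+1) * (C+1) := by positivity
  refine ⟨Finset.univ.image (fun i => (b i : Z)), ω / ((n+1) * (C+1)), div_pos hω hd, ?_, ?_⟩
  · intro g hg
    obtain ⟨i, _, rfl⟩ := Finset.mem_image.mp hg
    exact (b i).2
  · intro Z' _ _ Φ hΦ γ hγ
    have e1 : (⟨γ, hγ⟩ : Γ) = ∑ i, b.equivFun ⟨γ, hγ⟩ i • b i := (b.sum_equivFun _).symm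
    have e2 : γ = ∑ i, b.equivFun ⟨γ, hγ⟩ i • (b i : Z) := by
      have h3 := congrArg (Γ.subtype) e1
      rw [map_sum] at h3
      simp only [map_smul] at h3
      exact h3
    have hb : ∀ i, ‖Φ (b i : Z)‖ ≤ ω / ((n+1) * (C+1)) := fun i =>
      hΦ _ (Finset.mem_image.mpr ⟨i, Finset.mem_univ _, rfl⟩)
    have hε : 0 ≤ ω / ((n+1) * (C+1)) := (div_pos hω hd).le
    calc ‖Φ γ‖ = ‖∑ i, b.equivFun ⟨γ, hγ⟩ i • Φ (b i : Z)‖ := by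
          conv_lhs => rw [e2]
          rw [map_sum]
          simp only [map_smul]
      _ ≤ ∑ i, ‖b.equivFun ⟨γ, hγ⟩ i • Φ (b i : Z)‖ := norm_sum_le _ _
      _ ≤ ∑ _i : Fin (Module.finrank ℝ Γ), (C * ‖γ‖) * (ω / ((n+1) * (C+1))) := by
          refine Finset.sum_le_sum fun i _ => ?_
          rw [norm_smul]
          exact mul_le_mul (hcoord ⟨γ, hγ⟩ i) (hb i) (norm_nonneg _) (by positivity)
      _ = n * ((C * ‖γ‖) * (ω / ((n+1) * (C+1)))) := by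
          rw [Finset.sum_const, Finset.card_univ, Fintype.card_fin, nsmul_eq_mul, ← hn]
      _ = ((n * C) / ((n+1) * (C+1))) * (ω * ‖γ‖) := by ring
      _ ≤ 1 * (ω * ‖γ‖) := by
          refine mul_le_mul_of_nonneg_right ?_ (by positivity)
          rw [div_le_one hd]
          nlinarith
      _ = ω * ‖γ‖ := one_mul _

end Pool.Agent.H652.DL
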