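import Mathlib
import Pool.Agent.H652.DL.Defs

set_option autoImplicit false

namespace Pool.Agent.H652.DL

open Metric



theorem tb_seq {L Z : Type} [NormedAddCommGroup L] [NormedSpace ℝ L] [NormedAddCommGroup Z]
    [NormedSpace ℝ Z] (Φ : L →L[ℝ] Z)
    (h : FiniteDimensional ℝ (LinearMap.range (Φ : L →ₗ[ℝ] Z))) (y : ℕ → L)
    (hy : ∀ i, ‖y i‖ ≤ 1) (ω : ℝ) (hω : 0 < ω) :
    ∃ N : ℕ, ∀ i, ∃ j, j ≤ N ∧ ‖Φ (y i) - Φ (y j)‖ ≤ ω := by
  classical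
  set R := LinearMap.range (Φ : L →ₗ[ℝ] Z) with hR
  have : ProperSpace R := FiniteDimensional.proper ℝ R
  set z : ℕ → R := fun i => ⟨Φ (y i), ⟨y i, rfl⟩⟩ with hz
  have hb : Set.range z ⊆ closedBall (0 : R) ‖Φ‖ := by
    rintro _ ⟨i, rfl⟩
    rw [mem_closedBall_zero_iff]
    show ‖Φ (y i)‖ ≤ ‖Φ‖
    exact (Φ.le_opNorm_of_le (hy i)).trans (by rw [mul_one])
  have htb : TotallyBounded (Set.range z) :=
    (isCompact_closedBall (0 : R) ‖Φ‖).totallyBounded.subset hb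
  obtain ⟨t, hts, htf, hcov⟩ := Metric.finite_approx_of_totallyBounded htb ω hω
  have hg : ∃ g : R → ℕ, ∀ w ∈ t, z (g w) = w := by
    refine ⟨fun w => if hw : ∃ j, z j = w then hw.choose else 0, fun w hw => ?_⟩
    have h1 : ∃ j, z j = w := hts hw
    simp only [h1, dif_pos]
    exact h1.choose_spec
  obtain ⟨g, hg⟩ := hg
  refine ⟨htf.toFinset.sup g, fun i => ?_⟩
  have h2 := hcov ⟨i, rfl⟩
  simp only [Set.mem_iUnion] at h2
  obtain ⟨w, hw, hiw⟩ := h2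
  refine ⟨g w, Finset.le_sup (f := g) (htf.mem_toFinset.mpr hw), ?_⟩
  have h3 : dist (z i) (z (g w)) < ω := by
    rw [hg w hw]
    exact hiw
  rw [dist_eq_norm] at h3
  exact h3.le

end Pool.Agent.H652.DL
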