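import Mathlib
import Pool.Agent.H652.DL.Defs
import Pool.Agent.H652.DL.Jfdunif
import Pool.Agent.H652.DL.Jtbseq

set_option autoImplicit false

namespace Pool.Agent.H652.DL

open Metric





theorem exists_good {V L E : Type} [NormedAddCommGroup V] [NormedSpace ℝ V]
    [NormedAddCommGroup L] [NormedSpace ℝ L] [NormedAddCommGroup E] [NormedSpace ℝ E] {D : VS V}
    {y : ℕ → L} {sig : ℝ} (A : ES D y sig E) (Γ : Submodule ℝ (StrongDual ℝ E))
    [FiniteDimensional ℝ Γ] (kap T om : ℝ) (hom : 0 < om) (B : Set L) (hyB : ∀ i, y i ∈ B)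
    (hyd : ∀ b ∈ B, ∀ δ : ℝ, 0 < δ → ∃ i, ‖b - y i‖ ≤ δ) (hy : ∀ i, ‖y i‖ ≤ 1)
    (hGG : GG B (1 + kap * sig) (T + om / 4)) (K : Finset E) :
    ∃ (v : L →L[ℝ] L) (N N' : ℕ), Good A Γ kap T om v N N' ∧
      ∀ k ∈ K, ‖U A v N N' 0 0 k - k‖ ≤ om ∧ |D.tau N (A.pV k)| ≤ om := by
  classical
  obtain ⟨G, ε, hε, hGΓ, hG⟩ := fd_unif Γ om hom
  have hd := fun g : StrongDual ℝ E => D.dual_tend (g.comp A.iV) (ε / 2) (by positivity)
  choose N1 hN1 using hd
  have ht := fun k : E => D.tend (A.pV k) (om / 4) (by positivity)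
  choose N2 hN2 using ht
  obtain ⟨N, hNG, hNK⟩ : ∃ N : ℕ, (∀ g ∈ G, N1 g ≤ N) ∧ (∀ k ∈ K, N2 k ≤ N) := by
    refine ⟨max (G.sup N1) (K.sup N2), fun g hg => ?_, fun k hk => ?_⟩
    · exact le_trans (Finset.le_sup (f := N1) hg) (le_max_left _ _)
    · exact le_trans (Finset.le_sup (f := N2) hk) (le_max_right _ _)
  obtain ⟨v, hvfin, hvn, hvG, hvK, hvB⟩ := hGG (G.image (fun g => g.comp A.iL))
    (K.image A.pL ∪ (Finset.range (N + 1)).image y) (min (ε / 2) (om / 4))
    (lt_min (by positivity) (by positivity))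
  have hvG' : ∀ g ∈ G, ‖(g.comp A.iL).comp v - g.comp A.iL‖ ≤ ε / 2 := by
    intro g hg
    exact le_trans (hvG _ (Finset.mem_image_of_mem _ hg)) (min_le_left _ _)
  have hvK' : ∀ k ∈ K, ‖v (A.pL k) - A.pL k‖ ≤ om / 4 := by
    intro k hk
    exact le_trans (hvK _ (Finset.mem_union_left _ (Finset.mem_image_of_mem _ hk)))
      (min_le_right _ _)
  have hvy : ∀ i, i ≤ N → ‖v (y i) - y i‖ ≤ om / 4 := by
    intro i hi
    exact le_trans (hvK _ (Finset.mem_union_right _ (Finset.mem_image_of_mem _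
      (Finset.mem_range.2 (Nat.lt_succ_of_le hi))))) (min_le_right _ _)
  -- thresholds for h5
  obtain ⟨M2, hM2⟩ := tb_seq (ContinuousLinearMap.pi (fun g : G => g.1.comp A.iL))
    inferInstance y hy ε hε
  -- thresholds for h3
  obtain ⟨M1, hM1⟩ := tb_seq v hvfin y hy (om / 4) (by positivity)
  have hb : ∀ j : ℕ, ∃ k : ℕ, ‖v (y j) - y k‖ ≤ T + om / 4 + om / 4 := by
    intro j
    obtain ⟨b, hbB, hb1⟩ := hvB (y j) (hyB j)
    obtain ⟨k, hk⟩ := hyd b hbB (om / 4) (by positivity)
    refine ⟨k, ?_⟩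
    calc ‖v (y j) - y k‖ = ‖(v (y j) - b) + (b - y k)‖ := by congr 1; abel
      _ ≤ ‖v (y j) - b‖ + ‖b - y k‖ := norm_add_le _ _
      _ ≤ T + om / 4 + om / 4 := by linarith
  choose kk hkk using hb
  obtain ⟨N', hNN', hM2N', hkN'⟩ : ∃ N' : ℕ, N ≤ N' ∧ M2 ≤ N' ∧ ∀ j, j ≤ M1 → kk j ≤ N' := by
    refine ⟨max N (max M2 ((Finset.range (M1 + 1)).sup kk)), le_max_left _ _,
      le_trans (le_max_left _ _) (le_max_right _ _), fun j hj => ?_⟩
    exact le_trans (le_trans (Finset.le_sup (f := kk) (Finset.mem_range.2 (Nat.lt_succ_of_le hj)))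
      (le_max_right _ _)) (le_max_right _ _)
  have hU : ∀ z, U A v N N' 0 0 z =
      A.iV (D.P N (A.pV z) + D.tau N (A.pV z) • D.s N') + A.iL (v (A.pL z)) := by
    intro z
    simp only [U, ContinuousLinearMap.add_apply, ContinuousLinearMap.comp_apply,
      ContinuousLinearMap.smulRight_apply, map_add, map_smul, sub_zero, one_smul, smul_zero,
      add_zero]
    abel
  refine ⟨v, N, N', ?_, ?_⟩
  · refine ⟨hvfin, hNN', hvn, fun i hi => le_trans (hvy i hi) (by linarith), ?_, ?_, ?_⟩
    · intro i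
      obtain ⟨j, hj, hij⟩ := hM1 i
      refine ⟨kk j, hkN' j hj, ?_⟩
      calc ‖v (y i) - y (kk j)‖ = ‖(v (y i) - v (y j)) + (v (y j) - y (kk j))‖ := by
            congr 1; abel
        _ ≤ ‖v (y i) - v (y j)‖ + ‖v (y j) - y (kk j)‖ := norm_add_le _ _
        _ ≤ om / 4 + (T + om / 4 + om / 4) := add_le_add hij (hkk j)
        _ ≤ T + om := by linarith
    · have key := hG (StrongDual ℝ E)
        { toFun := fun γ => γ.comp (U A v N N' 0 0) - γ
          map_add' := by
            intro a b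
            ext z
            simp
            ring
          map_smul' := by
            intro a b
            ext z
            simp
            ring } ?_
      · intro γ hγ
        exact key γ hγ
      · intro g hg
        show ‖g.comp (U A v N N' 0 0) - g‖ ≤ ε
        refine ContinuousLinearMap.opNorm_le_bound _ hε.le (fun z => ?_)
        have h1 := hN1 g N N' (hNG g hg) hNN' (A.pV z)
        have h2 := ((g.comp A.iL).comp v - g.comp A.iL).le_of_opNorm_le (hvG' g hg) (A.pL z)
        have h3 : (g.comp (U A v N N' 0 0) - g) z =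
            ((g.comp A.iV) (D.P N (A.pV z) + D.tau N (A.pV z) • D.s N') -
              (g.comp A.iV) (A.pV z)) +
            ((g.comp A.iL).comp v - g.comp A.iL) (A.pL z) := by
          have hz : g z = g (A.iV (A.pV z)) + g (A.iL (A.pL z)) := by
            rw [← map_add, A.sum_eq]
          simp only [ContinuousLinearMap.sub_apply, ContinuousLinearMap.comp_apply]
          rw [hU, map_add, hz]
          ring
        rw [h3]
        have h4 := norm_add_le ((g.comp A.iV) (D.P N (A.pV z) + D.tau N (A.pV z) • D.s N') -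
              (g.comp A.iV) (A.pV z)) (((g.comp A.iL).comp v - g.comp A.iL) (A.pL z))
        rw [Real.norm_eq_abs ((g.comp A.iV) (D.P N (A.pV z) + D.tau N (A.pV z) • D.s N') -
              (g.comp A.iV) (A.pV z))] at h4
        have h5 := A.pV_norm z
        have h6 := A.pL_norm z
        nlinarith
    · intro i
      obtain ⟨j, hj, hij⟩ := hM2 i
      refine ⟨j, le_trans hj hM2N', ?_⟩
      have key := hG ℝ
        { toFun := fun γ => γ (A.iL (y i)) - γ (A.iL (y j))
          map_add' := by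
            intro a b
            simp
            ring
          map_smul' := by
            intro a b
            simp
            ring } ?_
      · intro γ hγ
        have := key γ hγ
        simpa [Real.norm_eq_abs] using this
      · intro g hg
        have h1 := norm_le_pi_norm ((ContinuousLinearMap.pi (fun g : G => g.1.comp A.iL)) (y i) -
          (ContinuousLinearMap.pi (fun g : G => g.1.comp A.iL)) (y j)) ⟨g, hg⟩
        have h2 := le_trans h1 hij
        simpa using h2
  · intro k hk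
    obtain ⟨h1, h2⟩ := hN2 k N (hNK k hk)
    have h3 := hvK' k hk
    refine ⟨?_, by linarith⟩
    have h4 : U A v N N' 0 0 k - k =
        A.iV (D.P N (A.pV k) - A.pV k) + (D.tau N (A.pV k)) • A.iV (D.s N') +
          A.iL (v (A.pL k) - A.pL k) := by
      rw [hU]
      nth_rewrite 4 [← A.sum_eq k]
      simp only [map_add, map_sub, map_smul]
      abel
    rw [h4]
    have h5 : ‖A.iV (D.P N (A.pV k) - A.pV k)‖ ≤ om / 4 := le_trans (A.iV_norm _) h1
    have h6 : ‖(D.tau N (A.pV k)) • A.iV (D.s N')‖ ≤ om / 4 := by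
      rw [norm_smul, Real.norm_eq_abs]
      have := le_trans (A.iV_norm (D.s N')) (D.s_norm N')
      have h7 := abs_nonneg (D.tau N (A.pV k))
      nlinarith
    have h7 : ‖A.iL (v (A.pL k) - A.pL k)‖ ≤ om / 4 := le_trans (A.iL_norm _) h3
    have h8 := norm_add₃_le (a := A.iV (D.P N (A.pV k) - A.pV k))
      (b := (D.tau N (A.pV k)) • A.iV (D.s N')) (c := A.iL (v (A.pL k) - A.pL k))
    linarith

end Pool.Agent.H652.DL
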