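import Mathlib
import Pool.Agent.H652.DL.Defs

set_option autoImplicit false

namespace Pool.Agent.H652.DL

open Metric



theorem exists_tau {L : Type} [NormedAddCommGroup L] [NormedSpace ℝ L] (B : Set L) (eta : ℝ)
    (heta : 0 < eta) (h1 : GG B 1 1) (h2 : ¬ GG B (1 + eta) eta) :
    ∃ T : ℝ, 0 < T ∧ T ≤ 1 ∧ (∀ lam t : ℝ, 1 < lam → T < t → GG B lam t) ∧
      ∀ t : ℝ, t < T → ∃ lam : ℝ, 1 < lam ∧ ¬ GG B lam t := by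
  have mono : ∀ lam lam' t t' : ℝ, lam ≤ lam' → t ≤ t' → GG B lam t → GG B lam' t' := by
    intro lam lam' t t' hl ht h G K ε hε
    obtain ⟨v, hv1, hv2, hv3, hv4, hv5⟩ := h G K ε hε
    refine ⟨v, hv1, hv2.trans hl, hv3, hv4, fun y hy => ?_⟩
    obtain ⟨b, hb, hb2⟩ := hv5 y hy
    exact ⟨b, hb, hb2.trans ht⟩
  have hS : eta ∈ {t : ℝ | ∃ lam : ℝ, 1 < lam ∧ ¬ GG B lam t} := ⟨1 + eta, by linarith, h2⟩
  have hub : ∀ t ∈ {t : ℝ | ∃ lam : ℝ, 1 < lam ∧ ¬ GG B lam t}, t ≤ 1 := by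
    rintro t ⟨lam, hlam, ht⟩
    by_contra hcon
    exact ht (mono 1 lam 1 t hlam.le (not_le.1 hcon).le h1)
  have hbdd : BddAbove {t : ℝ | ∃ lam : ℝ, 1 < lam ∧ ¬ GG B lam t} := ⟨1, hub⟩
  refine ⟨sSup {t : ℝ | ∃ lam : ℝ, 1 < lam ∧ ¬ GG B lam t}, lt_of_lt_of_le heta (le_csSup hbdd hS),
    csSup_le ⟨eta, hS⟩ hub, ?_, ?_⟩
  · intro lam t hlam ht
    by_contra hcon
    exact absurd (le_csSup hbdd (show t ∈ {t : ℝ | ∃ lam : ℝ, 1 < lam ∧ ¬ GG B lam t} from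
      ⟨lam, hlam, hcon⟩)) (not_le.2 ht)
  · intro t ht
    obtain ⟨s, ⟨lam, hlam, hs⟩, hts⟩ := exists_lt_of_lt_csSup ⟨eta, hS⟩ ht
    exact ⟨lam, hlam, fun h => hs (mono lam lam t s le_rfl hts.le h)⟩

end Pool.Agent.H652.DL
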