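import Mathlib
import Pool.Agent.H652.DL.Defs

set_option autoImplicit false

namespace Pool.Agent.H652.DL

open Metric


open Filter Topology ZeroAtInfty

/-- a finitely supported sequence as an element of `c_0` -/
noncomputable def mkc (x : ℕ → ℝ) (N : ℕ) (h : ∀ n, N < n → x n = 0) : C₀(ℕ, ℝ) :=
  ⟨⟨x, continuous_of_discreteTopology⟩, by
    rw [Filter.cocompact_eq_cofinite, Nat.cofinite_eq_atTop]
    refine tendsto_const_nhds.congr' ?_
    filter_upwards [eventually_gt_atTop N] with n hn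
    exact (h n hn).symm⟩

@[simp] theorem mkc_apply (x : ℕ → ℝ) (N : ℕ) (h : ∀ n, N < n → x n = 0) (n : ℕ) :
    mkc x N h n = x n := rfl

theorem nle (x : C₀(ℕ, ℝ)) (C : ℝ) (hC : 0 ≤ C) : ‖x‖ ≤ C ↔ ∀ n, |x n| ≤ C := by
  rw [← ZeroAtInftyContinuousMap.norm_toBCF_eq_norm, BoundedContinuousFunction.norm_le hC]
  rfl

theorem coord_le (x : C₀(ℕ, ℝ)) (n : ℕ) : |x n| ≤ ‖x‖ :=
  (nle x ‖x‖ (norm_nonneg _)).1 le_rfl n

theorem tendz (x : C₀(ℕ, ℝ)) (ε : ℝ) (hε : 0 < ε) : ∃ N₀, ∀ N, N₀ ≤ N → |x N| ≤ ε := by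
  have h := x.zero_at_infty'
  rw [Filter.cocompact_eq_cofinite, Nat.cofinite_eq_atTop] at h
  have h2 := (Metric.tendsto_atTop.1 h) ε hε
  obtain ⟨N₀, hN₀⟩ := h2
  refine ⟨N₀, fun N hN => ?_⟩
  have := hN₀ N hN
  rw [Real.dist_eq, sub_zero] at this
  exact this.le

/-- unit vectors -/
noncomputable def ee (k : ℕ) : C₀(ℕ, ℝ) :=
  mkc (fun n => if n = k then 1 else 0) k (fun n hn => by simp [Nat.ne_of_gt hn])

/-- `s n` -/
noncomputable def ss (k : ℕ) : C₀(ℕ, ℝ) :=
  mkc (fun n => if n ≤ k then 1 else 0) k (fun n hn => by simp [not_le.2 hn])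

theorem ss_apply (k n : ℕ) : ss k n = if n ≤ k then 1 else 0 := rfl

theorem ee_apply (k n : ℕ) : ee k n = if n = k then 1 else 0 := rfl

/-- evaluation -/
noncomputable def ev (n : ℕ) : StrongDual ℝ C₀(ℕ, ℝ) :=
  LinearMap.mkContinuous
    { toFun := fun x => x n
      map_add' := fun _ _ => rfl
      map_smul' := fun _ _ => rfl } 1 (fun x => by
        rw [one_mul]; exact coord_le x n)

theorem ev_apply (n : ℕ) (x : C₀(ℕ, ℝ)) : ev n x = x n := rfl

theorem ev_norm (n : ℕ) : ‖ev n‖ ≤ 1 :=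
  LinearMap.mkContinuous_norm_le _ zero_le_one _

/-- the operators `P N` -/
noncomputable def PP (N : ℕ) : C₀(ℕ, ℝ) →L[ℝ] C₀(ℕ, ℝ) :=
  LinearMap.mkContinuous
    { toFun := fun x => mkc (fun k => if k ≤ N then x k - x (N + 1) else 0) N
        (fun n hn => by simp [not_le.2 hn])
      map_add' := fun x y => by
        ext k
        by_cases h : k ≤ N
        · simp [h]; ring
        · simp [h]
      map_smul' := fun c x => by
        ext k
        by_cases h : k ≤ N
        · simp [h]; ring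
        · simp [h] } 2 (fun x => by
        rw [nle _ _ (by positivity)]
        intro n
        by_cases h : n ≤ N
        · simp only [LinearMap.coe_mk, AddHom.coe_mk, mkc_apply, h, if_true]
          calc |x n - x (N + 1)| ≤ |x n| + |x (N + 1)| := abs_sub _ _
            _ ≤ ‖x‖ + ‖x‖ := add_le_add (coord_le _ _) (coord_le _ _)
            _ = 2 * ‖x‖ := by ring
        · simp only [LinearMap.coe_mk, AddHom.coe_mk, mkc_apply, h, if_false, abs_zero]
          positivity)

theorem PP_apply (N : ℕ) (x : C₀(ℕ, ℝ)) (k : ℕ) :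
    PP N x k = if k ≤ N then x k - x (N + 1) else 0 := rfl

theorem trunc_sum (x : C₀(ℕ, ℝ)) (M : ℕ) (n : ℕ) :
    (∑ k ∈ Finset.range M, x k • ee k) n = if n < M then x n else 0 := by
  have : (∑ k ∈ Finset.range M, x k • ee k) n = ∑ k ∈ Finset.range M, x k * (if n = k then 1 else 0) := by
    have h1 : (∑ k ∈ Finset.range M, x k • ee k) n = ev n (∑ k ∈ Finset.range M, x k • ee k) := rfl
    rw [h1, map_sum]
    refine Finset.sum_congr rfl fun k _ => ?_
    rw [map_smul, ev_apply, ee_apply]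
    simp
  rw [this]
  simp [Finset.sum_ite_eq]

theorem sum_abs_le (a : StrongDual ℝ C₀(ℕ, ℝ)) (M : ℕ) :
    ∑ k ∈ Finset.range M, |a (ee k)| ≤ ‖a‖ := by
  set z : C₀(ℕ, ℝ) := mkc (fun n => if n < M then SignType.sign (a (ee n)) else 0) M
    (fun n hn => by simp [not_lt.2 hn.le]) with hz
  have hzn : ‖z‖ ≤ 1 := by
    rw [nle _ _ zero_le_one]
    intro n
    rw [hz, mkc_apply]
    by_cases h : n < M
    · simp only [h, if_true]
      rcases lt_trichotomy (a (ee n)) 0 with h | h | h <;> simp [h]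
    · simp [h]
  have hsum : z = ∑ k ∈ Finset.range M, z k • ee k := by
    ext n
    rw [trunc_sum]
    by_cases h : n < M
    · simp [h]
    · simp [h, hz]
  have haz : a z = ∑ k ∈ Finset.range M, |a (ee k)| := by
    rw [hsum, map_sum]
    refine Finset.sum_congr rfl fun k hk => ?_
    rw [map_smul, hz, mkc_apply, if_pos (Finset.mem_range.1 hk), smul_eq_mul]
    exact sign_mul_self _
  calc ∑ k ∈ Finset.range M, |a (ee k)| = a z := haz.symm
    _ ≤ ‖a z‖ := le_abs_self _
    _ ≤ ‖a‖ * ‖z‖ := a.le_opNorm z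
    _ ≤ ‖a‖ * 1 := by gcongr
    _ = ‖a‖ := mul_one _

theorem tail_le (a : StrongDual ℝ C₀(ℕ, ℝ)) (δ : ℝ) (hδ : 0 < δ) : ∃ N₀, ∀ M, N₀ ≤ M →
    ∑ k ∈ Finset.Ico N₀ M, |a (ee k)| ≤ δ := by
  have hs : Summable (fun k => |a (ee k)|) :=
    summable_of_sum_range_le (fun _ => abs_nonneg _) (sum_abs_le a)
  have hc := hs.hasSum.tendsto_sum_nat.cauchySeq
  obtain ⟨N₀, hN₀⟩ := Metric.cauchySeq_iff'.1 hc δ hδ
  refine ⟨N₀, fun M hM => ?_⟩
  have := hN₀ M hM
  rw [Real.dist_eq, ← Finset.sum_Ico_eq_sub _ hM] at this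
  exact (le_abs_self _).trans this.le

theorem dual_small (a : StrongDual ℝ C₀(ℕ, ℝ)) (ε : ℝ) (hε : 0 < ε) : ∃ N₀, ∀ z : C₀(ℕ, ℝ),
    (∀ k, k < N₀ → z k = 0) → |a z| ≤ ε * ‖z‖ := by
  obtain ⟨N₀, hN₀⟩ := tail_le a ε hε
  refine ⟨N₀, fun z hz => ?_⟩
  refine le_of_forall_pos_le_add fun δ hδ => ?_
  obtain ⟨δ', hδ', hδ2⟩ : ∃ δ', 0 < δ' ∧ ‖a‖ * δ' ≤ δ := by
    refine ⟨δ / (‖a‖ + 1), by positivity, ?_⟩
    rw [mul_div_assoc', div_le_iff₀ (by positivity)]
    nlinarith [norm_nonneg a]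
  obtain ⟨M₀, hM₀⟩ := tendz z δ' hδ'
  set M := max M₀ N₀
  set w : C₀(ℕ, ℝ) := ∑ k ∈ Finset.range M, z k • ee k with hw
  have h1 : ‖z - w‖ ≤ δ' := by
    rw [nle _ _ hδ'.le]
    intro n
    have : (z - w) n = z n - w n := rfl
    rw [this, hw, trunc_sum]
    by_cases h : n < M
    · simp [h, hδ'.le]
    · simp only [h, if_false, sub_zero]
      exact hM₀ n (le_trans (le_max_left _ _) (not_lt.1 h))
  have h2 : |a w| ≤ ε * ‖z‖ := by
    have h3 : a w = ∑ k ∈ Finset.Ico N₀ M, z k * a (ee k) := by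
      rw [hw, map_sum, ← Finset.sum_range_add_sum_Ico _ (le_max_right M₀ N₀)]
      rw [Finset.sum_eq_zero (s := Finset.range N₀), zero_add]
      · refine Finset.sum_congr rfl fun k _ => ?_
        rw [map_smul, smul_eq_mul]
      · intro k hk
        rw [hz k (Finset.mem_range.1 hk)]
        simp
    rw [h3]
    calc |∑ k ∈ Finset.Ico N₀ M, z k * a (ee k)|
        ≤ ∑ k ∈ Finset.Ico N₀ M, |z k * a (ee k)| := Finset.abs_sum_le_sum_abs _ _
      _ ≤ ∑ k ∈ Finset.Ico N₀ M, ‖z‖ * |a (ee k)| := by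
          refine Finset.sum_le_sum fun k _ => ?_
          rw [abs_mul]
          exact mul_le_mul_of_nonneg_right (coord_le _ _) (abs_nonneg _)
      _ = ‖z‖ * ∑ k ∈ Finset.Ico N₀ M, |a (ee k)| := by rw [Finset.mul_sum]
      _ ≤ ‖z‖ * ε := mul_le_mul_of_nonneg_left (hN₀ M (le_max_right _ _)) (norm_nonneg _)
      _ = ε * ‖z‖ := mul_comm _ _
  have h4 : a z = a w + a (z - w) := by rw [map_sub]; ring
  rw [h4]
  calc |a w + a (z - w)| ≤ |a w| + |a (z - w)| := abs_add_le _ _
    _ ≤ ε * ‖z‖ + ‖a‖ * ‖z - w‖ := add_le_add h2 (a.le_opNorm _)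
    _ ≤ ε * ‖z‖ + ‖a‖ * δ' := by gcongr
    _ ≤ ε * ‖z‖ + δ := by gcongr

theorem SS_apply (N N' : ℕ) (h : N ≤ N') (x : C₀(ℕ, ℝ)) (k : ℕ) :
    (PP N x + ev (N + 1) x • ss N') k =
      if k ≤ N then x k else if k ≤ N' then x (N + 1) else 0 := by
  have : (PP N x + ev (N + 1) x • ss N') k = PP N x k + x (N + 1) * ss N' k := rfl
  rw [this, PP_apply, ss_apply]
  by_cases h1 : k ≤ N
  · simp [h1, h1.trans h]
  · by_cases h2 : k ≤ N'
    · simp [h1, h2]
    · simp [h1, h2]


theorem exists_VS : ∃ (V : Type) (_ : NormedAddCommGroup V) (_ : NormedSpace ℝ V),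
    CompleteSpace V ∧ Nonempty (VS V) := by
  refine ⟨C₀(ℕ, ℝ), inferInstance, inferInstance, inferInstance, ⟨?_⟩⟩
  refine
    { s := ss
      P := PP
      tau := fun N => ev (N + 1)
      f0 := ev 0
      s_norm := ?_
      f0_norm := ev_norm 0
      f0_s := ?_
      P_fin := ?_
      S_norm := ?_
      P_s_le := ?_
      tau_s_le := ?_
      P_s_gt := ?_
      tau_s_gt := ?_
      P_norm := ?_
      tau_norm := fun N => ev_norm _
      dual_tend := ?_
      tend := ?_ }
  · intro n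
    rw [nle _ _ zero_le_one]
    intro k
    rw [ss_apply]
    split_ifs <;> simp
  · intro n
    rw [ev_apply, ss_apply]; simp
  · intro N
    have hle : LinearMap.range (PP N : C₀(ℕ, ℝ) →ₗ[ℝ] C₀(ℕ, ℝ)) ≤
        Submodule.span ℝ (Set.range (fun i : Fin (N + 1) => ee i)) := by
      rintro y ⟨x, rfl⟩
      have : (PP N : C₀(ℕ, ℝ) →ₗ[ℝ] C₀(ℕ, ℝ)) x
          = ∑ k ∈ Finset.range (N + 1), (PP N x k) • ee k := by
        ext n
        rw [trunc_sum]
        change PP N x n = _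
        by_cases h : n < N + 1
        · simp [h]
        · rw [if_neg h, PP_apply, if_neg (by omega)]
      rw [this]
      refine Submodule.sum_mem _ fun k hk => Submodule.smul_mem _ _ (Submodule.subset_span ?_)
      exact ⟨⟨k, Finset.mem_range.1 hk⟩, rfl⟩
    haveI : FiniteDimensional ℝ (Submodule.span ℝ (Set.range (fun i : Fin (N + 1) => ee i))) :=
      FiniteDimensional.span_of_finite ℝ (Set.finite_range _)
    exact Submodule.finiteDimensional_of_le hle
  · intro N N' h x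
    rw [nle _ _ (norm_nonneg _)]
    intro k
    rw [SS_apply N N' h]
    split_ifs
    · exact coord_le _ _
    · exact coord_le _ _
    · simp
  · intro N n h
    ext k
    rw [PP_apply, ss_apply, ss_apply]
    by_cases h1 : k ≤ N
    · simp [h1, show ¬ (N + 1 ≤ n) by omega]
    · simp [h1, show ¬ (k ≤ n) by omega]
  · intro N n h
    rw [ev_apply, ss_apply]
    simp [show ¬ (N + 1 ≤ n) by omega]
  · intro N n h
    ext k
    rw [PP_apply, ss_apply, ss_apply]
    by_cases h1 : k ≤ N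
    · simp [h1, show (N + 1 ≤ n) by omega, show k ≤ n by omega]
    · simp [h1]
  · intro N n h
    rw [ev_apply, ss_apply]
    simp [show (N + 1 ≤ n) by omega]
  · intro N x
    exact (ContinuousLinearMap.le_opNorm _ _).trans
      (mul_le_mul_of_nonneg_right (LinearMap.mkContinuous_norm_le _ (by norm_num) _)
        (norm_nonneg _))
  · intro a ε hε
    obtain ⟨N₀, hN₀⟩ := dual_small a (ε / 2) (by positivity)
    refine ⟨N₀, fun N N' hN hN' x => ?_⟩
    rw [← map_sub]
    have h1 := hN₀ (PP N x + ev (N + 1) x • ss N' - x) (fun k hk => by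
      have : (PP N x + ev (N + 1) x • ss N' - x) k = (PP N x + ev (N + 1) x • ss N') k - x k := rfl
      rw [this, SS_apply N N' hN', if_pos (by omega), sub_self])
    refine h1.trans ?_
    have h2 : ‖PP N x + ev (N + 1) x • ss N' - x‖ ≤ 2 * ‖x‖ := by
      rw [nle _ _ (by positivity)]
      intro k
      have : (PP N x + ev (N + 1) x • ss N' - x) k = (PP N x + ev (N + 1) x • ss N') k - x k := rfl
      rw [this, SS_apply N N' hN']
      have hk := coord_le x k
      have hN1 := coord_le x (N + 1)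
      have hx := norm_nonneg x
      split_ifs
      · rw [sub_self, abs_zero]; positivity
      · exact (abs_sub _ _).trans (by linarith)
      · rw [zero_sub, abs_neg]; linarith
    calc ε / 2 * ‖PP N x + ev (N + 1) x • ss N' - x‖ ≤ ε / 2 * (2 * ‖x‖) := by gcongr
      _ = ε * ‖x‖ := by ring
  · intro x ε hε
    obtain ⟨N₀, hN₀⟩ := tendz x (ε / 2) (by positivity)
    refine ⟨N₀, fun N hN => ⟨?_, ?_⟩⟩
    · rw [nle _ _ hε.le]
      intro k
      have : (PP N x - x) k = PP N x k - x k := rfl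
      rw [this, PP_apply]
      split_ifs with h
      · rw [show x k - x (N + 1) - x k = - x (N + 1) by ring, abs_neg]
        linarith [hN₀ (N + 1) (by omega)]
      · rw [zero_sub, abs_neg]
        linarith [hN₀ k (by omega)]
    · rw [ev_apply]
      linarith [hN₀ (N + 1) (by omega)]

end Pool.Agent.H652.DL
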