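import Mathlib
import Pool.Agent.H652.DL.Defs

set_option autoImplicit false

namespace Pool.Agent.H652.DL

open Metric


/-- unit vectors -/
noncomputable def ggo_e (n : ℕ) : lp (fun _ : ℕ => ℝ) 1 := lp.single 1 n (1 : ℝ)

theorem ggo_e_norm (n : ℕ) : ‖ggo_e n‖ = 1 := by
  unfold ggo_e
  rw [lp.norm_single (by norm_num)]
  simp

theorem ggo_hs (y : lp (fun _ : ℕ => ℝ) 1) : HasSum (fun n => |y n|) ‖y‖ := by
  have h := lp.hasSum_norm (p := 1) (by norm_num) y
  simpa using h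

theorem ggo_sum (y : lp (fun _ : ℕ => ℝ) 1) : HasSum (fun n => y n • ggo_e n) y := by
  have h := lp.hasSum_single (p := 1) (by norm_num) y
  have h2 : (fun n => y n • ggo_e n) = fun i => lp.single (E := fun _ : ℕ => ℝ) 1 i (y i) := by
    funext n
    unfold ggo_e
    rw [← lp.single_smul]
    simp
  rw [h2]
  exact h

theorem ggo_summable (u : ℕ → lp (fun _ : ℕ => ℝ) 1) (C : ℝ) (hu : ∀ n, ‖u n‖ ≤ C)
    (y : lp (fun _ : ℕ => ℝ) 1) : Summable (fun n => y n • u n) ∧ ‖∑' n, y n • u n‖ ≤ C * ‖y‖ := by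
  have h1 := (ggo_hs y).mul_left C
  have h2 : ∀ n, ‖y n • u n‖ ≤ C * |y n| := by
    intro n
    rw [norm_smul, Real.norm_eq_abs, mul_comm]
    exact mul_le_mul_of_nonneg_right (hu n) (abs_nonneg _)
  have h3 : Summable (fun n => ‖y n • u n‖) := Summable.of_nonneg_of_le (fun n => norm_nonneg _) h2
    h1.summable
  exact ⟨h3.of_norm, tsum_of_norm_bounded h1 h2⟩

/-- the operator `e n ↦ u n` -/
theorem ggo_op (u : ℕ → lp (fun _ : ℕ => ℝ) 1) (C : ℝ) (hC : 0 ≤ C) (hu : ∀ n, ‖u n‖ ≤ C) :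
    ∃ v : lp (fun _ : ℕ => ℝ) 1 →L[ℝ] lp (fun _ : ℕ => ℝ) 1, ‖v‖ ≤ C ∧
      ∀ y, HasSum (fun n => y n • u n) (v y) := by
  let L : lp (fun _ : ℕ => ℝ) 1 →ₗ[ℝ] lp (fun _ : ℕ => ℝ) 1 :=
    { toFun := fun y => ∑' n, y n • u n
      map_add' := fun x y => by
        rw [← (ggo_summable u C hu x).1.tsum_add (ggo_summable u C hu y).1]
        apply tsum_congr
        intro n
        rw [← add_smul]
        rfl
      map_smul' := fun c y => by
        simp only [RingHom.id_apply]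
        rw [← (ggo_summable u C hu y).1.tsum_const_smul c]
        apply tsum_congr
        intro n
        rw [smul_smul]
        rfl }
  refine ⟨L.mkContinuous C (fun y => (ggo_summable u C hu y).2), ?_, ?_⟩
  · exact L.mkContinuous_norm_le hC _
  · intro y
    exact (ggo_summable u C hu y).1.hasSum

/-- choice of the cluster map -/
theorem ggo_sigma (G : Finset (StrongDual ℝ (lp (fun _ : ℕ => ℝ) 1))) (ε : ℝ) (hε : 0 < ε)
    (M : ℕ) : ∃ σ : ℕ → ℕ, (∀ n, n < M → σ n = n) ∧ (Set.range σ).Finite ∧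
      ∀ g ∈ G, ∀ n, |g (ggo_e (σ n)) - g (ggo_e n)| ≤ ε := by
  classical
  let ψ : ℕ → (G → ℤ) := fun n g => ⌊(g : StrongDual ℝ (lp (fun _ : ℕ => ℝ) 1)) (ggo_e n) / ε⌋
  have hfin : (Set.range ψ).Finite := by
    apply (Set.Finite.pi (fun g : G => Set.finite_Icc
      ⌊-‖(g : StrongDual ℝ (lp (fun _ : ℕ => ℝ) 1))‖ / ε⌋
      ⌊‖(g : StrongDual ℝ (lp (fun _ : ℕ => ℝ) 1))‖ / ε⌋)).subset
    rintro c ⟨n, rfl⟩
    rw [Set.mem_univ_pi]
    intro g
    have h1 : |(g : StrongDual ℝ (lp (fun _ : ℕ => ℝ) 1)) (ggo_e n)|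
        ≤ ‖(g : StrongDual ℝ (lp (fun _ : ℕ => ℝ) 1))‖ := by
      have := (g : StrongDual ℝ (lp (fun _ : ℕ => ℝ) 1)).le_opNorm (ggo_e n)
      rw [ggo_e_norm, mul_one] at this
      exact this
    rw [abs_le] at h1
    exact ⟨Int.floor_le_floor (div_le_div_of_nonneg_right h1.1 hε.le),
      Int.floor_le_floor (div_le_div_of_nonneg_right h1.2 hε.le)⟩
  let r : (G → ℤ) → ℕ := fun c => if h : ∃ m, ψ m = c then Classical.choose h else 0
  have hr : ∀ n, ψ (r (ψ n)) = ψ n := by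
    intro n
    have h : ∃ m, ψ m = ψ n := ⟨n, rfl⟩
    show ψ (if h : ∃ m, ψ m = ψ n then Classical.choose h else 0) = ψ n
    rw [dif_pos h]
    exact Classical.choose_spec h
  refine ⟨fun n => if n < M then n else r (ψ n), ?_, ?_, ?_⟩
  · intro n hn
    simp [hn]
  · apply ((Set.finite_Iio M).union (hfin.image r)).subset
    rintro c ⟨n, rfl⟩
    by_cases hn : n < M
    · left; simpa [hn] using hn
    · right
      simp only [hn, if_false]
      exact ⟨ψ n, ⟨n, rfl⟩, rfl⟩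
  · intro g hg n
    by_cases hn : n < M
    · simp only [hn, if_true, sub_self, abs_zero]; exact hε.le
    · simp only [hn, if_false]
      have h1 := congrFun (hr n) ⟨g, hg⟩
      have h2 : |g (ggo_e (r (ψ n))) / ε - g (ggo_e n) / ε| < 1 :=
        Int.abs_sub_lt_one_of_floor_eq_floor h1
      rw [← sub_div, abs_div, abs_of_pos hε, div_lt_one hε] at h2
      exact h2.le


theorem gg_one (B : Set (lp (fun _ : ℕ => ℝ) 1)) (h0 : 0 ∈ B) (hB1 : ∀ b ∈ B, ‖b‖ ≤ 1) :
    GG B 1 1 := by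
  intro G K ε hε
  obtain ⟨M, hM⟩ : ∃ M : ℕ, ∀ k ∈ K, ∑' n, |k (n + M)| < ε / 2 := by
    have h1 : ∀ k ∈ K, ∀ᶠ M in Filter.atTop, ∑' n, |k (n + M)| < ε / 2 := by
      intro k _
      exact (tendsto_sum_nat_add (fun n => |k n|)).eventually (gt_mem_nhds (half_pos hε))
    have h2 : ∀ᶠ M in Filter.atTop, ∀ k ∈ K, ∑' n, |k (n + M)| < ε / 2 :=
      (Filter.eventually_all_finset K).2 h1
    exact h2.exists
  obtain ⟨σ, hσ1, hσ2, hσ3⟩ := ggo_sigma G ε hε M
  obtain ⟨v, hv1, hv2⟩ := ggo_op (fun n => ggo_e (σ n)) 1 zero_le_one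
    (fun n => (ggo_e_norm _).le)
  have hdiff : ∀ y, HasSum (fun n => y n • (ggo_e (σ n) - ggo_e n)) (v y - y) := by
    intro y
    have := (hv2 y).sub (ggo_sum y)
    simpa only [smul_sub] using this
  refine ⟨v, ?_, hv1, ?_, ?_, ?_⟩
  · -- finite rank
    let S : Submodule ℝ (lp (fun _ : ℕ => ℝ) 1) := Submodule.span ℝ (ggo_e '' Set.range σ)
    haveI hS : FiniteDimensional ℝ S := FiniteDimensional.span_of_finite ℝ (hσ2.image _)
    have hcl : IsClosed (S : Set (lp (fun _ : ℕ => ℝ) 1)) := S.closed_of_finiteDimensional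
    have hle : LinearMap.range (v : lp (fun _ : ℕ => ℝ) 1 →ₗ[ℝ] lp (fun _ : ℕ => ℝ) 1) ≤ S := by
      rintro _ ⟨y, rfl⟩
      apply hcl.mem_of_tendsto (hv2 y)
      apply Filter.Eventually.of_forall
      intro s
      apply S.sum_mem
      intro n _
      exact S.smul_mem _ (Submodule.subset_span ⟨σ n, ⟨n, rfl⟩, rfl⟩)
    exact Submodule.finiteDimensional_of_le hle
  · intro g hg
    apply ContinuousLinearMap.opNorm_le_bound _ hε.le
    intro y
    have h1 : HasSum (fun n => g (y n • (ggo_e (σ n) - ggo_e n))) (g (v y - y)) :=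
      (hdiff y).mapL g
    have h2 : (g.comp v - g) y = g (v y - y) := by
      simp
    rw [h2, ← h1.tsum_eq]
    apply tsum_of_norm_bounded ((ggo_hs y).mul_left ε)
    intro n
    rw [map_smul, norm_smul, map_sub, Real.norm_eq_abs, Real.norm_eq_abs, mul_comm]
    exact mul_le_mul_of_nonneg_right (hσ3 g hg n) (abs_nonneg _)
  · intro k hk
    have hd := hdiff k
    have hdM := (hasSum_nat_add_iff' M).2 hd
    have hz : ∑ i ∈ Finset.range M, k i • (ggo_e (σ i) - ggo_e i) = 0 := by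
      apply Finset.sum_eq_zero
      intro i hi
      rw [hσ1 i (Finset.mem_range.1 hi), sub_self, smul_zero]
    rw [hz, sub_zero] at hdM
    rw [← hdM.tsum_eq]
    have hsk : Summable (fun n => |k (n + M)|) :=
      (summable_nat_add_iff M).2 (ggo_hs k).summable
    have h1 := hsk.hasSum.mul_left 2
    refine (tsum_of_norm_bounded h1 ?_).trans ?_
    · intro n
      rw [norm_smul, Real.norm_eq_abs, mul_comm]
      apply mul_le_mul_of_nonneg_right _ (abs_nonneg _)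
      calc ‖ggo_e (σ (n + M)) - ggo_e (n + M)‖
          ≤ ‖ggo_e (σ (n + M))‖ + ‖ggo_e (n + M)‖ := norm_sub_le _ _
        _ = 2 := by rw [ggo_e_norm, ggo_e_norm]; norm_num
    · have := hM k hk
      linarith
  · intro y hy
    refine ⟨0, h0, ?_⟩
    rw [sub_zero]
    calc ‖v y‖ ≤ ‖v‖ * ‖y‖ := v.le_opNorm y
      _ ≤ 1 * 1 := mul_le_mul hv1 (hB1 y hy) (norm_nonneg _) zero_le_one
      _ = 1 := by norm_num

end Pool.Agent.H652.DL
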