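import Mathlib
import Pool.Agent.H652.DL.Defs

set_option autoImplicit false

namespace Pool.Agent.H652.DL

open Metric



theorem gg_of_weak {L : Type} [NormedAddCommGroup L] [NormedSpace ℝ L] (B : Set L)
    (hB : Convex ℝ B) (lam t : ℝ)
    (H : ∀ (G : Finset (StrongDual ℝ L)) (ε : ℝ), 0 < ε →
      ∃ v : L →L[ℝ] L, FiniteDimensional ℝ (LinearMap.range (v : L →ₗ[ℝ] L)) ∧ ‖v‖ ≤ lam ∧
        (∀ g ∈ G, ‖g.comp v - g‖ ≤ ε) ∧ ∀ y ∈ B, ∃ b ∈ B, ‖v y - b‖ ≤ t) :
    GG B lam t := by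
  classical
  intro G K ε hε
  let Adm : Set (L →L[ℝ] L) := {v | FiniteDimensional ℝ (LinearMap.range (v : L →ₗ[ℝ] L)) ∧
    ‖v‖ ≤ lam ∧ (∀ g ∈ G, ‖g.comp v - g‖ ≤ ε) ∧ ∀ y ∈ B, ∃ b ∈ B, ‖v y - b‖ ≤ t}
  let Φ : (L →L[ℝ] L) → ({x // x ∈ K} → L) := fun v k => v k.1 - k.1
  have hconv : ∀ v ∈ Adm, ∀ w ∈ Adm, ∀ a b : ℝ, 0 ≤ a → 0 ≤ b → a + b = 1 →
      a • v + b • w ∈ Adm := by
    rintro v ⟨hv1, hv2, hv3, hv4⟩ w ⟨hw1, hw2, hw3, hw4⟩ a b ha hb hab
    refine ⟨?_, ?_, ?_, ?_⟩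
    · haveI := hv1
      haveI := hw1
      have hle : LinearMap.range ((a • v + b • w : L →L[ℝ] L) : L →ₗ[ℝ] L) ≤
          LinearMap.range (v : L →ₗ[ℝ] L) ⊔ LinearMap.range (w : L →ₗ[ℝ] L) := by
        rintro _ ⟨x, rfl⟩
        have : ((a • v + b • w : L →L[ℝ] L) : L →ₗ[ℝ] L) x = a • v x + b • w x := rfl
        rw [this]
        refine Submodule.add_mem_sup ?_ ?_
        · exact Submodule.smul_mem _ _ ⟨x, rfl⟩
        · exact Submodule.smul_mem _ _ ⟨x, rfl⟩
      exact Submodule.finiteDimensional_of_le hle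
    · calc ‖a • v + b • w‖ ≤ ‖a • v‖ + ‖b • w‖ := norm_add_le _ _
        _ = a * ‖v‖ + b * ‖w‖ := by
            rw [norm_smul, norm_smul, Real.norm_of_nonneg ha, Real.norm_of_nonneg hb]
        _ ≤ a * lam + b * lam :=
            add_le_add (mul_le_mul_of_nonneg_left hv2 ha) (mul_le_mul_of_nonneg_left hw2 hb)
        _ = lam := by rw [← add_mul, hab, one_mul]
    · intro g hg
      have h1 : g.comp (a • v + b • w) - g = a • (g.comp v - g) + b • (g.comp w - g) := by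
        have h2 : a • g + b • g = g := by rw [← add_smul, hab, one_smul]
        rw [ContinuousLinearMap.comp_add, ContinuousLinearMap.comp_smul,
          ContinuousLinearMap.comp_smul, smul_sub, smul_sub]
        nth_rewrite 3 [← h2]
        abel
      rw [h1]
      calc ‖a • (g.comp v - g) + b • (g.comp w - g)‖
          ≤ ‖a • (g.comp v - g)‖ + ‖b • (g.comp w - g)‖ := norm_add_le _ _
        _ = a * ‖g.comp v - g‖ + b * ‖g.comp w - g‖ := by
            rw [norm_smul, norm_smul, Real.norm_of_nonneg ha, Real.norm_of_nonneg hb]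
        _ ≤ a * ε + b * ε := add_le_add (mul_le_mul_of_nonneg_left (hv3 g hg) ha)
            (mul_le_mul_of_nonneg_left (hw3 g hg) hb)
        _ = ε := by rw [← add_mul, hab, one_mul]
    · intro y hy
      obtain ⟨b1, hb1, hb1'⟩ := hv4 y hy
      obtain ⟨b2, hb2, hb2'⟩ := hw4 y hy
      refine ⟨a • b1 + b • b2, hB hb1 hb2 ha hb hab, ?_⟩
      have h1 : (a • v + b • w) y - (a • b1 + b • b2) = a • (v y - b1) + b • (w y - b2) := by
        have : (a • v + b • w) y = a • v y + b • w y := rfl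
        rw [this, smul_sub, smul_sub]
        abel
      rw [h1]
      calc ‖a • (v y - b1) + b • (w y - b2)‖ ≤ ‖a • (v y - b1)‖ + ‖b • (w y - b2)‖ :=
            norm_add_le _ _
        _ = a * ‖v y - b1‖ + b * ‖w y - b2‖ := by
            rw [norm_smul, norm_smul, Real.norm_of_nonneg ha, Real.norm_of_nonneg hb]
        _ ≤ a * t + b * t := add_le_add (mul_le_mul_of_nonneg_left hb1' ha)
            (mul_le_mul_of_nonneg_left hb2' hb)
        _ = t := by rw [← add_mul, hab, one_mul]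
  have hC : Convex ℝ (Φ '' Adm) := by
    rintro _ ⟨v, hv, rfl⟩ _ ⟨w, hw, rfl⟩ a b ha hb hab
    refine ⟨a • v + b • w, hconv v hv w hw a b ha hb hab, ?_⟩
    funext k
    show (a • v + b • w) k.1 - k.1 = a • (v k.1 - k.1) + b • (w k.1 - k.1)
    have h1 : (a • v + b • w) k.1 = a • v k.1 + b • w k.1 := rfl
    have h2 : a • k.1 + b • k.1 = k.1 := by rw [← add_smul, hab, one_smul]
    rw [h1, smul_sub, smul_sub]
    nth_rewrite 3 [← h2]
    abel
  have h0 : (0 : {x // x ∈ K} → L) ∈ closure (Φ '' Adm) := by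
    by_contra hn
    obtain ⟨φ, u, hu, hφ⟩ := geometric_hahn_banach_point_closed hC.closure isClosed_closure hn
    rw [map_zero] at hu
    let φk : {x // x ∈ K} → StrongDual ℝ L := fun k =>
      φ.comp (ContinuousLinearMap.single ℝ (fun _ : {x // x ∈ K} => L) k)
    set S := ∑ k : {x // x ∈ K}, ‖k.1‖ with hS
    have hS0 : 0 ≤ S := Finset.sum_nonneg fun k _ => norm_nonneg _
    have hε' : 0 < min ε (u / (1 + S)) := lt_min hε (by positivity)
    obtain ⟨v, hv1, hv2, hv3, hv4⟩ := H (G ∪ Finset.univ.image φk) (min ε (u / (1 + S))) hε'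
    have hvA : v ∈ Adm := by
      refine ⟨hv1, hv2, ?_, hv4⟩
      intro g hg
      exact (hv3 g (Finset.mem_union_left _ hg)).trans (min_le_left _ _)
    have h1 := hφ (Φ v) (subset_closure ⟨v, hvA, rfl⟩)
    have h2 : φ (Φ v) = ∑ k, (φk k) (v k.1 - k.1) := by
      have h3 : Φ v = ∑ k, Pi.single k (v k.1 - k.1) := by
        exact (Finset.univ_sum_single (Φ v)).symm
      rw [h3, map_sum]
      rfl
    have h4 : φ (Φ v) ≤ ∑ k : {x // x ∈ K}, (u / (1 + S)) * ‖k.1‖ := by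
      rw [h2]
      apply Finset.sum_le_sum
      intro k _
      have h5 := hv3 (φk k) (Finset.mem_union_right _ (Finset.mem_image_of_mem _ (Finset.mem_univ k)))
      have h6 : (φk k) (v k.1 - k.1) = ((φk k).comp v - φk k) k.1 := by
        rw [map_sub]
        rfl
      rw [h6]
      calc ((φk k).comp v - φk k) k.1 ≤ ‖((φk k).comp v - φk k) k.1‖ := Real.le_norm_self _
        _ ≤ ‖(φk k).comp v - φk k‖ * ‖k.1‖ := ContinuousLinearMap.le_opNorm _ _
        _ ≤ (u / (1 + S)) * ‖k.1‖ :=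
            mul_le_mul_of_nonneg_right (h5.trans (min_le_right _ _)) (norm_nonneg _)
    rw [← Finset.mul_sum, ← hS] at h4
    have h7 : u / (1 + S) * S ≤ u := by
      rw [div_mul_eq_mul_div, div_le_iff₀ (by positivity)]
      nlinarith
    linarith
  rw [Metric.mem_closure_iff] at h0
  obtain ⟨_, ⟨v, hvA, rfl⟩, hv⟩ := h0 ε hε
  obtain ⟨hv1, hv2, hv3, hv4⟩ := hvA
  refine ⟨v, hv1, hv2, hv3, ?_, hv4⟩
  intro k hk
  rw [dist_zero_left] at hv
  exact (norm_le_pi_norm (Φ v) ⟨k, hk⟩).trans hv.le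

end Pool.Agent.H652.DL
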