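import Mathlib
import Pool.Agent.H652.DL.Defs

set_option autoImplicit false

namespace Pool.Agent.H652.DL

open Metric



theorem helly {E : Type} [NormedAddCommGroup E] [NormedSpace ℝ E]
    (Γ : Submodule ℝ (StrongDual ℝ E)) [FiniteDimensional ℝ Γ] (s : E) (c c' : ℝ) (hc : 0 ≤ c)
    (hcc : c < c') (hs : ∀ γ ∈ Γ, |γ s| ≤ c * ‖γ‖) :
    ∃ z : E, ‖z‖ ≤ c' ∧ ∀ γ ∈ Γ, γ z = γ s := by
  let M : Submodule ℝ E :=
    { carrier := {x | ∀ γ ∈ Γ, γ x = 0}
      add_mem' := by
        intro a b ha hb γ hγ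
        rw [map_add, ha γ hγ, hb γ hγ, add_zero]
      zero_mem' := by
        intro γ _
        exact map_zero γ
      smul_mem' := by
        intro r x hx γ hγ
        rw [map_smul, hx γ hγ, smul_zero] }
  have hMmem : ∀ x, x ∈ M ↔ ∀ γ ∈ Γ, γ x = 0 := fun x => Iff.rfl
  have hMc : IsClosed (M : Set E) := by
    have : (M : Set E) = ⋂ γ ∈ Γ, {x | γ x = 0} := by
      ext x
      simp only [SetLike.mem_coe, hMmem, Set.mem_iInter]
      rfl
    rw [this]
    exact isClosed_biInter (fun γ _ => isClosed_eq γ.continuous continuous_const)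
  have : IsClosed (M : Set E) := hMc
  have key : ‖(Submodule.Quotient.mk s : E ⧸ M)‖ ≤ c := by
    by_contra hcon
    push Not at hcon
    have hne : ‖(Submodule.Quotient.mk s : E ⧸ M)‖ ≠ 0 := by
      intro h
      linarith
    obtain ⟨g, hg1, hg2⟩ := exists_dual_vector ℝ (Submodule.Quotient.mk s : E ⧸ M) hne
    let f0 : E →ₗ[ℝ] ℝ := (g : (E ⧸ M) →ₗ[ℝ] ℝ).comp M.mkQ
    have hf0 : ∀ x, f0 x = g (Submodule.Quotient.mk x) := fun x => rfl
    have hfb : ∀ x, ‖f0 x‖ ≤ 1 * ‖x‖ := by
      intro x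
      rw [hf0]
      have h1 := g.le_opNorm (Submodule.Quotient.mk x)
      rw [hg1] at h1
      refine h1.trans ?_
      exact mul_le_mul_of_nonneg_left (Submodule.Quotient.norm_mk_le M x) zero_le_one
    let f : StrongDual ℝ E := f0.mkContinuous 1 hfb
    have hf : ∀ x, f x = g (Submodule.Quotient.mk x) := fun x => rfl
    have hf1 : ‖f‖ ≤ 1 := LinearMap.mkContinuous_norm_le _ zero_le_one hfb
    have : Module.Free ℝ Γ := Module.Free.of_divisionRing ℝ Γ
    let b := Module.finBasis ℝ Γ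
    have hspan : (f : E →ₗ[ℝ] ℝ) ∈ Submodule.span ℝ
        (Set.range (fun i => (((b i : Γ) : StrongDual ℝ E) : E →ₗ[ℝ] ℝ))) := by
      apply mem_span_of_iInf_ker_le_ker
      intro x hx
      rw [Submodule.mem_iInf] at hx
      rw [LinearMap.mem_ker]
      have hxM : x ∈ M := by
        rw [hMmem]
        intro γ hγ
        have h1 := b.sum_repr ⟨γ, hγ⟩
        have h2 : γ = ∑ i, (b.repr ⟨γ, hγ⟩ i) • ((b i : Γ) : StrongDual ℝ E) := by
          have := congrArg (fun z : Γ => (z : StrongDual ℝ E)) h1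
          simp only [Submodule.coe_sum, Submodule.coe_smul] at this
          exact this.symm
        rw [h2, _root_.sum_apply]
        apply Finset.sum_eq_zero
        intro i _
        have h3 : ((b i : Γ) : StrongDual ℝ E) x = 0 := hx i
        rw [_root_.smul_apply, h3, smul_zero]
      show g (Submodule.Quotient.mk x) = 0
      rw [(Submodule.Quotient.mk_eq_zero M).2 hxM, map_zero]
    obtain ⟨a, ha⟩ := (Submodule.mem_span_range_iff_exists_fun ℝ).1 hspan
    have hfΓ : f ∈ Γ := by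
      have : f = ∑ i, a i • ((b i : Γ) : StrongDual ℝ E) := by
        ext x
        have := congrArg (fun z : E →ₗ[ℝ] ℝ => z x) ha
        simp only [LinearMap.sum_apply, LinearMap.smul_apply] at this
        rw [_root_.sum_apply]
        exact this.symm
      rw [this]
      exact Γ.sum_mem (fun i _ => Γ.smul_mem _ (b i).2)
    have h1 := hs f hfΓ
    rw [hf, hg2] at h1
    have h2 : |‖(Submodule.Quotient.mk s : E ⧸ M)‖| = ‖(Submodule.Quotient.mk s : E ⧸ M)‖ :=
      abs_of_nonneg (norm_nonneg _)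
    have h3 : c * ‖f‖ ≤ c := by nlinarith
    simp only [RCLike.ofReal_real_eq_id, id] at h1
    rw [h2] at h1
    linarith
  obtain ⟨z, hz1, hz2⟩ := Submodule.Quotient.norm_mk_lt (Submodule.Quotient.mk s : E ⧸ M)
    (sub_pos.2 hcc)
  refine ⟨z, by linarith, ?_⟩
  intro γ hγ
  have h1 : z - s ∈ M := (Submodule.Quotient.eq M).1 hz1
  have h2 := (hMmem _).1 h1 γ hγ
  rw [map_sub] at h2
  linarith

end Pool.Agent.H652.DL
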