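import Mathlib
import Pool.Agent.H652.DL.Defs

set_option autoImplicit false

namespace Pool.Agent.H652.DL

open Metric



theorem infDist_le_of_ann {E : Type} [NormedAddCommGroup E] [NormedSpace ℝ E]
    (Γ : Submodule ℝ (StrongDual ℝ E)) [FiniteDimensional ℝ Γ] (f : StrongDual ℝ E) (r : ℝ)
    (hr : 0 ≤ r) (h : ∀ x, (∀ γ ∈ Γ, γ x = 0) → |f x| ≤ r * ‖x‖) :
    infDist f (Γ : Set (StrongDual ℝ E)) ≤ r := by
  let M : Submodule ℝ E :=
    { carrier := {x | ∀ γ ∈ Γ, γ x = 0}
      add_mem' := by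
        intro x y hx hy γ hγ
        rw [map_add, hx γ hγ, hy γ hγ, add_zero]
      zero_mem' := by
        intro γ _
        exact map_zero γ
      smul_mem' := by
        intro c x hx γ hγ
        rw [map_smul, hx γ hγ, smul_zero] }
  obtain ⟨g, hg1, hg2⟩ := exists_extension_norm_eq M (f.comp M.subtypeL)
  have hgr : ‖g‖ ≤ r := by
    rw [hg2]
    refine ContinuousLinearMap.opNorm_le_bound _ hr ?_
    intro x
    exact h x.1 x.2
  haveI hfree : Module.Free ℝ Γ := Module.Free.of_divisionRing ℝ Γ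
  let b := Module.finBasis ℝ Γ
  have hspan : ((f - g : StrongDual ℝ E) : E →ₗ[ℝ] ℝ) ∈
      Submodule.span ℝ (Set.range fun i => (((b i : Γ) : StrongDual ℝ E) : E →ₗ[ℝ] ℝ)) := by
    apply mem_span_of_iInf_ker_le_ker
    intro x hx
    rw [Submodule.mem_iInf] at hx
    have hxM : x ∈ M := by
      intro γ hγ
      have h1 := b.sum_repr ⟨γ, hγ⟩
      have h2 : γ = ∑ i, b.repr ⟨γ, hγ⟩ i • ((b i : Γ) : StrongDual ℝ E) := by
        have h7 : γ = ((∑ i, b.repr ⟨γ, hγ⟩ i • b i : Γ) : StrongDual ℝ E) :=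
          (congrArg Subtype.val h1).symm
        rw [Submodule.coe_sum] at h7
        exact h7
      rw [h2, ContinuousLinearMap.sum_apply]
      refine Finset.sum_eq_zero fun i _ => ?_
      have h3 : ((b i : Γ) : StrongDual ℝ E) x = 0 := hx i
      rw [ContinuousLinearMap.smul_apply, h3, smul_zero]
    have h4 : g x = f x := hg1 ⟨x, hxM⟩
    show (f - g) x = 0
    rw [ContinuousLinearMap.sub_apply, h4, sub_self]
  obtain ⟨c, hc⟩ := (Submodule.mem_span_range_iff_exists_fun ℝ).1 hspan
  have hmem : f - g ∈ Γ := by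
    have : f - g = ∑ i, c i • ((b i : Γ) : StrongDual ℝ E) := by
      ext x
      have h5 := LinearMap.congr_fun hc x
      simp only [LinearMap.sum_apply, LinearMap.smul_apply] at h5
      rw [ContinuousLinearMap.sum_apply]
      exact h5.symm
    rw [this]
    exact Γ.sum_mem fun i _ => Γ.smul_mem _ (b i).2
  have h6 := infDist_le_dist_of_mem (x := f) (s := (Γ : Set (StrongDual ℝ E))) hmem
  rw [dist_eq_norm, sub_sub_cancel] at h6
  exact h6.trans hgr

end Pool.Agent.H652.DL
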