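import Mathlib
import Pool.Agent.H652.DL.Defs
import Pool.Agent.H652.DL.Jinfann

set_option autoImplicit false

namespace Pool.Agent.H652.DL

open Metric




theorem exists_isNormOf {E : Type} [NormedAddCommGroup E] [NormedSpace ℝ E]
    (Γ : Submodule ℝ (StrongDual ℝ E)) [FiniteDimensional ℝ Γ] (β : ℝ) (hβ : 0 < β) :
    ∃ N : Seminorm ℝ E, IsNormOf N Γ β := by
  have hd0 : ∀ g : StrongDual ℝ E, infDist g (Γ : Set (StrongDual ℝ E)) ≤ ‖g‖ := by
    intro g
    have := infDist_le_dist_of_mem (x := g) (show (0 : StrongDual ℝ E) ∈ (Γ : Set (StrongDual ℝ E))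
      from Γ.zero_mem)
    rwa [dist_zero_right] at this
  have hΓn : (Γ : Set (StrongDual ℝ E)).Nonempty := ⟨0, Γ.zero_mem⟩
  let M : StrongDual ℝ E → ℝ := fun g => ‖g‖ + 4 * β * infDist g (Γ : Set (StrongDual ℝ E))
  have hMge : ∀ g, ‖g‖ ≤ M g := by
    intro g
    have h1 : 0 ≤ infDist g (Γ : Set (StrongDual ℝ E)) := infDist_nonneg
    have h2 : 0 ≤ 4 * β * infDist g (Γ : Set (StrongDual ℝ E)) := by positivity
    show ‖g‖ ≤ ‖g‖ + 4 * β * infDist g (Γ : Set (StrongDual ℝ E))
    linarith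
  have hMle : ∀ g, M g ≤ (1 + 4 * β) * ‖g‖ := by
    intro g
    have h1 := hd0 g
    have h2 : 4 * β * infDist g (Γ : Set (StrongDual ℝ E)) ≤ 4 * β * ‖g‖ :=
      mul_le_mul_of_nonneg_left h1 (by positivity)
    show ‖g‖ + 4 * β * infDist g (Γ : Set (StrongDual ℝ E)) ≤ _
    linarith
  have hdsm : ∀ (c : ℝ) (g : StrongDual ℝ E), infDist (c • g) (Γ : Set (StrongDual ℝ E)) ≤
      |c| * infDist g (Γ : Set (StrongDual ℝ E)) := by
    intro c g
    by_cases hc : c = 0
    · subst hc
      simp only [zero_smul, abs_zero, zero_mul]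
      have := hd0 (0 : StrongDual ℝ E)
      rwa [norm_zero] at this
    · have hc' : 0 < |c| := abs_pos.2 hc
      rw [← div_le_iff₀' hc']
      apply (le_infDist hΓn).2
      intro γ hγ
      rw [div_le_iff₀' hc']
      have h1 : infDist (c • g) (Γ : Set (StrongDual ℝ E)) ≤ dist (c • g) (c • γ) :=
        infDist_le_dist_of_mem (Γ.smul_mem c hγ)
      have h2 : dist (c • g) (c • γ) = |c| * dist g γ := by
        have e : c • g - c • γ = c • (g - γ) := by
          ext x
          show c * g x - c * γ x = c * (g x - γ x)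
          ring
        rw [dist_eq_norm, dist_eq_norm, e, norm_smul, Real.norm_eq_abs]
      rwa [h2] at h1
  have hMsm : ∀ (c : ℝ) (g : StrongDual ℝ E), M (c • g) ≤ |c| * M g := by
    intro c g
    show ‖c • g‖ + 4 * β * infDist (c • g) (Γ : Set (StrongDual ℝ E)) ≤
      |c| * (‖g‖ + 4 * β * infDist g (Γ : Set (StrongDual ℝ E)))
    have h1 := mul_le_mul_of_nonneg_left (hdsm c g) (by positivity : (0:ℝ) ≤ 4 * β)
    rw [norm_smul, Real.norm_eq_abs]
    nlinarith [h1]
  let n : E → ℝ := fun x => ⨆ g : {g : StrongDual ℝ E // M g ≤ 1}, |g.1 x|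
  have hne : Nonempty {g : StrongDual ℝ E // M g ≤ 1} :=
    ⟨⟨0, (hMle 0).trans (by simp)⟩⟩
  have hbd : ∀ x, BddAbove (Set.range fun g : {g : StrongDual ℝ E // M g ≤ 1} => |g.1 x|) := by
    intro x
    refine ⟨‖x‖, ?_⟩
    rintro _ ⟨g, rfl⟩
    have h1 : |g.1 x| ≤ ‖g.1‖ * ‖x‖ := g.1.le_opNorm x
    have h2 : ‖g.1‖ ≤ 1 := (hMge g.1).trans g.2
    calc |g.1 x| ≤ ‖g.1‖ * ‖x‖ := h1
      _ ≤ 1 * ‖x‖ := mul_le_mul_of_nonneg_right h2 (norm_nonneg _)
      _ = ‖x‖ := one_mul _
  have hle : ∀ (g : StrongDual ℝ E), M g ≤ 1 → ∀ x, |g x| ≤ n x := fun g hg x =>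
    le_ciSup (hbd x) ⟨g, hg⟩
  have hle' : ∀ x r, (∀ g : StrongDual ℝ E, M g ≤ 1 → |g x| ≤ r) → n x ≤ r := by
    intro x r h
    exact ciSup_le fun g => h g.1 g.2
  have hgen : ∀ (f : StrongDual ℝ E) (x : E), |f x| ≤ M f * n x := by
    intro f x
    by_cases hf : M f = 0
    · have h1 : ‖f‖ ≤ 0 := hf ▸ hMge f
      have h2 : f = 0 := norm_le_zero_iff.1 h1
      rw [h2]
      simp only [FunLike.coe_zero, Pi.zero_apply, abs_zero]
      have h3 : 0 ≤ n x := (abs_nonneg _).trans (hle 0 ((hMle 0).trans (by simp)) x)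
      exact mul_nonneg ((norm_nonneg _).trans (hMge 0)) h3
    · have hpos : 0 < M f := lt_of_le_of_ne ((norm_nonneg _).trans (hMge f)) (Ne.symm hf)
      have h1 : M ((M f)⁻¹ • f) ≤ 1 := by
        have := hMsm (M f)⁻¹ f
        rw [abs_of_pos (inv_pos.2 hpos), inv_mul_cancel₀ hf] at this
        exact this
      have h2 := hle _ h1 x
      have h3 : |((M f)⁻¹ • f) x| = (M f)⁻¹ * |f x| := by
        show |(M f)⁻¹ * f x| = _
        rw [abs_mul, abs_of_pos (inv_pos.2 hpos)]
      rw [h3, inv_mul_le_iff₀ hpos] at h2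
      exact h2
  let N : Seminorm ℝ E := Seminorm.of n
    (by
      intro x y
      apply hle'
      intro g hg
      rw [map_add]
      exact (abs_add_le _ _).trans (add_le_add (hle g hg x) (hle g hg y)))
    (by
      intro a x
      show (⨆ g : {g : StrongDual ℝ E // M g ≤ 1}, |g.1 (a • x)|) =
        ‖a‖ * ⨆ g : {g : StrongDual ℝ E // M g ≤ 1}, |g.1 x|
      rw [Real.mul_iSup_of_nonneg (norm_nonneg a)]
      congr 1
      funext g
      rw [map_smul, smul_eq_mul, abs_mul, Real.norm_eq_abs])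
  have hN : ∀ x, N x = n x := fun x => rfl
  refine ⟨N, ⟨(1 + 4 * β)⁻¹, 1, by positivity, ?_⟩, ?_⟩
  · intro x
    constructor
    · rw [hN, inv_mul_le_iff₀ (by positivity)]
      obtain ⟨g, hg1, hg2⟩ := exists_dual_vector'' ℝ x
      have h1 := hgen g x
      rw [hg2] at h1
      have h2 : M g ≤ 1 + 4 * β := by
        have h3 := hMle g
        have h4 : (1 + 4 * β) * ‖g‖ ≤ (1 + 4 * β) * 1 :=
          mul_le_mul_of_nonneg_left hg1 (by positivity)
        linarith
      have h0 : 0 ≤ n x := (abs_nonneg _).trans (hle 0 ((hMle 0).trans (by simp)) x)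
      have h5 : |((‖x‖ : ℝ) : ℝ)| = ‖x‖ := abs_of_nonneg (norm_nonneg x)
      calc ‖x‖ = |‖x‖| := h5.symm
        _ ≤ M g * n x := h1
        _ ≤ (1 + 4 * β) * n x := mul_le_mul_of_nonneg_right h2 h0
    · rw [hN, one_mul]
      apply hle'
      intro g hg
      calc |g x| ≤ ‖g‖ * ‖x‖ := g.le_opNorm x
        _ ≤ 1 * ‖x‖ := mul_le_mul_of_nonneg_right ((hMge g).trans hg) (norm_nonneg _)
        _ = ‖x‖ := one_mul _
  · intro f
    constructor
    · rintro r ⟨x, hx, rfl⟩
      rw [hN] at hx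
      calc |f x| ≤ M f * n x := hgen f x
        _ ≤ M f * 1 := mul_le_mul_of_nonneg_left hx ((norm_nonneg _).trans (hMge f))
        _ = _ := mul_one _
    · intro r hr
      have key : ∀ x w : E, ‖x‖ ≤ 1 → ‖w‖ ≤ 1 → (∀ γ ∈ Γ, γ w = 0) →
          |f x| + 4 * β * |f w| ≤ r := by
        have key0 : ∀ x w : E, ‖x‖ ≤ 1 → ‖w‖ ≤ 1 → (∀ γ ∈ Γ, γ w = 0) →
            |f x + 4 * β * f w| ≤ r := by
          intro x w hx hw hΓ
          apply hr
          refine ⟨x + (4 * β) • w, ?_, ?_⟩
          · rw [hN]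
            apply hle'
            intro g hg
            rw [map_add, map_smul, smul_eq_mul]
            have h1 : |g x| ≤ ‖g‖ := by
              calc |g x| ≤ ‖g‖ * ‖x‖ := g.le_opNorm x
                _ ≤ ‖g‖ * 1 := mul_le_mul_of_nonneg_left hx (norm_nonneg _)
                _ = ‖g‖ := mul_one _
            have h2 : |g w| ≤ infDist g (Γ : Set (StrongDual ℝ E)) := by
              apply (le_infDist hΓn).2
              intro γ hγ
              have h3 : g w = (g - γ) w := by
                show g w = g w - γ w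
                rw [hΓ γ hγ, sub_zero]
              rw [h3, dist_eq_norm]
              calc |(g - γ) w| ≤ ‖g - γ‖ * ‖w‖ := (g - γ).le_opNorm w
                _ ≤ ‖g - γ‖ * 1 := mul_le_mul_of_nonneg_left hw (norm_nonneg _)
                _ = ‖g - γ‖ := mul_one _
            calc |g x + 4 * β * g w| ≤ |g x| + |4 * β * g w| := abs_add_le _ _
              _ = |g x| + 4 * β * |g w| := by
                rw [abs_mul, abs_of_nonneg (by positivity : (0:ℝ) ≤ 4 * β)]
              _ ≤ ‖g‖ + 4 * β * infDist g (Γ : Set (StrongDual ℝ E)) :=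
                add_le_add h1 (mul_le_mul_of_nonneg_left h2 (by positivity))
              _ ≤ 1 := hg
          · rw [map_add, map_smul, smul_eq_mul]
        intro x w hx hw hΓ
        have h1 := key0 x w hx hw hΓ
        have h2 := key0 x (-w) hx (by rwa [norm_neg]) (fun γ hγ => by rw [map_neg, hΓ γ hγ, neg_zero])
        rw [map_neg] at h2
        rw [abs_le] at h1 h2
        rcases abs_cases (f x) with ⟨e1, _⟩ | ⟨e1, _⟩ <;>
          rcases abs_cases (f w) with ⟨e2, _⟩ | ⟨e2, _⟩ <;> rw [e1, e2] <;> nlinarith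
      have hz : ∀ γ ∈ Γ, γ (0 : E) = 0 := fun γ _ => map_zero γ
      have hnorm : ∀ w : E, ‖w‖ ≤ 1 → (∀ γ ∈ Γ, γ w = 0) → ‖f‖ ≤ r - 4 * β * |f w| := by
        intro w hw hΓ
        have h0 : 0 ≤ r - 4 * β * |f w| := by
          have := key 0 w (by simp) hw hΓ
          rw [map_zero, abs_zero] at this
          linarith
        apply ContinuousLinearMap.opNorm_le_of_unit_norm h0
        intro x hx
        have := key x w hx.le hw hΓ
        rw [Real.norm_eq_abs]
        linarith
      have hfr : ‖f‖ ≤ r := by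
        have := hnorm 0 (by simp) hz
        rw [map_zero, abs_zero, mul_zero, sub_zero] at this
        exact this
      have h4 : infDist f (Γ : Set (StrongDual ℝ E)) ≤ (r - ‖f‖) / (4 * β) := by
        apply infDist_le_of_ann Γ f _ (div_nonneg (by linarith) (by positivity))
        intro w hΓ
        by_cases hw : w = 0
        · subst hw; simp
        · have hwp : 0 < ‖w‖ := norm_pos_iff.2 hw
          have h5 := hnorm (‖w‖⁻¹ • w) (by
            rw [norm_smul, norm_inv, norm_norm, inv_mul_cancel₀ hwp.ne'])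
            (fun γ hγ => by rw [map_smul, hΓ γ hγ, smul_zero])
          rw [map_smul, smul_eq_mul, abs_mul, abs_of_pos (inv_pos.2 hwp)] at h5
          rw [div_mul_eq_mul_div, le_div_iff₀ (by positivity)]
          have h6 : 4 * β * (‖w‖⁻¹ * |f w|) ≤ r - ‖f‖ := by linarith
          have h7 := mul_le_mul_of_nonneg_right h6 hwp.le
          have h8 : 4 * β * (‖w‖⁻¹ * |f w|) * ‖w‖ = |f w| * (4 * β) := by
            field_simp
          rw [h8] at h7
          exact h7
      rw [le_div_iff₀ (by positivity)] at h4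
      nlinarith [h4]

end Pool.Agent.H652.DL
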