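import Mathlib
import Pool.Agent.H652.DL.Defs

set_option autoImplicit false

namespace Pool.Agent.H652.DL

open Metric



theorem limsup_c {G : ℕ → Type} [∀ i, NormedAddCommGroup (G i)] [∀ i, NormedSpace ℝ (G i)]
    (c : ∀ j, lp (fun _ : ℕ => ℝ) 1 →L[ℝ] G j) (h1 : ∀ j x, ‖c j x‖ ≤ 2 * ‖x‖)
    (h2 : ∀ n : ℕ, ∀ δ : ℝ, 0 < δ → ∀ᶠ j in Filter.atTop, ‖c j (lp.single 1 n 1)‖ ≤ 1 + δ)
    (x : lp (fun _ : ℕ => ℝ) 1) (δ : ℝ) (hδ : 0 < δ) :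
    ∀ᶠ j in Filter.atTop, ‖c j x‖ ≤ ‖x‖ + δ := by
  classical
  have hsum : HasSum (fun i : ℕ => (lp.single 1 i (x i) : lp (fun _ : ℕ => ℝ) 1)) x :=
    lp.hasSum_single (by norm_num) x
  have hev := (Metric.tendsto_nhds.1 hsum) (δ / 4) (by positivity)
  obtain ⟨s, hs⟩ := hev.exists
  have hs' : ‖x - ∑ i ∈ s, (lp.single 1 i (x i) : lp (fun _ : ℕ => ℝ) 1)‖ < δ / 4 := by
    rw [dist_comm, dist_eq_norm] at hs
    exact hs
  have hnorm : ∑ i ∈ s, |x i| ≤ ‖x‖ := by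
    have h := lp.hasSum_norm (p := 1) (by norm_num) x
    simp only [ENNReal.toReal_one, Real.rpow_one, Real.norm_eq_abs] at h
    exact sum_le_hasSum s (fun i _ => abs_nonneg _) h
  set δ' : ℝ := δ / (2 * (‖x‖ + 1)) with hδ'
  have hx0 : 0 ≤ ‖x‖ := norm_nonneg x
  have hδ'0 : 0 < δ' := by positivity
  have hδ'x : ‖x‖ * δ' ≤ δ / 2 := by
    have h1 : (‖x‖ + 1) * δ' = δ / 2 := by
      rw [hδ']
      field_simp
    nlinarith
  have hall : ∀ᶠ j in Filter.atTop, ∀ n ∈ s,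
      ‖c j (lp.single 1 n 1 : lp (fun _ : ℕ => ℝ) 1)‖ ≤ 1 + δ' := by
    rw [Finset.eventually_all]
    exact fun n _ => h2 n δ' hδ'0
  filter_upwards [hall] with j hj
  have hsingle : ∀ i, (lp.single 1 i (x i) : lp (fun _ : ℕ => ℝ) 1) =
      (x i) • (lp.single 1 i (1 : ℝ) : lp (fun _ : ℕ => ℝ) 1) := by
    intro i
    rw [← lp.single_smul]
    simp
  have h3 : ‖c j (∑ i ∈ s, (lp.single 1 i (x i) : lp (fun _ : ℕ => ℝ) 1))‖ ≤
      (∑ i ∈ s, |x i|) * (1 + δ') := by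
    rw [map_sum, Finset.sum_mul]
    refine (norm_sum_le _ _).trans (Finset.sum_le_sum (fun i hi => ?_))
    rw [hsingle i, map_smul, norm_smul, Real.norm_eq_abs]
    exact mul_le_mul_of_nonneg_left (hj i hi) (abs_nonneg _)
  have h4 : ‖c j (x - ∑ i ∈ s, (lp.single 1 i (x i) : lp (fun _ : ℕ => ℝ) 1))‖ ≤ 2 * (δ / 4) :=
    (h1 j _).trans (by linarith)
  have h5 : c j x = c j (∑ i ∈ s, (lp.single 1 i (x i) : lp (fun _ : ℕ => ℝ) 1)) +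
      c j (x - ∑ i ∈ s, (lp.single 1 i (x i) : lp (fun _ : ℕ => ℝ) 1)) := by
    rw [← map_add]
    congr 1
    abel
  calc ‖c j x‖ ≤ _ := by rw [h5]; exact norm_add_le _ _
    _ ≤ (∑ i ∈ s, |x i|) * (1 + δ') + 2 * (δ / 4) := add_le_add h3 h4
    _ ≤ ‖x‖ * (1 + δ') + 2 * (δ / 4) := by
        have : (∑ i ∈ s, |x i|) * (1 + δ') ≤ ‖x‖ * (1 + δ') :=
          mul_le_mul_of_nonneg_right hnorm (by linarith)
        linarith
    _ ≤ ‖x‖ + δ := by linarith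

end Pool.Agent.H652.DL
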