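import Mathlib
import Pool.Agent.H652.DL.Defs

set_option autoImplicit false

namespace Pool.Agent.H652.DL

open Metric



theorem sup_dual {E : Type} [NormedAddCommGroup E] [NormedSpace ℝ E] (M : ℕ)
    (H : StrongDual ℝ (Fin M → E)) :
    ∑ k : Fin M, ‖H.comp (ContinuousLinearMap.single ℝ (fun _ : Fin M => E) k)‖ ≤ ‖H‖ := by
  apply le_of_forall_pos_le_add
  intro δ hδ
  have hε : 0 < δ / (M + 1) := by positivity
  have hex : ∀ k : Fin M, ∃ y : E, ‖y‖ ≤ 1 ∧
      ‖H.comp (ContinuousLinearMap.single ℝ (fun _ : Fin M => E) k)‖ - δ / (M + 1) ≤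
        (H.comp (ContinuousLinearMap.single ℝ (fun _ : Fin M => E) k)) y := by
    intro k
    obtain ⟨x, hx1, hx2⟩ := ContinuousLinearMap.exists_lt_apply_of_lt_opNorm
      (H.comp (ContinuousLinearMap.single ℝ (fun _ : Fin M => E) k))
      (sub_lt_self _ hε)
    rcases le_total 0 ((H.comp (ContinuousLinearMap.single ℝ (fun _ : Fin M => E) k)) x) with h | h
    · refine ⟨x, hx1.le, ?_⟩
      rw [Real.norm_eq_abs, abs_of_nonneg h] at hx2
      exact hx2.le
    · refine ⟨-x, by rw [norm_neg]; exact hx1.le, ?_⟩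
      rw [Real.norm_eq_abs, abs_of_nonpos h] at hx2
      rw [map_neg]
      exact hx2.le
  choose y hy1 hy2 using hex
  have hH : H y = ∑ k, (H.comp (ContinuousLinearMap.single ℝ (fun _ : Fin M => E) k)) (y k) := by
    conv_lhs => rw [← Finset.univ_sum_single y, map_sum]
    rfl
  have hyn : ‖y‖ ≤ 1 := (pi_norm_le_iff_of_nonneg zero_le_one).2 hy1
  have h1 : H y ≤ ‖H‖ := by
    calc H y ≤ ‖H y‖ := le_abs_self _
      _ ≤ ‖H‖ * ‖y‖ := H.le_opNorm y
      _ ≤ ‖H‖ * 1 := mul_le_mul_of_nonneg_left hyn (norm_nonneg _)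
      _ = ‖H‖ := mul_one _
  have h2 : ∑ k : Fin M, (‖H.comp (ContinuousLinearMap.single ℝ (fun _ : Fin M => E) k)‖ -
      δ / (M + 1)) ≤ H y := by
    rw [hH]
    exact Finset.sum_le_sum fun k _ => hy2 k
  rw [Finset.sum_sub_distrib, Finset.sum_const, Finset.card_univ, Fintype.card_fin,
    nsmul_eq_mul] at h2
  have h3 : (M : ℝ) * (δ / (M + 1)) ≤ δ := by
    rw [mul_div_assoc', div_le_iff₀ (by positivity)]
    nlinarith
  linarith

end Pool.Agent.H652.DL
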