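import Mathlib
import Pool.Agent.H652.DL.Defs
import Pool.Agent.H652.DL.Jsupdual

set_option autoImplicit false

namespace Pool.Agent.H652.DL

open Metric




/-- the linear map `A z = (∑ j, a j k • z j)_k`. -/
def Amap833 {E : Type} [NormedAddCommGroup E] [NormedSpace ℝ E] (m M : ℕ)
    (a : Fin m → Fin M → ℝ) : (Fin m → E) →ₗ[ℝ] (Fin M → E) where
  toFun z := fun k => ∑ j, a j k • z j
  map_add' x y := by
    funext k
    simp [smul_add, Finset.sum_add_distrib]
  map_smul' c x := by
    funext k
    simp only [Pi.smul_apply, RingHom.id_apply, Finset.smul_sum]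
    refine Finset.sum_congr rfl fun j _ => ?_
    rw [smul_comm]

def phi833 {E : Type} [NormedAddCommGroup E] [NormedSpace ℝ E] (m : ℕ)
    (g : Fin m → StrongDual ℝ E) : (Fin m → E) →ₗ[ℝ] ℝ where
  toFun z := ∑ j, g j (z j)
  map_add' x y := by
    simp [Finset.sum_add_distrib]
  map_smul' c x := by
    simp [Finset.mul_sum]


theorem plr_ext {E : Type} [NormedAddCommGroup E] [NormedSpace ℝ E] (m M : ℕ)
    (a : Fin m → Fin M → ℝ) (g : Fin m → StrongDual ℝ E) (rho : ℝ) (hrho : 0 ≤ rho)
    (hg : ∀ z : Fin m → E, |∑ j, g j (z j)| ≤ rho * ‖fun k : Fin M => ∑ j, a j k • z j‖) :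
    ∃ h : Fin M → StrongDual ℝ E, ∑ k, ‖h k‖ ≤ rho ∧ ∀ j, g j = ∑ k, a j k • h k := by
  classical
  have hg' : ∀ z, |phi833 m g z| ≤ rho * ‖Amap833 m M a z‖ := hg
  have hker : LinearMap.ker (Amap833 (E := E) m M a) ≤ LinearMap.ker (phi833 m g) := by
    intro z hz
    rw [LinearMap.mem_ker] at hz ⊢
    have h1 := hg' z
    rw [hz, norm_zero, mul_zero] at h1
    exact abs_eq_zero.mp (le_antisymm h1 (abs_nonneg _))
  -- the functional on the range
  obtain ⟨ψ, hψ⟩ : ∃ ψ : (LinearMap.range (Amap833 (E := E) m M a)) →ₗ[ℝ] ℝ,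
      ∀ z, ψ ((Amap833 (E := E) m M a).rangeRestrict z) = phi833 m g z := by
    refine ⟨((LinearMap.ker (Amap833 (E := E) m M a)).liftQ (phi833 m g) hker).comp
      ((Amap833 (E := E) m M a).quotKerEquivRange.symm.toLinearMap), fun z => ?_⟩
    have h1 : (Amap833 (E := E) m M a).rangeRestrict z
        = (Amap833 (E := E) m M a).quotKerEquivRange (Submodule.Quotient.mk z) := by
      apply Subtype.ext
      simp [LinearMap.quotKerEquivRange_apply_mk]
    rw [h1]
    simp
  have hψb : ∀ y, ‖ψ y‖ ≤ rho * ‖y‖ := by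
    rintro ⟨y, z, rfl⟩
    have h1 := hψ z
    have h2 : (Amap833 (E := E) m M a).rangeRestrict z
        = ⟨Amap833 (E := E) m M a z, z, rfl⟩ := rfl
    rw [h2] at h1
    rw [h1]
    exact hg' z
  obtain ⟨H, hH1, hH2⟩ := exists_extension_norm_eq (LinearMap.range (Amap833 (E := E) m M a))
    (ψ.mkContinuous rho hψb)
  refine ⟨fun k => H.comp (ContinuousLinearMap.single ℝ (fun _ : Fin M => E) k), ?_, ?_⟩
  · refine (sup_dual M H).trans ?_
    rw [hH2]
    exact LinearMap.mkContinuous_norm_le _ hrho _
  · intro j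
    ext e
    have h1 : phi833 m g (Pi.single j e) = g j e := by
      show ∑ i, g i ((Pi.single j e : Fin m → E) i) = g j e
      rw [Finset.sum_eq_single j]
      · simp
      · intro b _ hb
        simp [Pi.single_eq_of_ne hb]
      · intro h; exact absurd (Finset.mem_univ _) h
    have h2 : Amap833 m M a (Pi.single j e) = fun k => a j k • e := by
      funext k
      show ∑ i, a i k • ((Pi.single j e : Fin m → E) i) = a j k • e
      rw [Finset.sum_eq_single j]
      · simp
      · intro b _ hb
        simp [Pi.single_eq_of_ne hb]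
      · intro h; exact absurd (Finset.mem_univ _) h
    have h3 : H (Amap833 m M a (Pi.single j e)) = g j e := by
      have h4 := hH1 ((Amap833 (E := E) m M a).rangeRestrict (Pi.single j e))
      rw [LinearMap.mkContinuous_apply, hψ, h1] at h4
      exact h4
    rw [← h3, h2]
    have h5 : (fun k => a j k • e : Fin M → E)
        = ∑ k, a j k • (Pi.single k e : Fin M → E) := by
      funext l
      rw [Finset.sum_apply, Finset.sum_eq_single l]
      · simp
      · intro b _ hb
        simp [Pi.single_eq_of_ne' hb]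
      · intro h; exact absurd (Finset.mem_univ _) h
    rw [h5, map_sum]
    simp [_root_.sum_apply]

end Pool.Agent.H652.DL
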