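import Mathlib
import Pool.Agent.H652.DL.Defs

set_option autoImplicit false

namespace Pool.Agent.H652.DL

open Metric


theorem plr_surj {E : Type} [NormedAddCommGroup E] [NormedSpace ℝ E] (m : ℕ)
    (r : Fin m → StrongDual ℝ E) (hr : LinearIndependent ℝ r) :
    ∀ y : Fin m → ℝ, ∃ x : E, ∀ j, r j x = y j := by
  classical
  set R : E →ₗ[ℝ] (Fin m → ℝ) := LinearMap.pi (fun j => (r j : E →ₗ[ℝ] ℝ)) with hR
  have htop : LinearMap.range R = ⊤ := by
    by_contra hne
    obtain ⟨f, hf0, hf⟩ := Submodule.exists_le_ker_of_lt_top _ (lt_top_iff_ne_top.mpr hne)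
    apply hf0
    have hz : ∑ j, f (Pi.single j 1) • r j = 0 := by
      ext x
      have h1 : f (R x) = 0 := hf ⟨x, rfl⟩
      have h2 : R x = ∑ j, (r j x) • (Pi.single j (1:ℝ) : Fin m → ℝ) := by
        ext i
        simp [hR, Finset.sum_apply, Pi.single_apply]
      rw [h2, map_sum] at h1
      simp only [map_smul, smul_eq_mul] at h1
      simp only [ContinuousLinearMap.sum_apply, ContinuousLinearMap.smul_apply, smul_eq_mul,
        ContinuousLinearMap.zero_apply]
      rw [← h1]
      exact Finset.sum_congr rfl (fun j _ => mul_comm _ _)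
    have h3 := Fintype.linearIndependent_iff.mp hr _ hz
    apply LinearMap.pi_ext'
    intro i
    apply LinearMap.ext_ring
    simpa using h3 i
  intro y
  have : y ∈ LinearMap.range R := by rw [htop]; trivial
  obtain ⟨x, hx⟩ := this
  exact ⟨x, fun j => by rw [← hx]; rfl⟩


theorem plr_net {E : Type} [NormedAddCommGroup E] [NormedSpace ℝ E] (m : ℕ)
    (r : Fin m → StrongDual ℝ E) (hr : LinearIndependent ℝ r) (δ : ℝ) (hδ : 0 < δ) :
    ∃ (M : ℕ) (x : Fin M → E), (∀ k, ‖x k‖ ≤ 1) ∧
      ∀ z : Fin m → E, (1 - δ) * ‖∑ j, (r j).smulRight (z j)‖ ≤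
        ‖fun k : Fin M => ∑ j, r j (x k) • z j‖ := by
  classical
  have hs := plr_surj m r hr
  choose e he using fun j : Fin m => hs (Pi.single j 1)
  set R : E →L[ℝ] (Fin m → ℝ) := ContinuousLinearMap.pi r with hR
  set ε : ℝ := δ / (∑ j, ‖e j‖ + 1) with hε
  have hsum0 : 0 ≤ ∑ j, ‖e j‖ := Finset.sum_nonneg (fun j _ => norm_nonneg _)
  have hε0 : 0 < ε := by positivity
  have hεs : ε * ∑ j, ‖e j‖ ≤ δ := by
    rw [hε, div_mul_eq_mul_div, div_le_iff₀ (by positivity)]
    nlinarith
  have htb : TotallyBounded (R '' closedBall (0 : E) 1) := by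
    have hb : Bornology.IsBounded (R '' closedBall (0 : E) 1) :=
      R.lipschitz.isBounded_image isBounded_closedBall
    exact (Bornology.IsBounded.isCompact_closure hb).totallyBounded.subset subset_closure
  obtain ⟨t, hts, htf, hcov⟩ := Metric.finite_approx_of_totallyBounded htb ε hε0
  choose g hg using fun y : t => hts y.2
  have _i : Fintype t := htf.fintype
  refine ⟨Fintype.card t, fun k => g ((Fintype.equivFin t).symm k), fun k => ?_, fun z => ?_⟩
  · simpa using (hg ((Fintype.equivFin t).symm k)).1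
  · set S : E →L[ℝ] E := ∑ j, (r j).smulRight (z j) with hS
    have hSa : ∀ x, S x = ∑ j, r j x • z j := by
      intro x; simp [hS, ContinuousLinearMap.sum_apply]
    set N := ‖fun k : Fin (Fintype.card t) => ∑ j, r j (g ((Fintype.equivFin t).symm k)) • z j‖ with hN
    have hz : ∀ j, ‖z j‖ ≤ ‖S‖ * ‖e j‖ := by
      intro j
      have : S (e j) = z j := by
        rw [hSa]
        rw [Finset.sum_eq_single j]
        · rw [he]; simp
        · intro i _ hij
          rw [he, Pi.single_eq_of_ne hij, zero_smul]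
        · intro h; exact absurd (Finset.mem_univ j) h
      rw [← this]
      exact S.le_opNorm _
    have hmain : ‖S‖ ≤ N + δ * ‖S‖ := by
      apply ContinuousLinearMap.opNorm_le_of_unit_norm (by positivity)
      intro x hx
      have hxR : R x ∈ R '' closedBall (0 : E) 1 := ⟨x, by simp [hx], rfl⟩
      obtain ⟨y, hyt, hy⟩ := Set.mem_iUnion₂.mp (hcov hxR)
      set k := Fintype.equivFin t ⟨y, hyt⟩ with hk
      have hgk : g ((Fintype.equivFin t).symm k) = g ⟨y, hyt⟩ := by rw [hk, Equiv.symm_apply_apply]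
      set xk := g ⟨y, hyt⟩ with hxk
      have hRk : R xk = y := (hg ⟨y, hyt⟩).2
      have hd : ∀ j, ‖r j x - r j xk‖ ≤ ε := by
        intro j
        have h1 : ‖R x - y‖ < ε := by simpa [dist_eq_norm] using hy
        have h2 := norm_le_pi_norm (R x - y) j
        rw [← hRk] at h2 h1
        exact h2.trans h1.le
      have h3 : ‖S xk‖ ≤ N := by
        rw [hSa, ← hgk]
        exact norm_le_pi_norm (fun k : Fin (Fintype.card t) => ∑ j, r j (g ((Fintype.equivFin t).symm k)) • z j) k
      have h4 : ‖S x - S xk‖ ≤ δ * ‖S‖ := by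
        rw [hSa, hSa, ← Finset.sum_sub_distrib]
        calc ‖∑ j, (r j x • z j - r j xk • z j)‖ ≤ ∑ j, ‖r j x • z j - r j xk • z j‖ := norm_sum_le _ _
          _ ≤ ∑ j, ε * (‖S‖ * ‖e j‖) := by
            apply Finset.sum_le_sum
            intro j _
            rw [← sub_smul, norm_smul]
            exact mul_le_mul (hd j) (hz j) (norm_nonneg _) hε0.le
          _ = (ε * ∑ j, ‖e j‖) * ‖S‖ := by
            rw [Finset.mul_sum, Finset.sum_mul]
            exact Finset.sum_congr rfl (fun j _ => by ring)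
          _ ≤ δ * ‖S‖ := mul_le_mul_of_nonneg_right hεs (norm_nonneg _)
      calc ‖S x‖ = ‖S xk + (S x - S xk)‖ := by rw [add_sub_cancel]
        _ ≤ ‖S xk‖ + ‖S x - S xk‖ := norm_add_le _ _
        _ ≤ N + δ * ‖S‖ := add_le_add h3 h4
    linarith

end Pool.Agent.H652.DL
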