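import Mathlib
import Pool.Agent.H652.DL.Defs
import Pool.Agent.H652.DL.Jplrext
import Pool.Agent.H652.DL.Jplrnet
import Pool.Agent.H652.DL.Jsupdual

set_option autoImplicit false

namespace Pool.Agent.H652.DL

open Metric





theorem plr_basis {V : Type} [AddCommGroup V] [Module ℝ V] (R : Submodule ℝ V)
    (h : FiniteDimensional ℝ R) : ∃ m, Nonempty (Module.Basis (Fin m) ℝ R) :=
  ⟨_, ⟨Module.finBasis ℝ R⟩⟩


theorem plr {E : Type} [NormedAddCommGroup E] [NormedSpace ℝ E] (lam : ℝ)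
    (w : StrongDual ℝ E →L[ℝ] StrongDual ℝ E)
    (hw : FiniteDimensional ℝ (LinearMap.range (w : StrongDual ℝ E →ₗ[ℝ] StrongDual ℝ E)))
    (hl : ‖w‖ ≤ lam) (F : Finset (StrongDual ℝ E)) (ε : ℝ) (hε : 0 < ε) :
    ∃ S : E →L[ℝ] E, FiniteDimensional ℝ (LinearMap.range (S : E →ₗ[ℝ] E)) ∧ ‖S‖ ≤ lam + ε ∧
      ∀ f ∈ F, ‖f.comp S - w f‖ ≤ ε := by
  classical
  have hlam : 0 ≤ lam := (norm_nonneg w).trans hl
  obtain ⟨Λ, hΛ⟩ : ∃ Λ, Λ = lam + ε := ⟨_, rfl⟩
  have hΛ0 : 0 < Λ := by rw [hΛ]; linarith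
  obtain ⟨m, ⟨b⟩⟩ := plr_basis (V := StrongDual ℝ E) _ hw
  obtain ⟨r, hrdef⟩ : ∃ r : Fin m → StrongDual ℝ E, r = fun j => (b j : StrongDual ℝ E) := ⟨_, rfl⟩
  have hr : LinearIndependent ℝ r := by
    rw [hrdef]
    exact b.linearIndependent.map' (Submodule.subtype _) (Submodule.ker_subtype _)
  obtain ⟨φ, hwf⟩ : ∃ φ : Fin m → (StrongDual ℝ E →ₗ[ℝ] ℝ), ∀ f, w f = ∑ j, φ j f • r j := by
    refine ⟨fun j => (b.coord j) ∘ₗ (w : StrongDual ℝ E →ₗ[ℝ] StrongDual ℝ E).rangeRestrict, ?_⟩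
    intro f
    have h1 := b.sum_repr ((w : StrongDual ℝ E →ₗ[ℝ] StrongDual ℝ E).rangeRestrict f)
    have h2 := congrArg (Submodule.subtype _) h1
    rw [map_sum] at h2
    rw [hrdef]
    exact h2.symm
  obtain ⟨SL, hSL⟩ : ∃ SL : (Fin m → E) →ₗ[ℝ] (E →L[ℝ] E),
      ∀ z, SL z = ∑ j, (r j).smulRight (z j) := by
    refine ⟨{ toFun := fun z => ∑ j, (r j).smulRight (z j), map_add' := ?_, map_smul' := ?_ },
      fun z => rfl⟩
    · intro z z'
      rw [← Finset.sum_add_distrib]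
      refine Finset.sum_congr rfl fun j _ => ?_
      ext x
      simp
    · intro c z
      rw [Finset.smul_sum]
      refine Finset.sum_congr rfl fun j _ => ?_
      ext x
      show (r j x) • (c • z j) = c • ((r j x) • z j)
      exact smul_comm _ _ _
  obtain ⟨Ψ, hΨ⟩ : ∃ Ψ : (Fin m → E) →ₗ[ℝ] ({f // f ∈ F} → StrongDual ℝ E),
      ∀ z f, Ψ z f = (f.1).comp (SL z) := by
    refine ⟨{ toFun := fun z f => (f.1).comp (SL z), map_add' := ?_, map_smul' := ?_ },
      fun z f => rfl⟩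
    · intro z z'
      funext f
      simp
    · intro c z
      funext f
      simp
  have hΨ2 : ∀ z f, Ψ z f = ∑ j, (f.1 (z j)) • r j := by
    intro z f
    rw [hΨ, hSL]
    ext x
    simp [mul_comm]
  set w0 : {f // f ∈ F} → StrongDual ℝ E := fun f => w f.1 with hw0
  set C : Set ({f // f ∈ F} → StrongDual ℝ E) := Ψ '' {z | ‖SL z‖ ≤ Λ} with hC
  have hCc : Convex ℝ C := by
    have h1 : Convex ℝ {z | ‖SL z‖ ≤ Λ} := by
      have h2 : {z | ‖SL z‖ ≤ Λ} = SL ⁻¹' (closedBall 0 Λ) := by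
        ext z
        simp
      rw [h2]
      exact (convex_closedBall _ _).linear_preimage SL
    exact h1.linear_image Ψ
  by_cases hcl : w0 ∈ closure C
  · rw [Metric.mem_closure_iff] at hcl
    obtain ⟨_, ⟨z, hz, rfl⟩, hd⟩ := hcl ε hε
    refine ⟨SL z, ?_, hΛ ▸ hz, ?_⟩
    · have hle : LinearMap.range (SL z : E →ₗ[ℝ] E) ≤ Submodule.span ℝ (Set.range z) := by
        rintro _ ⟨x, rfl⟩
        rw [hSL]
        simp only [ContinuousLinearMap.coe_coe, ContinuousLinearMap.sum_apply,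
          ContinuousLinearMap.smulRight_apply]
        refine Submodule.sum_mem _ fun j _ => Submodule.smul_mem _ _ (Submodule.subset_span ⟨j, rfl⟩)
      haveI : FiniteDimensional ℝ (Submodule.span ℝ (Set.range z)) :=
        FiniteDimensional.span_of_finite ℝ (Set.finite_range z)
      exact Submodule.finiteDimensional_of_le hle
    · intro f hf
      have h1 := dist_le_pi_dist w0 (Ψ z) ⟨f, hf⟩
      rw [hΨ, dist_comm, dist_eq_norm] at h1
      exact h1.trans hd.le
  · exfalso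
    obtain ⟨l, s, hl1, hl2⟩ := geometric_hahn_banach_closed_point hCc.closure isClosed_closure hcl
    obtain ⟨Lf, hLf⟩ : ∃ Lf : {f // f ∈ F} → (StrongDual ℝ E →ₗ[ℝ] ℝ),
        ∀ v, l v = ∑ f, Lf f (v f) := by
      refine ⟨fun f => (l : ({f // f ∈ F} → StrongDual ℝ E) →ₗ[ℝ] ℝ) ∘ₗ
        (LinearMap.single ℝ (fun _ : {f // f ∈ F} => StrongDual ℝ E) f), fun v => ?_⟩
      have h1 : v = ∑ f, Pi.single f (v f) := (Finset.univ_sum_single v).symm
      conv_lhs => rw [h1]
      rw [map_sum]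
      rfl
    obtain ⟨g, hg⟩ : ∃ g : Fin m → StrongDual ℝ E,
        ∀ j, g j = ∑ f : {f // f ∈ F}, (Lf f (r j)) • f.1 := ⟨_, fun j => rfl⟩
    have hgΨ : ∀ z, l (Ψ z) = ∑ j, g j (z j) := by
      intro z
      rw [hLf]
      simp only [hΨ2, map_sum, map_smul, hg, ContinuousLinearMap.sum_apply,
        ContinuousLinearMap.smul_apply, smul_eq_mul]
      rw [Finset.sum_comm]
      refine Finset.sum_congr rfl fun j _ => Finset.sum_congr rfl fun f _ => ?_
      ring
    have hgw : l w0 = ∑ j, φ j (g j) := by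
      rw [hLf]
      simp only [hw0]
      have h1 : ∀ f : {f // f ∈ F}, Lf f (w f.1) = ∑ j, φ j f.1 * Lf f (r j) := by
        intro f
        rw [hwf, map_sum]
        refine Finset.sum_congr rfl fun j _ => ?_
        rw [map_smul, smul_eq_mul]
      simp only [h1, hg, map_sum, map_smul, smul_eq_mul]
      rw [Finset.sum_comm]
      refine Finset.sum_congr rfl fun j _ => Finset.sum_congr rfl fun f _ => ?_
      ring
    have hs : 0 < s := by
      have h1 : (0 : {f // f ∈ F} → StrongDual ℝ E) ∈ C := ⟨0, by simp [hΛ0.le], by simp⟩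
      have h2 := hl1 0 (subset_closure h1)
      simpa using h2
    have hb1 : ∀ z, ‖SL z‖ ≤ Λ → |∑ j, g j (z j)| ≤ s := by
      intro z hz
      have h1 := hl1 (Ψ z) (subset_closure ⟨z, hz, rfl⟩)
      have h2 := hl1 (Ψ (-z)) (subset_closure ⟨-z, by
        show ‖SL (-z)‖ ≤ Λ
        rw [map_neg, norm_neg]; exact hz, rfl⟩)
      rw [map_neg, map_neg] at h2
      rw [hgΨ] at h1 h2
      exact abs_le.mpr ⟨by linarith, h1.le⟩
    have hb2 : ∀ z, |∑ j, g j (z j)| ≤ (s / Λ) * ‖SL z‖ := by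
      intro z
      have h3 : ∀ η : ℝ, 0 < η → |∑ j, g j (z j)| ≤ (s / Λ) * (‖SL z‖ + η) := by
        intro η hη
        have hpos : 0 < ‖SL z‖ + η := by positivity
        have h1 := hb1 ((Λ / (‖SL z‖ + η)) • z) (by
          rw [map_smul, norm_smul, Real.norm_of_nonneg (by positivity)]
          rw [div_mul_eq_mul_div, div_le_iff₀ hpos]
          have := mul_le_mul_of_nonneg_left (show ‖SL z‖ ≤ ‖SL z‖ + η by linarith) hΛ0.le
          exact this)
        have h2 : ∑ j, g j (((Λ / (‖SL z‖ + η)) • z) j) = (Λ / (‖SL z‖ + η)) * ∑ j, g j (z j) := by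
          rw [Finset.mul_sum]
          refine Finset.sum_congr rfl fun j _ => ?_
          rw [Pi.smul_apply, map_smul, smul_eq_mul]
        rw [h2, abs_mul, abs_of_pos (by positivity)] at h1
        have h4 : |∑ j, g j (z j)| =
            ((‖SL z‖ + η) / Λ) * (Λ / (‖SL z‖ + η) * |∑ j, g j (z j)|) := by
          field_simp
        rw [h4]
        calc ((‖SL z‖ + η) / Λ) * (Λ / (‖SL z‖ + η) * |∑ j, g j (z j)|) ≤
            ((‖SL z‖ + η) / Λ) * s := mul_le_mul_of_nonneg_left h1 (by positivity)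
          _ = (s / Λ) * (‖SL z‖ + η) := by ring
      refine le_of_forall_pos_le_add fun η hη => ?_
      have h5 := h3 (η * Λ / s) (by positivity)
      have h6 : (s / Λ) * (‖SL z‖ + η * Λ / s) = (s / Λ) * ‖SL z‖ + η := by
        field_simp
      rw [h6] at h5
      exact h5
    obtain ⟨δ, hδ⟩ : ∃ δ, δ = ε / (2 * Λ) := ⟨_, rfl⟩
    have hδ0 : 0 < δ := by rw [hδ]; positivity
    have hδΛ : Λ * (1 - δ) = lam + ε / 2 := by
      rw [hδ]
      have : Λ * (1 - ε / (2 * Λ)) = Λ - ε / 2 := by field_simp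
      rw [this, hΛ]; ring
    have hδ1 : 0 < 1 - δ := by
      have h1 : 0 < Λ * (1 - δ) := by rw [hδΛ]; positivity
      exact (pos_iff_pos_of_mul_pos h1).mp hΛ0
    obtain ⟨M, x, hx1, hx2⟩ := plr_net m r hr δ hδ0
    obtain ⟨h, hh1, hh2⟩ := plr_ext m M (fun j k => r j (x k)) g (s / (Λ * (1 - δ)))
      (by positivity) (by
        intro z
        refine (hb2 z).trans ?_
        have h1 := hx2 z
        rw [← hSL] at h1
        have h2 : (s / Λ) * ‖SL z‖ = (s / (Λ * (1 - δ))) * ((1 - δ) * ‖SL z‖) := by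
          field_simp
        rw [h2]
        exact mul_le_mul_of_nonneg_left h1 (by positivity))
    have h1 : l w0 = ∑ k, (w (h k)) (x k) := by
      rw [hgw]
      have h2 : ∀ j, φ j (g j) = ∑ k, r j (x k) * φ j (h k) := by
        intro j
        rw [hh2 j, map_sum]
        refine Finset.sum_congr rfl fun k _ => ?_
        rw [map_smul, smul_eq_mul]
      simp only [h2]
      rw [Finset.sum_comm]
      refine Finset.sum_congr rfl fun k _ => ?_
      rw [hwf, ContinuousLinearMap.sum_apply]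
      refine Finset.sum_congr rfl fun j _ => ?_
      rw [ContinuousLinearMap.smul_apply, smul_eq_mul, mul_comm]
    have h2 : l w0 ≤ lam * (s / (Λ * (1 - δ))) := by
      rw [h1]
      calc ∑ k, (w (h k)) (x k) ≤ ∑ k, lam * ‖h k‖ := by
            refine Finset.sum_le_sum fun k _ => ?_
            calc (w (h k)) (x k) ≤ ‖(w (h k)) (x k)‖ := Real.le_norm_self _
              _ ≤ ‖w (h k)‖ * ‖x k‖ := ContinuousLinearMap.le_opNorm _ _
              _ ≤ ‖w (h k)‖ * 1 := mul_le_mul_of_nonneg_left (hx1 k) (norm_nonneg _)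
              _ = ‖w (h k)‖ := mul_one _
              _ ≤ ‖w‖ * ‖h k‖ := ContinuousLinearMap.le_opNorm _ _
              _ ≤ lam * ‖h k‖ := mul_le_mul_of_nonneg_right hl (norm_nonneg _)
        _ = lam * ∑ k, ‖h k‖ := by rw [Finset.mul_sum]
        _ ≤ _ := mul_le_mul_of_nonneg_left hh1 hlam
    have h3 : lam * (s / (Λ * (1 - δ))) ≤ s := by
      rw [hδΛ, mul_div_assoc', div_le_iff₀ (by positivity)]
      have : 0 ≤ s * (ε / 2) := by positivity
      nlinarith
    linarith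

end Pool.Agent.H652.DL
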