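import Mathlib
import Pool.Agent.H652.DL.Defs

set_option autoImplicit false

namespace Pool.Agent.H652.DL

open Metric


open scoped Pointwise in
theorem aux_hb {L : Type} [NormedAddCommGroup L] [NormedSpace ℝ L] (B : Set L) (hB : Convex ℝ B)
    (x : L) (r : ℝ) (hcon : ∀ b ∈ B, r ≤ ‖x - b‖) :
    ∃ g : StrongDual ℝ L, ∀ b ∈ B, ∀ e : L, ‖e‖ < r → g b + g e < g x := by
  have hx : x ∉ B + ball (0 : L) r := by
    rintro ⟨b, hb, e, he, hbe⟩
    have h1 := hcon b hb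
    have h2 : x - b = e := by
      rw [← hbe]
      simp
    rw [h2] at h1
    rw [mem_ball_zero_iff] at he
    linarith
  obtain ⟨g, hg⟩ := geometric_hahn_banach_open_point (hB.add (convex_ball (0 : L) r))
    (isOpen_ball.add_left) hx
  refine ⟨g, ?_⟩
  intro b hb e he
  rw [← map_add]
  exact hg _ ⟨b, hb, e, mem_ball_zero_iff.2 he, rfl⟩


theorem sep {L : Type} [NormedAddCommGroup L] [NormedSpace ℝ L] (B : Set L) (hB : Convex ℝ B)
    (h0 : (0 : L) ∈ B) (hBs : ∀ b ∈ B, -b ∈ B) (hB1 : ∀ b ∈ B, ‖b‖ ≤ 1) (x : L) (t : ℝ)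
    (ht : 0 < t)
    (H : ∀ (g : StrongDual ℝ L) (m : ℝ), ‖g‖ ≤ 1 → 0 ≤ m → m ≤ 1 → (∀ b ∈ B, |g b| ≤ m) →
      g x ≤ m + t) (δ : ℝ) (hδ : 0 < δ) : ∃ b ∈ B, ‖x - b‖ ≤ t + δ := by
  by_contra hcon
  push Not at hcon
  have hr : 0 < t + δ := by linarith
  have hr' : ∀ b ∈ B, t + δ ≤ ‖x - b‖ := fun b hb => (hcon b hb).le
  obtain ⟨g, hg'⟩ := aux_hb B hB x (t + δ) hr'
  have hgx : 0 < g x := by
    have h := hg' 0 h0 0 (by rw [norm_zero]; exact hr)
    simpa using h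
  have hg0 : g ≠ 0 := by
    intro h
    rw [h] at hgx
    simp at hgx
  have hgn : 0 < ‖g‖ := norm_pos_iff.2 hg0
  have key : ∀ b ∈ B, ‖g‖ * (t + δ) ≤ g x - g b := by
    intro b hb
    by_contra hlt
    push Not at hlt
    have h1 : (g x - g b) / (t + δ) < ‖g‖ := by
      rw [div_lt_iff₀ hr]
      exact hlt
    obtain ⟨v, hv1, hv2⟩ := g.exists_lt_apply_of_lt_opNorm h1
    rw [div_lt_iff₀ hr, Real.norm_eq_abs] at hv2
    have hnorm : ∀ s : ℝ, |s| = t + δ → ‖s • v‖ < t + δ := by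
      intro s hs
      rw [norm_smul, Real.norm_eq_abs, hs]
      nlinarith
    rcases abs_cases (g v) with ⟨h2, _⟩ | ⟨h2, _⟩
    · have h3 := hg' b hb ((t + δ) • v) (hnorm _ (abs_of_pos hr))
      rw [map_smul, smul_eq_mul] at h3
      rw [h2] at hv2
      nlinarith
    · have h3 := hg' b hb ((-(t + δ)) • v) (hnorm _ (by rw [abs_neg, abs_of_pos hr]))
      rw [map_smul, smul_eq_mul] at h3
      rw [h2] at hv2
      nlinarith
  obtain ⟨G, hG⟩ : ∃ G : StrongDual ℝ L, G = ‖g‖⁻¹ • g := ⟨_, rfl⟩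
  have hGa : ∀ y, G y = ‖g‖⁻¹ * g y := by
    intro y
    rw [hG]
    rfl
  have hGn : ‖G‖ = 1 := by
    rw [hG, norm_smul, norm_inv, norm_norm, inv_mul_cancel₀ hgn.ne']
  have key2 : ∀ b ∈ B, G b ≤ G x - (t + δ) := by
    intro b hb
    have h1 := key b hb
    rw [hGa, hGa]
    have h2 : ‖g‖⁻¹ * (‖g‖ * (t + δ)) ≤ ‖g‖⁻¹ * (g x - g b) :=
      mul_le_mul_of_nonneg_left h1 (inv_nonneg.2 hgn.le)
    rw [← mul_assoc, inv_mul_cancel₀ hgn.ne', one_mul, mul_sub] at h2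
    linarith
  have key3 : ∀ b ∈ B, |G b| ≤ min (G x - (t + δ)) 1 := by
    intro b hb
    apply le_min
    · rw [abs_le]
      constructor
      · have h := key2 (-b) (hBs b hb)
        rw [map_neg] at h
        linarith
      · exact key2 b hb
    · have h := G.le_opNorm b
      rw [hGn, one_mul, Real.norm_eq_abs] at h
      exact h.trans (hB1 b hb)
  have h4 := H G (min (G x - (t + δ)) 1) hGn.le ((abs_nonneg _).trans (key3 0 h0)) (min_le_right _ _) key3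
  have h5 : min (G x - (t + δ)) 1 ≤ G x - (t + δ) := min_le_left _ _
  linarith

end Pool.Agent.H652.DL
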