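import Mathlib
import Pool.Agent.H652.DL.Defs
import Pool.Agent.H652.DL.Jggweak
import Pool.Agent.H652.DL.Jplr
import Pool.Agent.H652.DL.Jsep

set_option autoImplicit false

namespace Pool.Agent.H652.DL

open Metric






theorem lower {V L E : Type} [NormedAddCommGroup V] [NormedSpace ℝ V]
    [NormedAddCommGroup L] [NormedSpace ℝ L] [NormedAddCommGroup E] [NormedSpace ℝ E] {D : VS V}
    {y : ℕ → L} {sig : ℝ} (A : ES D y sig E) (hs : 0 < sig) (hs1 : sig ≤ 1) (B : Set L)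
    (hyB : ∀ i, y i ∈ B)
    (hyd : ∀ b ∈ B, ∀ δ : ℝ, 0 < δ → ∃ i, ‖b - y i‖ ≤ δ) (hB : Convex ℝ B)
    (h0 : (0 : L) ∈ B) (hBs : ∀ b ∈ B, -b ∈ B) (hB1 : ∀ b ∈ B, ‖b‖ ≤ 1)
    (t : ℝ) (ht : 0 < t) (ht1 : t ≤ 1) (hAP : HasAP (StrongDual ℝ E) (1 + sig * t)) (δ : ℝ)
    (hδ : 0 < δ) : GG B (1 + 2 * sig) (t + δ) := by
  classical
  apply gg_of_weak B hB
  intro G ε hε
  obtain ⟨e', he0, he1, he2, he3⟩ : ∃ e' : ℝ, 0 < e' ∧ e' ≤ ε / 2 ∧ e' ≤ sig / 2 ∧
      12 * e' ≤ δ * sig := by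
    refine ⟨min (ε / 2) (min (sig / 2) (δ * sig / 12)), ?_, ?_, ?_, ?_⟩
    · have : 0 < δ * sig / 12 := by positivity
      exact lt_min (by linarith) (lt_min (by linarith) this)
    · exact min_le_left _ _
    · exact (min_le_right _ _).trans (min_le_left _ _)
    · have := (min_le_right (ε / 2) (min (sig / 2) (δ * sig / 12))).trans (min_le_right _ _)
      linarith
  obtain ⟨F, hF⟩ : ∃ F : Finset (StrongDual ℝ E),
      F = insert (D.f0.comp A.pV) (G.image (fun g => g.comp A.pL)) := ⟨_, rfl⟩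
  obtain ⟨w, hwfin, hwn, hwF⟩ := hAP (F : Set (StrongDual ℝ E)) F.finite_toSet.isCompact e' he0
  obtain ⟨S, hSfin, hSn, hSF⟩ := plr (1 + sig * t) w hwfin hwn F e' he0
  have hS2 : ∀ f ∈ F, ‖f.comp S - f‖ ≤ 2 * e' := by
    intro f hf
    have h1 := hSF f hf
    have h2 := hwF f hf
    calc ‖f.comp S - f‖ = ‖(f.comp S - w f) + (w f - f)‖ := by congr 1; abel
      _ ≤ ‖f.comp S - w f‖ + ‖w f - f‖ := norm_add_le _ _
      _ ≤ 2 * e' := by linarith
  have hSle : ‖S‖ ≤ 1 + 2 * sig := by nlinarith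
  have hSp : ∀ f ∈ F, ∀ x : E, |f (S x) - f x| ≤ 2 * e' * ‖x‖ := by
    intro f hf x
    have h1 := (f.comp S - f).le_opNorm x
    have h2 : (f.comp S - f) x = f (S x) - f x := rfl
    rw [h2, Real.norm_eq_abs] at h1
    exact h1.trans (mul_le_mul_of_nonneg_right (hS2 f hf) (norm_nonneg x))
  have hfF : D.f0.comp A.pV ∈ F := by rw [hF]; exact Finset.mem_insert_self _ _
  have hgF : ∀ g ∈ G, g.comp A.pL ∈ F := by
    intro g hg
    rw [hF]
    exact Finset.mem_insert_of_mem (Finset.mem_image_of_mem _ hg)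
  obtain ⟨v, hv⟩ : ∃ v : L →L[ℝ] L, v = A.pL.comp (S.comp A.iL) := ⟨_, rfl⟩
  have hvx : ∀ x, v x = A.pL (S (A.iL x)) := fun x => by rw [hv]; rfl
  have hvb : ∀ x, ‖v x‖ ≤ (1 + 2 * sig) * ‖x‖ := by
    intro x
    rw [hvx]
    calc ‖A.pL (S (A.iL x))‖ ≤ ‖S (A.iL x)‖ := A.pL_norm _
      _ ≤ ‖S‖ * ‖A.iL x‖ := S.le_opNorm _
      _ ≤ (1 + 2 * sig) * ‖x‖ :=
          mul_le_mul hSle (A.iL_norm x) (norm_nonneg _) (by linarith)
  refine ⟨v, ?_, ?_, ?_, ?_⟩
  · have hle : LinearMap.range (v : L →ₗ[ℝ] L) ≤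
        (LinearMap.range (S : E →ₗ[ℝ] E)).map (A.pL : E →ₗ[ℝ] L) := by
      rintro _ ⟨x, rfl⟩
      refine ⟨S (A.iL x), ⟨A.iL x, rfl⟩, ?_⟩
      exact (hvx x).symm
    haveI : FiniteDimensional ℝ ((LinearMap.range (S : E →ₗ[ℝ] E)).map (A.pL : E →ₗ[ℝ] L)) := by
      haveI := hSfin
      infer_instance
    exact Submodule.finiteDimensional_of_le hle
  · exact ContinuousLinearMap.opNorm_le_bound _ (by linarith) hvb
  · intro g hg
    refine ContinuousLinearMap.opNorm_le_bound _ hε.le ?_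
    intro x
    have h1 := hSp _ (hgF g hg) (A.iL x)
    have h2 : (g.comp A.pL) (S (A.iL x)) - (g.comp A.pL) (A.iL x) = (g.comp v - g) x := by
      show g (A.pL (S (A.iL x))) - g (A.pL (A.iL x)) = g (v x) - g x
      rw [A.pL_iL, hvx]
    rw [h2] at h1
    rw [Real.norm_eq_abs]
    refine h1.trans ?_
    have h3 := A.iL_norm x
    have h4 := norm_nonneg (A.iL x)
    nlinarith [norm_nonneg x]
  · -- the approximation of `B`
    have hyi : ∀ i, ∃ b ∈ B, ‖v (y i) - b‖ ≤ (t + δ / 4) + δ / 4 := by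
      intro i
      refine sep B hB h0 hBs hB1 (v (y i)) (t + δ / 4) (by linarith) ?_ (δ / 4) (by linarith)
      intro g m hg hm0 hm1 hgB
      have hsm0 : 0 ≤ sig * m := by positivity
      have hsm1 : sig * m ≤ 1 := by nlinarith
      -- the two functionals
      have hf0 : ∀ x : V, |D.f0 x| ≤ ‖x‖ := by
        intro x
        have h1 := D.f0.le_opNorm x
        rw [Real.norm_eq_abs] at h1
        nlinarith [D.f0_norm, norm_nonneg x]
      have hgx : ∀ x : L, |g x| ≤ ‖x‖ := by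
        intro x
        have h1 := g.le_opNorm x
        rw [Real.norm_eq_abs] at h1
        nlinarith [norm_nonneg x]
      have hfun : ∀ c : ℝ, |c| = 1 →
          ‖(1 - sig * m) • (D.f0.comp A.pV) + c • (g.comp A.pL)‖ ≤ 1 := by
        intro c hc
        have e1 : ∀ x : V, ((1 - sig * m) • (D.f0.comp A.pV) + c • (g.comp A.pL)) (A.iV x) =
            (1 - sig * m) * D.f0 x := by
          intro x
          show (1 - sig * m) * D.f0 (A.pV (A.iV x)) + c * g (A.pL (A.iV x)) = _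
          rw [A.pV_iV, A.pL_iV, map_zero, mul_zero, add_zero]
        have e2 : ∀ x : L, ((1 - sig * m) • (D.f0.comp A.pV) + c • (g.comp A.pL)) (A.iL x) =
            c * g x := by
          intro x
          show (1 - sig * m) * D.f0 (A.pV (A.iL x)) + c * g (A.pL (A.iL x)) = _
          rw [A.pV_iL, A.pL_iL, map_zero, mul_zero, zero_add]
        refine A.dual_norm _ 1 zero_le_one ?_ ?_ ?_
        · intro x
          rw [e1, abs_mul, abs_of_nonneg (by linarith : (0 : ℝ) ≤ 1 - sig * m), one_mul]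
          have := hf0 x
          nlinarith [abs_nonneg (D.f0 x), norm_nonneg x]
        · intro x
          rw [e2, abs_mul, hc, one_mul, one_mul]
          exact hgx x
        · intro i' n _
          rw [e1, e2, D.f0_s, mul_one, abs_mul, hc, one_mul,
            abs_of_nonneg (by linarith : (0 : ℝ) ≤ 1 - sig * m)]
          have := hgB (y i') (hyB i')
          nlinarith
      obtain ⟨hp1, hp2⟩ := A.gen_norm i i le_rfl
      have hSb : ∀ (f : StrongDual ℝ E) (p : E), ‖f‖ ≤ 1 → ‖p‖ ≤ 1 → f (S p) ≤ 1 + sig * t + e' := by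
        intro f p hf hp
        calc f (S p) ≤ |f (S p)| := le_abs_self _
          _ = ‖f (S p)‖ := (Real.norm_eq_abs _).symm
          _ ≤ ‖f‖ * ‖S p‖ := f.le_opNorm _
          _ ≤ 1 * ‖S p‖ := mul_le_mul_of_nonneg_right hf (norm_nonneg _)
          _ = ‖S p‖ := one_mul _
          _ ≤ ‖S‖ * ‖p‖ := S.le_opNorm _
          _ ≤ ‖S‖ * 1 := mul_le_mul_of_nonneg_left hp (norm_nonneg _)
          _ = ‖S‖ := mul_one _
          _ ≤ _ := hSn
      have hA1 := hSb _ _ (hfun 1 (by simp)) hp1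
      have hA2 := hSb _ _ (hfun (-1) (by simp)) hp2
      have ex1 : ((1 - sig * m) • (D.f0.comp A.pV) + (1 : ℝ) • (g.comp A.pL))
          (S (A.iV (D.s i) + sig • A.iL (y i))) =
          (1 - sig * m) * (D.f0 (A.pV (S (A.iV (D.s i)))) + sig * D.f0 (A.pV (S (A.iL (y i))))) +
          (g (A.pL (S (A.iV (D.s i)))) + sig * g (v (y i))) := by
        show (1 - sig * m) * D.f0 (A.pV (S (A.iV (D.s i) + sig • A.iL (y i)))) +
          1 * g (A.pL (S (A.iV (D.s i) + sig • A.iL (y i)))) = _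
        rw [hvx]
        simp only [map_add, map_smul, smul_eq_mul, one_mul]
      have ex2 : ((1 - sig * m) • (D.f0.comp A.pV) + (-1 : ℝ) • (g.comp A.pL))
          (S (A.iV (D.s i) - sig • A.iL (y i))) =
          (1 - sig * m) * (D.f0 (A.pV (S (A.iV (D.s i)))) - sig * D.f0 (A.pV (S (A.iL (y i))))) -
          (g (A.pL (S (A.iV (D.s i)))) - sig * g (v (y i))) := by
        show (1 - sig * m) * D.f0 (A.pV (S (A.iV (D.s i) - sig • A.iL (y i)))) +
          (-1) * g (A.pL (S (A.iV (D.s i) - sig • A.iL (y i)))) = _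
        rw [hvx]
        simp only [map_sub, map_smul, smul_eq_mul]
        ring
      rw [ex1] at hA1
      rw [ex2] at hA2
      have h5 : 1 - 2 * e' ≤ D.f0 (A.pV (S (A.iV (D.s i)))) := by
        have h6 := hSp _ hfF (A.iV (D.s i))
        have h7 : (D.f0.comp A.pV) (S (A.iV (D.s i))) - (D.f0.comp A.pV) (A.iV (D.s i)) =
            D.f0 (A.pV (S (A.iV (D.s i)))) - 1 := by
          show D.f0 (A.pV (S (A.iV (D.s i)))) - D.f0 (A.pV (A.iV (D.s i))) = _
          rw [A.pV_iV, D.f0_s]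
        rw [h7] at h6
        have h8 : ‖A.iV (D.s i)‖ ≤ 1 := (A.iV_norm _).trans (D.s_norm i)
        have h9 := (abs_le.1 h6).1
        nlinarith [norm_nonneg (A.iV (D.s i))]
      have h10 : (1 - sig * m) * (1 - 2 * e') ≤ (1 - sig * m) * D.f0 (A.pV (S (A.iV (D.s i)))) :=
        mul_le_mul_of_nonneg_left h5 (by linarith)
      have h11 : sig * g (v (y i)) ≤ sig * m + sig * t + 3 * e' := by
        have h12 : 0 ≤ e' * (sig * m) := by positivity
        nlinarith
      have h13 : sig * g (v (y i)) ≤ sig * (m + (t + δ / 4)) := by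
        nlinarith
      exact le_of_mul_le_mul_left h13 hs
    intro y' hy'
    have hpos : 0 < δ / (2 * (1 + 2 * sig)) := by positivity
    obtain ⟨i, hi⟩ := hyd y' hy' _ hpos
    obtain ⟨b, hb, hbi⟩ := hyi i
    refine ⟨b, hb, ?_⟩
    have h1 : ‖v y' - v (y i)‖ ≤ δ / 2 := by
      rw [← map_sub]
      refine (hvb _).trans ?_
      calc (1 + 2 * sig) * ‖y' - y i‖ ≤ (1 + 2 * sig) * (δ / (2 * (1 + 2 * sig))) :=
            mul_le_mul_of_nonneg_left hi (by linarith)
        _ = δ / 2 := by field_simp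
    calc ‖v y' - b‖ = ‖(v y' - v (y i)) + (v (y i) - b)‖ := by congr 1; abel
      _ ≤ ‖v y' - v (y i)‖ + ‖v (y i) - b‖ := norm_add_le _ _
      _ ≤ t + δ := by linarith

end Pool.Agent.H652.DL
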