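import Mathlib
import Pool.Agent.H652.DL.Defs
import Pool.Agent.H652.DL.Jlimsup

set_option autoImplicit false

namespace Pool.Agent.H652.DL

open Metric



theorem ng_net {L : Type} [NormedAddCommGroup L] [NormedSpace ℝ L] (v : L →L[ℝ] L)
    (hfin : FiniteDimensional ℝ (LinearMap.range (v : L →ₗ[ℝ] L))) (S : Set L)
    (hS : ∀ x ∈ S, ‖x‖ ≤ 1) (ρ : ℝ) (hρ : 0 < ρ) :
    ∃ t ⊆ S, t.Finite ∧ ∀ x ∈ S, ∃ y ∈ t, ‖v x - v y‖ ≤ ρ := by
  haveI := hfin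
  haveI : ProperSpace (LinearMap.range (v : L →ₗ[ℝ] L)) := FiniteDimensional.proper ℝ _
  let v' : L → LinearMap.range (v : L →ₗ[ℝ] L) := fun x => ⟨v x, LinearMap.mem_range_self _ x⟩
  have hsub : v' '' S ⊆ closedBall 0 ‖v‖ := by
    rintro _ ⟨x, hx, rfl⟩
    rw [mem_closedBall_zero_iff]
    show ‖v x‖ ≤ ‖v‖
    have h1 := v.le_opNorm x
    have h2 := mul_le_mul_of_nonneg_left (hS x hx) (norm_nonneg v)
    rw [mul_one] at h2
    exact h1.trans h2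
  have htb : TotallyBounded (v' '' S) := (isCompact_closedBall 0 ‖v‖).totallyBounded.subset hsub
  obtain ⟨t, ht1, ht2, ht3⟩ := htb.exists_subset (Metric.dist_mem_uniformity hρ)
  obtain ⟨t', ht1', ht2', ht3'⟩ := (Set.exists_subset_image_finite_and
    (p := fun t => v' '' S ⊆ ⋃ y ∈ t, {x | (x, y) ∈ {p : _ × _ | dist p.1 p.2 < ρ}})).1
    ⟨t, ht1, ht2, ht3⟩
  refine ⟨t', ht1', ht2', fun x hx => ?_⟩
  have h1 := ht3' ⟨x, hx, rfl⟩
  simp only [Set.mem_iUnion] at h1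
  obtain ⟨_, ⟨y, hy, rfl⟩, h2⟩ := h1
  refine ⟨y, hy, ?_⟩
  have h3 : dist (v' x) (v' y) < ρ := h2
  rw [Subtype.dist_eq, dist_eq_norm] at h3
  exact h3.le


theorem not_gg {G : ℕ → Type} [∀ i, NormedAddCommGroup (G i)] [∀ i, NormedSpace ℝ (G i)]
    (c : ∀ j, lp (fun _ : ℕ => ℝ) 1 →L[ℝ] G j) (F : Finset ℕ) (eta : ℝ) (heta : 0 < eta)
    (h1 : ∀ j x, ‖c j x‖ ≤ 2 * ‖x‖)
    (h2 : ∀ n : ℕ, ∀ δ : ℝ, 0 < δ → ∀ᶠ j in Filter.atTop, ‖c j (lp.single 1 n 1)‖ ≤ 1 + δ)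
    (h3 : ∀ (j : ℕ) (T : lp (fun _ : ℕ => ℝ) 1 →L[ℝ] G j),
        (∀ n, ‖T (lp.single 1 n 1)‖ ≤ 1 + eta) →
        (∀ k, Filter.Tendsto (fun i => ‖c i k‖) Filter.atTop (nhds 0) → ‖T k‖ ≤ eta * ‖k‖) →
        (∀ n ∈ F, ‖T (lp.single 1 n 1) - c j (lp.single 1 n 1)‖ ≤ eta) → False) :
    ∃ eta' : ℝ, 0 < eta' ∧
      ¬ GG {k : lp (fun _ : ℕ => ℝ) 1 | ‖k‖ ≤ 1 ∧
        Filter.Tendsto (fun i => ‖c i k‖) Filter.atTop (nhds 0)} (1 + eta') eta' := by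
  classical
  obtain ⟨e, he, he1, he2⟩ : ∃ e : ℝ, 0 < e ∧ e ≤ 1 ∧ e ≤ eta :=
    ⟨min eta 1, lt_min heta one_pos, min_le_right _ _, min_le_left _ _⟩
  refine ⟨e / 16, by positivity, fun hGG => ?_⟩
  obtain ⟨v, hfin, hv, -, hvK, hvB⟩ := hGG ∅ (F.image fun n => lp.single 1 n 1) (e / 4)
    (by positivity)
  have hρ : 0 < e / 16 := by positivity
  obtain ⟨t, ht1, ht2, ht3⟩ := ng_net v hfin (closedBall 0 1)
    (fun x hx => mem_closedBall_zero_iff.1 hx) (e / 16) hρ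
  obtain ⟨s, hs1, hs2, hs3⟩ := ng_net v hfin {k : lp (fun _ : ℕ => ℝ) 1 | ‖k‖ ≤ 1 ∧
        Filter.Tendsto (fun i => ‖c i k‖) Filter.atTop (nhds 0)} (fun x hx => hx.1) (e / 16) hρ
  have ev1 : ∀ᶠ j in Filter.atTop, ∀ x ∈ t, ‖c j (v x)‖ ≤ ‖v x‖ + e / 16 := by
    rw [Filter.eventually_all_finite ht2]
    intro x _
    exact limsup_c c h1 h2 (v x) (e / 16) hρ
  choose! b hb1 hb2 using hvB
  have ev2 : ∀ᶠ j in Filter.atTop, ∀ x ∈ s, ‖c j (b x)‖ ≤ e / 16 := by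
    rw [Filter.eventually_all_finite hs2]
    intro x hx
    have h4 := (hb1 x (hs1 hx)).2
    exact (h4.eventually (gt_mem_nhds hρ)).mono fun j hj => hj.le
  obtain ⟨j, hj1, hj2⟩ := (ev1.and ev2).exists
  have hsingle : ∀ n : ℕ, ‖(lp.single 1 n 1 : lp (fun _ : ℕ => ℝ) 1)‖ = 1 := by
    intro n
    rw [lp.norm_single (by norm_num)]
    simp
  apply h3 j ((c j).comp v)
  · intro n
    obtain ⟨y, hy, hy2⟩ := ht3 (lp.single 1 n 1) (by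
      rw [mem_closedBall_zero_iff, hsingle])
    have h4 := hj1 y hy
    have h5 : ‖v y‖ ≤ 1 + e / 16 := by
      have h6 := v.le_opNorm y
      have h7 : ‖y‖ ≤ 1 := mem_closedBall_zero_iff.1 (ht1 hy)
      have h8 : ‖v‖ * ‖y‖ ≤ (1 + e / 16) * 1 :=
        mul_le_mul hv h7 (norm_nonneg _) (by positivity)
      linarith
    have h9 := h1 j (v (lp.single 1 n 1) - v y)
    have h10 : ‖c j (v (lp.single 1 n 1))‖ ≤ ‖c j (v (lp.single 1 n 1) - v y)‖ + ‖c j (v y)‖ := by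
      have : c j (v (lp.single 1 n 1)) = c j (v (lp.single 1 n 1) - v y) + c j (v y) := by
        rw [map_sub, sub_add_cancel]
      rw [this]
      exact norm_add_le _ _
    show ‖c j (v (lp.single 1 n 1))‖ ≤ 1 + eta
    linarith
  · intro k hk
    by_cases hk0 : k = 0
    · subst hk0
      simp
    have hkn : 0 < ‖k‖ := norm_pos_iff.2 hk0
    have hkB : (‖k‖⁻¹ • k) ∈ {k : lp (fun _ : ℕ => ℝ) 1 | ‖k‖ ≤ 1 ∧
        Filter.Tendsto (fun i => ‖c i k‖) Filter.atTop (nhds 0)} := by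
      constructor
      · rw [norm_smul, norm_inv, norm_norm, inv_mul_cancel₀ hkn.ne']
      · have : (fun i => ‖c i (‖k‖⁻¹ • k)‖) = fun i => ‖k‖⁻¹ * ‖c i k‖ := by
          funext i
          rw [map_smul, norm_smul, norm_inv, norm_norm]
        rw [this]
        have h4 := hk.const_mul (‖k‖⁻¹)
        rwa [mul_zero] at h4
    obtain ⟨y, hy, hy2⟩ := hs3 _ hkB
    have h4 := hj2 y hy
    have h5 := hb2 y (hs1 hy)
    have h6 := h1 j (v (‖k‖⁻¹ • k) - v y)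
    have h7 := h1 j (v y - b y)
    have h8 : ‖c j (v (‖k‖⁻¹ • k))‖ ≤
        ‖c j (v (‖k‖⁻¹ • k) - v y)‖ + (‖c j (v y - b y)‖ + ‖c j (b y)‖) := by
      have : c j (v (‖k‖⁻¹ • k)) = c j (v (‖k‖⁻¹ • k) - v y) + (c j (v y - b y) + c j (b y)) := by
        rw [map_sub, map_sub]; abel
      rw [this]
      exact (norm_add_le _ _).trans (add_le_add le_rfl (norm_add_le _ _))
    have h9 : ‖c j (v (‖k‖⁻¹ • k))‖ = ‖k‖⁻¹ * ‖c j (v k)‖ := by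
      rw [map_smul, map_smul, norm_smul, norm_inv, norm_norm]
    show ‖c j (v k)‖ ≤ eta * ‖k‖
    have h10 : ‖k‖⁻¹ * ‖c j (v k)‖ ≤ eta := by rw [← h9]; linarith
    rw [inv_mul_le_iff₀ hkn] at h10
    linarith
  · intro n hn
    have h4 := hvK (lp.single 1 n 1) (Finset.mem_image_of_mem _ hn)
    have h5 := h1 j (v (lp.single 1 n 1) - lp.single 1 n 1)
    show ‖c j (v (lp.single 1 n 1)) - c j (lp.single 1 n 1)‖ ≤ eta
    rw [← map_sub]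
    linarith

end Pool.Agent.H652.DL
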