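import Mathlib
import Pool.Agent.H652.DL.Defs

set_option autoImplicit false

namespace Pool.Agent.H652.DL

open Metric



theorem U_fin {V L E : Type} [NormedAddCommGroup V] [NormedSpace ℝ V] [NormedAddCommGroup L]
    [NormedSpace ℝ L] [NormedAddCommGroup E] [NormedSpace ℝ E] {D : VS V} {y : ℕ → L} {sig : ℝ}
    (A : ES D y sig E) (v : L →L[ℝ] L)
    (hv : FiniteDimensional ℝ (LinearMap.range (v : L →ₗ[ℝ] L))) (N N' : ℕ) (z : E) (th : ℝ) :
    FiniteDimensional ℝ (LinearMap.range (U A v N N' z th : E →ₗ[ℝ] E)) := by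
  have h1 : FiniteDimensional ℝ (LinearMap.range (D.P N : V →ₗ[ℝ] V)) := D.P_fin N
  let W : Submodule ℝ E := (LinearMap.range (D.P N : V →ₗ[ℝ] V)).map (A.iV : V →ₗ[ℝ] E) ⊔
    (LinearMap.range (v : L →ₗ[ℝ] L)).map (A.iL : L →ₗ[ℝ] E) ⊔
      Submodule.span ℝ {(1 - th) • A.iV (D.s N') + th • z}
  have hW : FiniteDimensional ℝ W := by
    have h2 : FiniteDimensional ℝ
        ((LinearMap.range (D.P N : V →ₗ[ℝ] V)).map (A.iV : V →ₗ[ℝ] E)) := inferInstance
    have h3 : FiniteDimensional ℝ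
        ((LinearMap.range (v : L →ₗ[ℝ] L)).map (A.iL : L →ₗ[ℝ] E)) := inferInstance
    exact inferInstance
  refine Submodule.finiteDimensional_of_le (S₂ := W) ?_
  rintro _ ⟨x, rfl⟩
  have e : (U A v N N' z th : E →ₗ[ℝ] E) x = A.iV (D.P N (A.pV x)) + A.iL (v (A.pL x)) +
      D.tau N (A.pV x) • ((1 - th) • A.iV (D.s N') + th • z) := rfl
  rw [e]
  refine Submodule.add_mem _ (Submodule.add_mem _ ?_ ?_) ?_
  · exact Submodule.mem_sup_left (Submodule.mem_sup_left ⟨_, ⟨_, rfl⟩, rfl⟩)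
  · exact Submodule.mem_sup_left (Submodule.mem_sup_right ⟨_, ⟨_, rfl⟩, rfl⟩)
  · exact Submodule.mem_sup_right (Submodule.smul_mem _ _ (Submodule.mem_span_singleton_self _))

end Pool.Agent.H652.DL
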