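import Mathlib
import Pool.Agent.H652.DL.Defs
import Pool.Agent.H652.DL.Jcbig
import Pool.Agent.H652.DL.Jchelly
import Pool.Agent.H652.DL.Jcsmall
import Pool.Agent.H652.DL.Jexgood
import Pool.Agent.H652.DL.Jhelly
import Pool.Agent.H652.DL.Jufin

set_option autoImplicit false

namespace Pool.Agent.H652.DL

open Metric








theorem up_aux {V L E : Type} [NormedAddCommGroup V] [NormedSpace ℝ V]
    [NormedAddCommGroup L] [NormedSpace ℝ L] [NormedAddCommGroup E] [NormedSpace ℝ E] {D : VS V}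
    {y : ℕ → L} {sig : ℝ} (A : ES D y sig E) (v : L →L[ℝ] L) (N N' : ℕ) (z : E) (th om : ℝ)
    (k : E) (h1 : ‖U A v N N' 0 0 k - k‖ ≤ om) (h2 : |D.tau N (A.pV k)| ≤ om)
    (hz : ‖z‖ ≤ 1) (h0 : 0 ≤ th) (h3 : th ≤ 1) : ‖U A v N N' z th k - k‖ ≤ 3 * om := by
  have hom : 0 ≤ om := (abs_nonneg _).trans h2
  have e : U A v N N' z th k - k = (U A v N N' 0 0 k - k) +
      (D.tau N (A.pV k)) • (th • (z - A.iV (D.s N'))) := by
    have e1 : U A v N N' z th k = A.iV (D.P N (A.pV k)) + A.iL (v (A.pL k)) +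
        (D.tau N (A.pV k)) • ((1 - th) • A.iV (D.s N') + th • z) := rfl
    have e2 : U A v N N' 0 0 k = A.iV (D.P N (A.pV k)) + A.iL (v (A.pL k)) +
        (D.tau N (A.pV k)) • ((1 - (0:ℝ)) • A.iV (D.s N') + (0:ℝ) • (0 : E)) := rfl
    rw [e1, e2]
    module
  have hn : ‖z - A.iV (D.s N')‖ ≤ 2 := by
    refine (norm_sub_le _ _).trans ?_
    have := (A.iV_norm (D.s N')).trans (D.s_norm N')
    linarith
  have hn2 : ‖(D.tau N (A.pV k)) • (th • (z - A.iV (D.s N')))‖ ≤ om * 2 := by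
    rw [norm_smul, norm_smul, Real.norm_eq_abs, Real.norm_eq_abs, abs_of_nonneg h0]
    refine mul_le_mul h2 ?_ (by positivity) hom
    calc th * ‖z - A.iV (D.s N')‖ ≤ 1 * 2 := mul_le_mul h3 hn (norm_nonneg _) zero_le_one
      _ = 2 := by norm_num
  rw [e]
  refine (norm_add_le _ _).trans ?_
  linarith



theorem upper {V L E : Type} [NormedAddCommGroup V] [NormedSpace ℝ V]
    [NormedAddCommGroup L] [NormedSpace ℝ L] [NormedAddCommGroup E] [NormedSpace ℝ E] {D : VS V}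
    {y : ℕ → L} {sig : ℝ} (A : ES D y sig E) (Γ : Submodule ℝ (StrongDual ℝ E))
    [FiniteDimensional ℝ Γ] (T : ℝ) (hs : 0 < sig) (hs1 : sig ≤ T / 64)
    (hT : 0 < T) (hT1 : T ≤ 1) (B : Set L) (hyB : ∀ i, y i ∈ B)
    (hyd : ∀ b ∈ B, ∀ δ : ℝ, 0 < δ → ∃ i, ‖b - y i‖ ≤ δ) (hy : ∀ i, ‖y i‖ ≤ 1)
    (hGG : ∀ lam t : ℝ, 1 < lam → T < t → GG B lam t) (β : ℝ) (hβ : 0 < β) (K : Finset E)
    (δ : ℝ) (hδ : 0 < δ) :
    ∃ u : E →L[ℝ] E, FiniteDimensional ℝ (LinearMap.range (u : E →ₗ[ℝ] E)) ∧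
      (∀ f : StrongDual ℝ E, ‖f.comp u‖ + 4 * β * infDist (f.comp u) (Γ : Set (StrongDual ℝ E)) ≤
        (1 + sig * (T - T ^ 2 / 256)) *
          (‖f‖ + 4 * β * infDist f (Γ : Set (StrongDual ℝ E)))) ∧
      ∀ k ∈ K, ‖u k - k‖ ≤ δ := by
  obtain ⟨om, hom⟩ : ∃ om, om = min (δ / 3) (sig * T ^ 2 / (10 ^ 5 * (1 + β))) := ⟨_, rfl⟩
  have hom0 : 0 < om := by
    rw [hom]
    exact lt_min (by linarith) (by positivity)
  have hom1 : om * (1 + β) ≤ sig * T ^ 2 / 10 ^ 5 := by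
    have h1 : om ≤ sig * T ^ 2 / (10 ^ 5 * (1 + β)) := by rw [hom]; exact min_le_right _ _
    have h2 := mul_le_mul_of_nonneg_right h1 (show (0:ℝ) ≤ 1 + β by linarith)
    have h3 : sig * T ^ 2 / (10 ^ 5 * (1 + β)) * (1 + β) = sig * T ^ 2 / 10 ^ 5 := by
      field_simp
    linarith
  have hom2 : 3 * om ≤ δ := by
    have h1 : om ≤ δ / 3 := by rw [hom]; exact min_le_left _ _
    linarith
  obtain ⟨v, N, N', hG, hK⟩ := exists_good A Γ (T / 16) T om hom0 B hyB hyd hy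
    (hGG (1 + T / 16 * sig) (T + om / 4) (by have : 0 < T / 16 * sig := by positivity
                                             linarith) (by linarith)) K
  have hth0 : 0 ≤ sig * T / 2 := by positivity
  have hth1 : sig * T / 2 ≤ 1 := by
    have h1 : sig ≤ 1 := by linarith
    have h2 : sig * T ≤ 1 * 1 := mul_le_mul h1 hT1 hT.le zero_le_one
    linarith
  by_cases hβ1 : β ≤ 1 / 16
  · refine ⟨U A v N N' 0 (sig * T / 2), U_fin A v hG.fin _ _ _ _, ?_, ?_⟩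
    · intro f
      exact case_small hG hs hs1 hT hT1 rfl hom0 hy β hβ hβ1 hom1 f
    · intro k hk
      exact (up_aux A v N N' 0 _ om k (hK k hk).1 (hK k hk).2 (by simp) hth0 hth1).trans hom2
  · rw [not_le] at hβ1
    by_cases hex : ∃ γ ∈ Γ, ‖γ‖ ≤ 1 ∧ 1 / 2 ≤ γ (A.iV (D.s N'))
    · obtain ⟨γ, hγ, hγ1, hγ2⟩ := hex
      refine ⟨U A v N N' 0 0, U_fin A v hG.fin _ _ _ _, ?_, ?_⟩
      · intro f
        exact case_big hG hs hs1 hT hT1 rfl hom0 hy β hβ1.le hom1 γ hγ hγ1 hγ2 f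
      · intro k hk
        exact (up_aux A v N N' 0 _ om k (hK k hk).1 (hK k hk).2 (by simp) le_rfl
          zero_le_one).trans hom2
    · push Not at hex
      have hsΓ : ∀ γ ∈ Γ, |γ (A.iV (D.s N'))| ≤ 1 / 2 * ‖γ‖ := by
        intro γ hγ
        rcases (norm_nonneg γ).eq_or_lt with h0 | h0
        · have : γ = 0 := norm_eq_zero.1 h0.symm
          rw [this]
          simp
        · have key : ∀ γ' ∈ Γ, ‖γ'‖ = ‖γ‖ → γ' (A.iV (D.s N')) ≤ 1 / 2 * ‖γ‖ := by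
            intro γ' hγ' hn
            have h1 := hex (‖γ‖⁻¹ • γ') (Γ.smul_mem _ hγ') (by
              rw [norm_smul, norm_inv, norm_norm, hn, inv_mul_cancel₀ h0.ne'])
            have h2 : (‖γ‖⁻¹ • γ') (A.iV (D.s N')) = ‖γ‖⁻¹ * γ' (A.iV (D.s N')) := rfl
            rw [h2] at h1
            have h3 := mul_lt_mul_of_pos_left h1 h0
            rw [← mul_assoc, mul_inv_cancel₀ h0.ne', one_mul] at h3
            linarith
          rw [abs_le]
          have e1 := key γ hγ rfl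
          have e2 := key (-γ) (Γ.neg_mem hγ) (norm_neg γ)
          have e3 : (-γ) (A.iV (D.s N')) = -(γ (A.iV (D.s N'))) := rfl
          rw [e3] at e2
          constructor <;> linarith
      obtain ⟨z, hz, hzΓ⟩ := helly Γ (A.iV (D.s N')) (1 / 2) (3 / 4) (by norm_num) (by norm_num) hsΓ
      refine ⟨U A v N N' z (sig * T / 2), U_fin A v hG.fin _ _ _ _, ?_, ?_⟩
      · intro f
        exact case_helly hG hs hs1 hT hT1 rfl hom0 hy β hβ hom1 z hz hzΓ f
      · intro k hk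
        exact (up_aux A v N N' z _ om k (hK k hk).1 (hK k hk).2 (by linarith) hth0 hth1).trans hom2

end Pool.Agent.H652.DL
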