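import Mathlib
import Pool.Agent.H652.L1Q.Main
import Pool.Agent.H652.DL.Defs
import Pool.Agent.H652.DL.Jexvs
import Pool.Agent.H652.DL.Jexes
import Pool.Agent.H652.DL.Jisnorm
import Pool.Agent.H652.DL.Japof
import Pool.Agent.H652.DL.Jupper
import Pool.Agent.H652.DL.Jlower
import Pool.Agent.H652.DL.Jextau
import Pool.Agent.H652.DL.Jggone
import Pool.Agent.H652.DL.Jdenseq
import Pool.Agent.H652.DL.Jnotgg

set_option autoImplicit false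

open scoped Matrix.Norms.L2Operator

namespace Pool.Agent.H652.DL

open Pool.Agent.H652.L1Q

theorem transfer_data (𝕜 : Type) [RCLike 𝕜] [∀ i, NormedSpace 𝕜 (Gm i)]
    [∀ i, IsScalarTower ℝ 𝕜 (Gm i)] :
    ∃ (c : ∀ j, lp (fun _ : ℕ => 𝕜) 1 →L[𝕜] Gm j) (F : Finset ℕ) (η : ℝ), 0 < η ∧
      (∀ j x, ‖c j x‖ ≤ 2 * ‖x‖) ∧
      (∀ n : ℕ, ∀ δ : ℝ, 0 < δ → ∀ᶠ j in Filter.atTop, ‖c j (lp.single 1 n 1)‖ ≤ 1 + δ) ∧
      (∀ (j : ℕ) (T : lp (fun _ : ℕ => 𝕜) 1 →L[𝕜] Gm j),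
        (∀ n, ‖T (lp.single 1 n 1)‖ ≤ 1 + η) →
        (∀ k, Filter.Tendsto (fun i => ‖c i k‖) Filter.atTop (nhds 0) → ‖T k‖ ≤ η * ‖k‖) →
        (∀ n ∈ F, ‖T (lp.single 1 n 1) - c j (lp.single 1 n 1)‖ ≤ η) → False) :=
  transfer (𝕜 := 𝕜) (G := Gm) vv vv_norm (1 / 10 ^ 16)
    (by positivity) (fun j => cptQ vv (fun k i => (vv_norm k i).le) j (1 / 10 ^ 16)
      (by positivity) (noT j))

theorem obstruction : ∃ (B : Set (lp (fun _ : ℕ => ℝ) 1)) (eta : ℝ), 0 < eta ∧ Convex ℝ B ∧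
    (0 : lp (fun _ : ℕ => ℝ) 1) ∈ B ∧ (∀ b ∈ B, -b ∈ B) ∧ (∀ b ∈ B, ‖b‖ ≤ 1) ∧
    ¬ GG B (1 + eta) eta := by
  obtain ⟨c, F, η, hη, h1, h2, h3⟩ := transfer_data ℝ
  obtain ⟨eta', he, hn⟩ := not_gg c F η hη h1 h2 h3
  refine ⟨_, eta', he, ?_, ?_, ?_, ?_, hn⟩
  · intro x hx y hy a b ha hb hab
    refine ⟨?_, ?_⟩
    · calc ‖a • x + b • y‖ ≤ ‖a • x‖ + ‖b • y‖ := norm_add_le _ _
        _ = a * ‖x‖ + b * ‖y‖ := by
          rw [norm_smul, norm_smul, Real.norm_of_nonneg ha, Real.norm_of_nonneg hb]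
        _ ≤ a * 1 + b * 1 := add_le_add (mul_le_mul_of_nonneg_left hx.1 ha)
          (mul_le_mul_of_nonneg_left hy.1 hb)
        _ = 1 := by rw [mul_one, mul_one, hab]
    · have h4 := (hx.2.const_mul a).add (hy.2.const_mul b)
      simp only [mul_zero, add_zero] at h4
      refine squeeze_zero (fun i => norm_nonneg _) (fun i => ?_) h4
      rw [map_add, map_smul, map_smul]
      refine (norm_add_le _ _).trans ?_
      rw [norm_smul, norm_smul, Real.norm_of_nonneg ha, Real.norm_of_nonneg hb]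
  · exact ⟨by simp, by simp⟩
  · intro b hb
    refine ⟨by rw [norm_neg]; exact hb.1, ?_⟩
    have h4 := hb.2
    simpa only [map_neg, norm_neg] using h4
  · intro b hb
    exact hb.1

theorem main : ∃ (lam : ℝ) (E : Type) (_ : NormedAddCommGroup E) (_ : NormedSpace ℝ E),
    1 ≤ lam ∧ CompleteSpace E ∧
    (∀ Γ : Submodule ℝ (StrongDual ℝ E), FiniteDimensional ℝ Γ → ∀ β : ℝ, 0 < β →
      (∃ N : Seminorm ℝ E, IsNormOf N Γ β) ∧
        ∀ N : Seminorm ℝ E, IsNormOf N Γ β → HasAPFor N lam) ∧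
    ¬ HasAP (StrongDual ℝ E) lam := by
  obtain ⟨B, eta, heta, hB, h0, hBs, hB1, hno⟩ := obstruction
  obtain ⟨T, hT, hT1, hGG, hbad⟩ := exists_tau B eta heta (gg_one B h0 hB1) hno
  obtain ⟨y, hyB, hyd⟩ := dense_seq B h0
  have hy : ∀ i, ‖y i‖ ≤ 1 := fun i => hB1 _ (hyB i)
  obtain ⟨lam, hlam, hng⟩ := hbad (T - T ^ 2 / 512) (by nlinarith)
  obtain ⟨V, iV1, iV2, hVc, ⟨D⟩⟩ := exists_VS
  -- choice of sigma
  obtain ⟨sig, hs, hs1, hs2⟩ : ∃ sig : ℝ, 0 < sig ∧ sig ≤ T / 64 ∧ 1 + 2 * sig ≤ lam := by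
    refine ⟨min (T / 64) ((lam - 1) / 2), lt_min (by positivity) (by linarith), min_le_left _ _, ?_⟩
    have := min_le_right (T / 64) ((lam - 1) / 2)
    linarith
  have hsig1 : sig ≤ 1 := by linarith
  obtain ⟨E, iE1, iE2, hEc, ⟨A⟩⟩ := exists_ES (L := lp (fun _ : ℕ => ℝ) 1) D y hy sig hs hsig1
  have hT2 : 0 < T - T ^ 2 / 256 := by nlinarith
  refine ⟨1 + sig * (T - T ^ 2 / 256), E, iE1, iE2, ?_, hEc, ?_, ?_⟩
  · have := mul_pos hs hT2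
    linarith
  · intro Γ hΓ β hβ
    refine ⟨exists_isNormOf Γ β hβ, fun N hN => ?_⟩
    refine ap_of Γ β hβ _ ?_ ?_ N hN
    · have := mul_pos hs hT2
      linarith
    · intro K δ hδ
      exact upper A Γ T hs hs1 hT hT1 B hyB hyd hy hGG β hβ K δ hδ
  · intro hAP
    have h5 := lower A hs hsig1 B hyB hyd hB h0 hBs hB1 (T - T ^ 2 / 256) hT2 (by nlinarith) hAP
      (T ^ 2 / 512) (by positivity)
    apply hng
    intro G K ε hε
    obtain ⟨v, h6, h7, h8, h9, h10⟩ := h5 G K ε hε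
    refine ⟨v, h6, h7.trans hs2, h8, h9, fun y hy => ?_⟩
    obtain ⟨b, hb, hb2⟩ := h10 y hy
    exact ⟨b, hb, hb2.trans (by linarith)⟩

end Pool.Agent.H652.DL
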